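import Pool.Agent.Tng.Targets

/-!
# Orbits close to the stable and the unstable manifold of a saddle
-/

set_option autoImplicit false

open Set MeasureTheory Filter Topology Metric
open scoped Manifold ContDiff

namespace Pool.Agent.Tng

open Pool.Agent.Pal

namespace APP_

theorem norm_eq (z : X) : ‖z‖ = max |z.1| |z.2| := rfl

theorem dist_two {rho : ℝ} {u v : X} (hu : u ∈ closedBall (0 : X) rho)
    (hv : v ∈ closedBall (0 : X) rho) : ‖u - v‖ ≤ 2 * rho := by
  rw [mem_closedBall, dist_zero_right] at hu hv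
  have := norm_sub_le u v
  linarith

end APP_

open APP_

theorem tAPP (hL : T_LIP) (hC : T_CONE) : T_APP := by
  intro P lam mu del rho hB a b x ha hPa hb hPb hst hx1 hx2
  obtain ⟨κ, hκ⟩ : ∃ κ, κ = lam + del := ⟨_, rfl⟩
  obtain ⟨σ, hσ⟩ : ∃ σ, σ = mu - del := ⟨_, rfl⟩
  have hlam := hB.lam_pos
  have hdel := hB.del_pos
  have hκ0 : 0 ≤ κ := by
    rw [hκ]
    linarith
  have hκ1 : κ < 1 := by
    rw [hκ]
    exact hB.lam_lt
  have hσ1 : 1 < σ := by
    rw [hσ]
    linarith [hB.mu_gt]
  have hmu : 0 < mu := by linarith [hB.mu_gt]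
  have hρ := hB.rho_pos
  -- one step
  have hstep : ∀ u ∈ closedBall (0 : X) rho, ∀ v ∈ closedBall (0 : X) rho,
      Cs κ σ (u - v) (P u - P v) := by
    intro u hu v hv
    rw [hκ, hσ]
    exact hC.1 lam mu del _ _ hlam hdel hmu (hL P lam mu del rho hB u hu v hv)
  constructor
  · -- the initial points
    have h1 : ∀ N, ‖x N - a 0‖ ≤ 2 * rho * (σ⁻¹) ^ N := by
      intro N
      have h2 := (hC.2 κ σ hκ0 hκ1 hσ1 (fun k => P^[k] (x N) - a k) N (by
        intro k hk
        have h3 := hstep _ (hst N k hk.le) _ (ha k)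
        rw [hPa, ← Function.iterate_succ_apply' P] at h3
        exact h3)).1
      have h4 : (x N - a 0).1 = 0 := by
        rw [Prod.fst_sub, hx1, sub_self]
      have h5 := (h2 (by
        show |(x N - a 0).1| ≤ |(x N - a 0).2|
        rw [h4, abs_zero]
        exact abs_nonneg _) N le_rfl).2
      have h6 : σ ^ N * |(x N - a 0).2| ≤ 2 * rho := by
        refine le_trans h5 (le_trans ?_ (dist_two (hst N N le_rfl) (ha N)))
        rw [norm_eq]
        exact le_max_right _ _
      have h7 : ‖x N - a 0‖ = |(x N - a 0).2| := by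
        rw [norm_eq, h4, abs_zero]
        exact max_eq_right (abs_nonneg _)
      rw [h7, inv_pow, ← div_eq_mul_inv, le_div_iff₀ (by positivity), mul_comm]
      exact h6
    rw [tendsto_iff_norm_sub_tendsto_zero]
    refine squeeze_zero (fun N => norm_nonneg _) h1 ?_
    have h3 : Tendsto (fun N : ℕ => (σ⁻¹) ^ N) atTop (𝓝 0) :=
      tendsto_pow_atTop_nhds_zero_of_lt_one (by positivity) (inv_lt_one_of_one_lt₀ hσ1)
    have h4 := h3.const_mul (2 * rho)
    rwa [mul_zero] at h4
  · -- the final points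
    intro j
    have h1 : ∀ N, ‖P^[(N + j) - j] (x (N + j)) - b j‖ ≤ 2 * rho * κ ^ N := by
      intro N
      obtain ⟨K, hK⟩ : ∃ K, K = N + j := ⟨_, rfl⟩
      have h2 := (hC.2 κ σ hκ0 hκ1 hσ1 (fun k => P^[k] (x K) - b (K - k)) K (by
        intro k hk
        have h3 := hstep _ (hst K k hk.le) _ (hb (K - k))
        have h4 : K - k = (K - (k + 1)) + 1 := by omega
        rw [h4, hPb, ← Function.iterate_succ_apply' P, ← h4] at h3
        exact h3)).2
      have h4 : (P^[K] (x K) - b (K - K)).2 = 0 := by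
        rw [Prod.snd_sub, hx2, Nat.sub_self, sub_self]
      have h5 := h2 (by
        show |(P^[K] (x K) - b (K - K)).2| ≤ |(P^[K] (x K) - b (K - K)).1|
        rw [h4, abs_zero]
        exact abs_nonneg _) N (by omega)
      obtain ⟨h6, h7⟩ := h5
      have h8 : K - N = j := by omega
      have h9 : K - j = N := by omega
      simp only [h8] at h6 h7
      rw [← hK, h9, norm_eq, max_eq_left h6]
      refine h7.trans ?_
      rw [mul_comm]
      refine mul_le_mul_of_nonneg_right ?_ (by positivity)
      refine le_trans ?_ (dist_two (hst K 0 (Nat.zero_le _)) (hb (K - 0)))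
      rw [norm_eq]
      exact le_max_left _ _
    have h2 : Tendsto (fun N => P^[(N + j) - j] (x (N + j))) atTop (𝓝 (b j)) := by
      rw [tendsto_iff_norm_sub_tendsto_zero]
      refine squeeze_zero (fun N => norm_nonneg _) h1 ?_
      have h4 := (tendsto_pow_atTop_nhds_zero_of_lt_one hκ0 hκ1).const_mul (2 * rho)
      rwa [mul_zero] at h4
    exact (tendsto_add_atTop_iff_nat (f := fun N => P^[N - j] (x N)) j).1 h2

end Pool.Agent.Tng
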