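import Pool.Agent.Tng.Targets

/-!
# Small squares around a saddle (job BOX)
-/

set_option autoImplicit false

open Set MeasureTheory Filter Topology Metric
open scoped Manifold ContDiff

namespace Pool.Agent.Tng

namespace BOX_

theorem det_dg (a b : ℝ) : (dg a b).det = a * b := by
  have h : ((dg a b : X →L[ℝ] X) : X →ₗ[ℝ] X) =
      LinearMap.prodMap (a • LinearMap.id) (b • LinearMap.id) := by
    ext <;> simp [dg]
  rw [ContinuousLinearMap.det, h, LinearMap.det_prodMap]
  simp

end BOX_

theorem tBOX : T_BOX := by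
  intro P lam h0 h1 hP0 hC hD W hW
  have hl : 1 < lam⁻¹ := (one_lt_inv₀ h0).2 h1
  set del : ℝ := min ((1 - lam) / 2) ((lam⁻¹ - 1) / 2) with hdel
  have hd : 0 < del := lt_min (by linarith) (by linarith)
  have hd1 : del ≤ (1 - lam) / 2 := min_le_left _ _
  have hd2 : del ≤ (lam⁻¹ - 1) / 2 := min_le_right _ _
  have e1 : ∀ᶠ z in 𝓝 (0 : X), ContDiffAt ℝ 1 P z := hC.eventually (by simp)
  have hcf : ContinuousAt (fderiv ℝ P) 0 := hC.continuousAt_fderiv (by simp)
  have e2 : ∀ᶠ z in 𝓝 (0 : X), ‖fderiv ℝ P z - dg lam lam⁻¹‖ < del := by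
    have hc : ContinuousAt (fun z => ‖fderiv ℝ P z - dg lam lam⁻¹‖) 0 :=
      (hcf.sub continuousAt_const).norm
    refine hc.eventually_lt continuousAt_const ?_
    rw [hD, sub_self, norm_zero]
    exact hd
  have e3 : ∀ᶠ z in 𝓝 (0 : X), 0 < (fderiv ℝ P z).det := by
    have hc : ContinuousAt (fun z => (fderiv ℝ P z).det) 0 :=
      (ContinuousLinearMap.continuous_det (𝕜 := ℝ) (E := X)).continuousAt.comp hcf
    refine continuousAt_const.eventually_lt hc ?_
    rw [hD, BOX_.det_dg, mul_inv_cancel₀ h0.ne']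
    exact one_pos
  obtain ⟨rho, hrho, hsub⟩ := Metric.nhds_basis_closedBall.mem_iff.1
    (inter_mem hW (e1.and (e2.and e3)))
  exact ⟨del, rho,
    { lam_pos := h0
      del_pos := hd
      lam_lt := by linarith
      mu_gt := by linarith
      rho_pos := hrho
      zero := hP0
      smooth := fun z hz => (hsub hz).2.1
      near := fun z hz => (hsub hz).2.2.1.le
      det := fun z hz => (hsub hz).2.2.2 }, fun z hz => (hsub hz).1⟩

end Pool.Agent.Tng
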