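import Pool.Agent.Tng.Targets

/-!
# TNG-BVP: orbits with given first coordinate at the start and second coordinate at the end
-/

set_option autoImplicit false

open Set MeasureTheory Filter Topology Metric
open scoped Manifold ContDiff

namespace Pool.Agent.Tng

open Pool.Agent.Pal

namespace BVP_

lemma fst_le (d : X) : |d.1| ≤ ‖d‖ := by
  rw [Prod.norm_def]
  exact le_max_left _ _

lemma snd_le (d : X) : |d.2| ≤ ‖d‖ := by
  rw [Prod.norm_def]
  exact le_max_right _ _

lemma norm_le_of (d : X) {c : ℝ} (h1 : |d.1| ≤ c) (h2 : |d.2| ≤ c) : ‖d‖ ≤ c := by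
  rw [Prod.norm_def]
  exact max_le h1 h2

/-- the operator whose fixed points are the orbits -/
noncomputable def Op (P : X → X) (mu α β : ℝ) (N : ℕ) (y : Fin (N + 1) → X) : Fin (N + 1) → X :=
  fun i => (if (i : ℕ) = 0 then α else (P (y ⟨i - 1, by omega⟩)).1,
    if (i : ℕ) = N then β else
      ((y ⟨min (i + 1) N, by omega⟩).2 - ((P (y i)).2 - mu * (y i).2)) / mu)

lemma fst_lip (hLIP : T_LIP) {P : X → X} {lam mu del rho : ℝ} (hB : Box P lam mu del rho)
    {z z' : X} (hz : z ∈ closedBall (0 : X) rho) (hz' : z' ∈ closedBall (0 : X) rho) :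
    |(P z).1 - (P z').1| ≤ (lam + del) * ‖z - z'‖ := by
  have h := (fst_le _).trans (hLIP P lam mu del rho hB z hz z' hz')
  simp only [dg_apply, Prod.fst_sub] at h
  have h2 := fst_le (z - z')
  rw [Prod.fst_sub] at h2
  have h3 : (P z).1 - (P z').1 = ((P z).1 - (P z').1 - lam * (z.1 - z'.1)) + lam * (z.1 - z'.1) := by
    ring
  rw [h3]
  refine (abs_add_le _ _).trans ?_
  rw [abs_mul, abs_of_pos hB.lam_pos]
  have := mul_le_mul_of_nonneg_left h2 hB.lam_pos.le
  linarith

lemma snd_lip (hLIP : T_LIP) {P : X → X} {lam mu del rho : ℝ} (hB : Box P lam mu del rho)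
    {z z' : X} (hz : z ∈ closedBall (0 : X) rho) (hz' : z' ∈ closedBall (0 : X) rho) :
    |((P z).2 - mu * z.2) - ((P z').2 - mu * z'.2)| ≤ del * ‖z - z'‖ := by
  have h := (snd_le _).trans (hLIP P lam mu del rho hB z hz z' hz')
  simp only [dg_apply, Prod.snd_sub] at h
  have h3 : ((P z).2 - mu * z.2) - ((P z').2 - mu * z'.2) =
      (P z).2 - (P z').2 - mu * (z.2 - z'.2) := by
    ring
  rw [h3]
  exact h

end BVP_

open BVP_ in
theorem tBVP (hLIP : T_LIP) : T_BVP := by
  intro P lam mu del rho hB N α β hα hβ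
  have hrho := hB.rho_pos.le
  have hmu : 0 < mu := by linarith [hB.mu_gt, hB.del_pos]
  have hdel := hB.del_pos
  have hlam := hB.lam_pos
  set K : ℝ := max (lam + del) ((1 + del) / mu) with hK
  have hK0 : 0 ≤ K := le_max_of_le_left (by linarith)
  have hK1 : K < 1 := max_lt hB.lam_lt (by rw [div_lt_one hmu]; exact hB.mu_gt)
  have hball : ∀ y : Fin (N + 1) → X, y ∈ closedBall (0 : Fin (N + 1) → X) rho →
      ∀ i, y i ∈ closedBall (0 : X) rho := by
    intro y hy i
    rw [mem_closedBall_zero_iff] at hy ⊢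
    exact (norm_le_pi_norm y i).trans hy
  have h0 : (0 : X) ∈ closedBall (0 : X) rho := mem_closedBall_self hrho
  have hlip : ∀ y ∈ closedBall (0 : Fin (N + 1) → X) rho,
      ∀ y' ∈ closedBall (0 : Fin (N + 1) → X) rho,
      ‖Op P mu α β N y - Op P mu α β N y'‖ ≤ K * ‖y - y'‖ := by
    intro y hy y' hy'
    rw [pi_norm_le_iff_of_nonneg (by positivity)]
    intro i
    have hn : ∀ i, ‖y i - y' i‖ ≤ ‖y - y'‖ := fun i => norm_le_pi_norm (y - y') i
    refine norm_le_of _ ?_ ?_
    · simp only [Pi.sub_apply, Op, Prod.fst_sub]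
      split_ifs with hi
      · simp only [sub_self, abs_zero]
        positivity
      · refine (fst_lip hLIP hB (hball y hy _) (hball y' hy' _)).trans ?_
        exact mul_le_mul (le_max_left _ _) (hn _) (norm_nonneg _) hK0
    · simp only [Pi.sub_apply, Op, Prod.snd_sub]
      split_ifs with hi
      · simp only [sub_self, abs_zero]
        positivity
      · have e1 := snd_lip hLIP hB (hball y hy i) (hball y' hy' i)
        have e2 := (snd_le _).trans (hn ⟨min (i + 1) N, by omega⟩)
        rw [Prod.snd_sub] at e2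
        rw [← sub_div, abs_div, abs_of_pos hmu, div_le_iff₀ hmu]
        have e3 : (y ⟨min (i + 1) N, by omega⟩).2 - ((P (y i)).2 - mu * (y i).2) -
            ((y' ⟨min (i + 1) N, by omega⟩).2 - ((P (y' i)).2 - mu * (y' i).2)) =
            ((y ⟨min (i + 1) N, by omega⟩).2 - (y' ⟨min (i + 1) N, by omega⟩).2) -
            (((P (y i)).2 - mu * (y i).2) - ((P (y' i)).2 - mu * (y' i).2)) := by ring
        rw [e3]
        refine (abs_sub _ _).trans ?_
        have e4 : (1 + del) ≤ K * mu := by
          rw [← div_le_iff₀ hmu]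
          exact le_max_right _ _
        have e5 := mul_le_mul_of_nonneg_left (hn i) hdel.le
        have e6 := mul_le_mul_of_nonneg_right e4 (norm_nonneg (y - y'))
        linarith
  have h00 : (0 : Fin (N + 1) → X) ∈ closedBall (0 : Fin (N + 1) → X) rho :=
    mem_closedBall_self hrho
  have hmaps : MapsTo (Op P mu α β N) (closedBall 0 rho) (closedBall 0 rho) := by
    intro y hy
    rw [mem_closedBall_zero_iff, pi_norm_le_iff_of_nonneg hrho]
    intro i
    have hyn : ∀ i, ‖y i‖ ≤ rho := fun i => mem_closedBall_zero_iff.1 (hball y hy i)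
    refine norm_le_of _ ?_ ?_
    · simp only [Op]
      split_ifs with hi
      · exact hα
      · have h := fst_lip hLIP hB (hball y hy ⟨i - 1, by omega⟩) h0
        rw [hB.zero, Prod.fst_zero, sub_zero, sub_zero] at h
        refine h.trans ?_
        have := hyn ⟨i - 1, by omega⟩
        nlinarith [hB.lam_lt, norm_nonneg (y ⟨i - 1, by omega⟩)]
    · simp only [Op]
      split_ifs with hi
      · exact hβ
      · have h := snd_lip hLIP hB (hball y hy i) h0
        rw [hB.zero, Prod.snd_zero, mul_zero, sub_zero, sub_zero, sub_zero] at h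
        rw [abs_div, abs_of_pos hmu, div_le_iff₀ hmu]
        refine (abs_sub _ _).trans ?_
        have e2 := (snd_le _).trans (hyn ⟨min (i + 1) N, by omega⟩)
        have e5 := mul_le_mul_of_nonneg_left (hyn i) hdel.le
        have e6 := mul_le_mul_of_nonneg_right hB.mu_gt.le hrho
        linarith
  obtain ⟨y, hy, hfix, -⟩ := ContractingWith.exists_fixedPoint' (K := ⟨K, hK0⟩)
    (isClosed_closedBall.isComplete) hmaps
    ⟨by exact_mod_cast hK1, LipschitzWith.of_dist_le_mul fun a b => by
      rw [Subtype.dist_eq, Subtype.dist_eq, dist_eq_norm, dist_eq_norm]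
      exact hlip a a.2 b b.2⟩ h00 (edist_ne_top _ _)
  have hfix' : ∀ i, Op P mu α β N y i = y i := fun i => congrFun hfix i
  have hstep : ∀ i : ℕ, ∀ hi : i < N, P (y ⟨i, by omega⟩) = y ⟨i + 1, by omega⟩ := by
    intro i hi
    refine Prod.ext ?_ ?_
    · have h := congrArg Prod.fst (hfix' ⟨i + 1, by omega⟩)
      simp only [Op] at h
      rw [if_neg (by omega)] at h
      exact h
    · have h := congrArg Prod.snd (hfix' ⟨i, by omega⟩)
      simp only [Op] at h
      rw [if_neg (by omega), div_eq_iff hmu.ne'] at h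
      have e : (⟨min (i + 1) N, by omega⟩ : Fin (N + 1)) = ⟨i + 1, by omega⟩ := by
        apply Fin.ext
        simp only
        omega
      rw [e] at h
      linarith
  have hit : ∀ i : ℕ, ∀ hi : i ≤ N, P^[i] (y ⟨0, by omega⟩) = y ⟨i, by omega⟩ := by
    intro i
    induction i with
    | zero => intro _; rfl
    | succ i ih =>
      intro hi
      rw [Function.iterate_succ_apply', ih (by omega), hstep i (by omega)]
  refine ⟨y ⟨0, by omega⟩, ?_, ?_, ?_⟩
  · have h := congrArg Prod.fst (hfix' ⟨0, by omega⟩)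
    simp only [Op, if_true] at h
    exact h.symm
  · rw [hit N le_rfl]
    have h := congrArg Prod.snd (hfix' ⟨N, by omega⟩)
    simp only [Op, if_true] at h
    exact h.symm
  · intro k hk
    rw [hit k hk]
    exact hball y hy _

end Pool.Agent.Tng
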