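import Pool.Agent.Tng.Targets
import Pool.Agent.Pal.EXT

/-!
# The tangency data in other charts (job TNG-CHG)
-/

set_option autoImplicit false

open Set MeasureTheory Filter Topology Metric
open scoped Manifold ContDiff

namespace Pool.Agent.Tng

open Pool.Agent.Pal

namespace CHG_

variable {M : Type} [TopologicalSpace M] [ChartedSpace (E 2) M]

theorem ev_source {e e' : OpenPartialHomeomorph M (E 2)} {p : M} (hp : p ∈ e.source)
    {g : M → M} (hg : Continuous g) (hgp : g p ∈ e'.source) :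
    ∀ᶠ y in 𝓝 (e p), g (e.symm y) ∈ e'.source := by
  have hsc : ContinuousAt e.symm (e p) := e.continuousAt_symm (e.map_source hp)
  have : Tendsto (fun y => g (e.symm y)) (𝓝 (e p)) (𝓝 (g (e.symm (e p)))) :=
    hg.continuousAt.tendsto.comp hsc.tendsto
  refine this.eventually (e'.open_source.mem_nhds ?_)
  rw [e.left_inv hp]; exact hgp

/-- The derivative of the change of charts. -/
noncomputable def D (e e₁ : OpenPartialHomeomorph M (E 2)) (x : M) : E 2 →L[ℝ] E 2 :=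
  fderiv ℝ (e₁ ∘ e.symm) (e x)

section

variable [IsManifold 𝓘(ℝ, E 2) ∞ M]

theorem smooth {e e' : OpenPartialHomeomorph M (E 2)} (he : e ∈ Ch 2 M) (he' : e' ∈ Ch 2 M) {x : M}
    (hx : x ∈ e.source) (hx' : x ∈ e'.source) : ContDiffAt ℝ ∞ (e' ∘ e.symm) (e x) := by
  have h := (diff1 2 M ⊤).2.2.2 id 0 e e' x
    ⟨Diffeomorph.refl 𝓘(ℝ, E 2) M _, rfl⟩ he he' hx hx'
  simpa using h

theorem hasD {e e' : OpenPartialHomeomorph M (E 2)} (he : e ∈ Ch 2 M) (he' : e' ∈ Ch 2 M) {x : M}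
    (hx : x ∈ e.source) (hx' : x ∈ e'.source) : HasFDerivAt (e' ∘ e.symm) (D e e' x) (e x) :=
  ((smooth he he' hx hx').differentiableAt (by simp)).hasFDerivAt

theorem inv {e e' : OpenPartialHomeomorph M (E 2)} (he : e ∈ Ch 2 M) (he' : e' ∈ Ch 2 M) {x : M}
    (hx : x ∈ e.source) (hx' : x ∈ e'.source) :
    D e' e x ∘L D e e' x = ContinuousLinearMap.id ℝ (E 2) := by
  have h2 : HasFDerivAt ((e ∘ e'.symm) ∘ (e' ∘ e.symm)) (D e' e x ∘L D e e' x) (e x) := by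
    refine HasFDerivAt.comp (e x) ?_ (hasD he he' hx hx')
    have : (e' ∘ e.symm) (e x) = e' x := by simp [e.left_inv hx]
    rw [this]
    exact hasD he' he hx' hx
  have h3 : (e ∘ e'.symm) ∘ (e' ∘ e.symm) =ᶠ[𝓝 (e x)] id := by
    filter_upwards [ev_source hx continuous_id (e' := e') hx',
      e.open_target.mem_nhds (e.map_source hx)] with y hy hyt
    simp only [Function.comp_apply, id] at hy ⊢
    rw [e'.left_inv hy, e.right_inv hyt]
  exact h2.unique ((hasFDerivAt_id (e x)).congr_of_eventuallyEq h3)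

theorem inv_apply {e e' : OpenPartialHomeomorph M (E 2)} (he : e ∈ Ch 2 M) (he' : e' ∈ Ch 2 M)
    {x : M} (hx : x ∈ e.source) (hx' : x ∈ e'.source) (v : E 2) : D e' e x (D e e' x v) = v := by
  have := congrArg (fun T : E 2 →L[ℝ] E 2 => T v) (inv he he' hx hx')
  simpa using this

theorem det_comp (A B : E 2 →L[ℝ] E 2) : (A ∘L B).det = A.det * B.det := by
  simp [ContinuousLinearMap.det]

theorem det_ne {e e' : OpenPartialHomeomorph M (E 2)} (he : e ∈ Ch 2 M) (he' : e' ∈ Ch 2 M)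
    {x : M} (hx : x ∈ e.source) (hx' : x ∈ e'.source) : (D e e' x).det ≠ 0 := by
  intro h0
  have h1 := congrArg (fun T : E 2 →L[ℝ] E 2 => T.det) (inv he he' hx hx')
  simp only [det_comp, h0, mul_zero] at h1
  simp [ContinuousLinearMap.det] at h1

/-- The derivative depends continuously on the point. -/
theorem cont {e e' : OpenPartialHomeomorph M (E 2)} (he : e ∈ Ch 2 M) (he' : e' ∈ Ch 2 M) {p : M}
    (hp : p ∈ e.source) (hp' : p ∈ e'.source) {u : ℕ → M} (hu : Tendsto u atTop (𝓝 p)) :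
    Tendsto (fun k => D e e' (u k)) atTop (𝓝 (D e e' p)) := by
  have h1 : ContinuousAt (fderiv ℝ (e' ∘ e.symm)) (e p) :=
    ((smooth he he' hp hp').fderiv_right (m := 0) (by simp)).continuousAt
  have h2 : Tendsto (fun k => e (u k)) atTop (𝓝 (e p)) := (e.continuousAt hp).tendsto.comp hu
  exact h1.tendsto.comp h2

/-- Change of charts for the derivative of a map. -/
theorem chain {e e₁ e' e₀ : OpenPartialHomeomorph M (E 2)} (he : e ∈ Ch 2 M) (he₁ : e₁ ∈ Ch 2 M)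
    (he' : e' ∈ Ch 2 M) (he₀ : e₀ ∈ Ch 2 M) {F : M → M} (hF : Continuous F) {x : M}
    (hx' : x ∈ e'.source) (hx₀ : x ∈ e₀.source) (hy : F x ∈ e.source) (hy₁ : F x ∈ e₁.source)
    (hd : DifferentiableAt ℝ (e ∘ F ∘ e'.symm) (e' x)) :
    fderiv ℝ (e₁ ∘ F ∘ e₀.symm) (e₀ x) =
      D e e₁ (F x) ∘L fderiv ℝ (e ∘ F ∘ e'.symm) (e' x) ∘L D e₀ e' x := by
  have h1 : HasFDerivAt ((e₁ ∘ e.symm) ∘ (e ∘ F ∘ e'.symm) ∘ (e' ∘ e₀.symm))
      (D e e₁ (F x) ∘L fderiv ℝ (e ∘ F ∘ e'.symm) (e' x) ∘L D e₀ e' x) (e₀ x) := by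
    refine HasFDerivAt.comp (e₀ x) ?_ ?_
    · have : ((e ∘ F ∘ e'.symm) ∘ (e' ∘ e₀.symm)) (e₀ x) = e (F x) := by
        simp [e₀.left_inv hx₀, e'.left_inv hx']
      rw [this]
      exact hasD he he₁ hy hy₁
    · refine HasFDerivAt.comp (e₀ x) ?_ (hasD he₀ he' hx₀ hx')
      have : (e' ∘ e₀.symm) (e₀ x) = e' x := by simp [e₀.left_inv hx₀]
      rw [this]
      exact hd.hasFDerivAt
  have h2 : (e₁ ∘ F ∘ e₀.symm) =ᶠ[𝓝 (e₀ x)]
      ((e₁ ∘ e.symm) ∘ (e ∘ F ∘ e'.symm) ∘ (e' ∘ e₀.symm)) := by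
    filter_upwards [ev_source hx₀ continuous_id (e' := e') hx', ev_source hx₀ hF (e' := e) hy]
      with y h3 h4
    simp only [Function.comp_apply, id] at h3 h4 ⊢
    rw [e'.left_inv h3, e.left_inv h4]
  exact (h1.congr_of_eventuallyEq h2).fderiv

theorem det_sign {e e' : OpenPartialHomeomorph M (E 2)} (he : e ∈ Ch 2 M) (he' : e' ∈ Ch 2 M)
    {p : M} (hp : p ∈ e.source) (hp' : p ∈ e'.source) {u : ℕ → M} (hu : Tendsto u atTop (𝓝 p)) :
    ∀ᶠ k in atTop, 0 < (D e e' (u k)).det * (D e e' p).det := by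
  have h1 : Tendsto (fun k => (D e e' (u k)).det * (D e e' p).det) atTop
      (𝓝 ((D e e' p).det * (D e e' p).det)) :=
    ((ContinuousLinearMap.continuous_det.tendsto _).comp (cont he he' hp hp' hu)).mul_const _
  exact h1.eventually (lt_mem_nhds (mul_self_pos.2 (det_ne he he' hp hp')))

theorem ev_src {e : OpenPartialHomeomorph M (E 2)} {p : M} (hp : p ∈ e.source) {u : ℕ → M}
    (hu : Tendsto u atTop (𝓝 p)) : ∀ᶠ k in atTop, u k ∈ e.source :=
  hu.eventually (e.open_source.mem_nhds hp)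

/-- The vectors tend to zero in the other charts. -/
theorem van {e e₁ e' e₀ : OpenPartialHomeomorph M (E 2)} (he : e ∈ Ch 2 M) (he₁ : e₁ ∈ Ch 2 M)
    (he' : e' ∈ Ch 2 M) (he₀ : e₀ ∈ Ch 2 M) {F : M → M} (hF : Continuous F) {m : ℕ} {p q : M}
    (hp : p ∈ e.source) (hp₁ : p ∈ e₁.source)
    (hq' : q ∈ e'.source) (hq₀ : q ∈ e₀.source)
    (hd : ∀ k, F^[m * k] q ∈ e.source → DifferentiableAt ℝ (e ∘ F^[m * k] ∘ e'.symm) (e' q))
    (hu : Tendsto (fun k : ℕ => F^[m * k] q) atTop (𝓝 p)) {v : E 2}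
    (hv : Tendsto (fun k : ℕ => fderiv ℝ (e ∘ F^[m * k] ∘ e'.symm) (e' q) v) atTop (𝓝 0)) :
    Tendsto (fun k : ℕ => fderiv ℝ (e₁ ∘ F^[m * k] ∘ e₀.symm) (e₀ q) (D e' e₀ q v)) atTop
      (𝓝 0) := by
  have h1 : Tendsto (fun k : ℕ => D e e₁ (F^[m * k] q)
      (fderiv ℝ (e ∘ F^[m * k] ∘ e'.symm) (e' q) v)) atTop (𝓝 (D e e₁ p 0)) :=
    ((isBoundedBilinearMap_apply (𝕜 := ℝ) (E := E 2) (F := E 2)).continuous.tendsto
      (D e e₁ p, 0)).comp ((cont he he₁ hp hp₁ hu).prodMk_nhds hv)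
  rw [map_zero] at h1
  refine h1.congr' ?_
  filter_upwards [ev_src hp hu, ev_src hp₁ hu] with k h2 h3
  rw [chain he he₁ he' he₀ (hF.iterate _) hq' hq₀ h2 h3 (hd k h2)]
  simp only [ContinuousLinearMap.comp_apply]
  rw [inv_apply he' he₀ hq' hq₀]

theorem det_chain {e e₁ e' e₀ : OpenPartialHomeomorph M (E 2)} (he : e ∈ Ch 2 M)
    (he₁ : e₁ ∈ Ch 2 M) (he' : e' ∈ Ch 2 M) (he₀ : e₀ ∈ Ch 2 M) {F : M → M} (hF : Continuous F)
    {x : M} (hx' : x ∈ e'.source) (hx₀ : x ∈ e₀.source) (hy : F x ∈ e.source)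
    (hy₁ : F x ∈ e₁.source) (hd : DifferentiableAt ℝ (e ∘ F ∘ e'.symm) (e' x)) :
    (fderiv ℝ (e₁ ∘ F ∘ e₀.symm) (e₀ x)).det =
      (D e e₁ (F x)).det * ((fderiv ℝ (e ∘ F ∘ e'.symm) (e' x)).det * (D e₀ e' x).det) := by
  rw [chain he he₁ he' he₀ hF hx' hx₀ hy hy₁ hd, det_comp, det_comp]

end

end CHG_

open CHG_ in
theorem tCHG : T_CHG := by
  intro M _ _ _ s f g m p q e e' v hs hf hg hgf hfg h e₁ he₁ e₀ he₀ hp₁ hq₀
  have cf : Continuous f := by
    obtain ⟨G, hG⟩ := (diff1 2 M s).2.2.1 f hf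
    rw [← hG]; exact G.continuous
  have cg : Continuous g := by
    obtain ⟨G, hG⟩ := (diff1 2 M s).2.2.1 g hg
    rw [← hG]; exact G.continuous
  have hs0 : ((s : ℕ∞) : WithTop ℕ∞) ≠ 0 := by
    intro h0
    have : s = 0 := by exact_mod_cast h0
    rw [this] at hs
    simp at hs
  have df : ∀ (a b : OpenPartialHomeomorph M (E 2)) (k : ℕ) (x : M), a ∈ Ch 2 M → b ∈ Ch 2 M →
      x ∈ a.source → f^[k] x ∈ b.source → DifferentiableAt ℝ (b ∘ f^[k] ∘ a.symm) (a x) :=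
    fun a b k x ha hb hx hy =>
      ((diff1 2 M s).2.2.2 f k a b x hf ha hb hx hy).differentiableAt hs0
  have dg' : ∀ (a b : OpenPartialHomeomorph M (E 2)) (k : ℕ) (x : M), a ∈ Ch 2 M → b ∈ Ch 2 M →
      x ∈ a.source → g^[k] x ∈ b.source → DifferentiableAt ℝ (b ∘ g^[k] ∘ a.symm) (a x) :=
    fun a b k x ha hb hx hy =>
      ((diff1 2 M s).2.2.2 g k a b x hg ha hb hx hy).differentiableAt hs0
  refine ⟨D e' e₀ q v, ?_⟩
  refine ⟨h.m_pos, he₁, he₀, hp₁, hq₀, h.hfp, ?_, h.ne, h.fwd, h.bwd, ?_, ?_, ?_, ?_⟩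
  · obtain ⟨w, c, hw, hc, hA⟩ := h.saddle
    refine ⟨D e e₁ p w, c, ?_, hc, ?_⟩
    · intro h0
      have := inv_apply h.he he₁ h.hp hp₁ w
      rw [h0, map_zero] at this
      exact hw this.symm
    · rw [chain h.he he₁ h.he he₁ (cf.iterate m) h.hp hp₁ (by rw [h.hfp]; exact h.hp)
        (by rw [h.hfp]; exact hp₁) (df e e m p h.he h.he h.hp (by rw [h.hfp]; exact h.hp))]
      simp only [ContinuousLinearMap.comp_apply]
      rw [inv_apply h.he he₁ h.hp hp₁, hA, h.hfp, map_smul]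
  · intro h0
    have := inv_apply h.he' he₀ h.hq hq₀ v
    rw [h0, map_zero] at this
    exact h.v_ne this.symm
  · exact van h.he he₁ h.he' he₀ cf h.hp hp₁ h.hq hq₀
      (fun k hk => df e' e _ q h.he' h.he h.hq hk) h.fwd h.vf
  · exact van h.he he₁ h.he' he₀ cg h.hp hp₁ h.hq hq₀
      (fun k hk => dg' e' e _ q h.he' h.he h.hq hk) h.bwd h.vb
  · intro K
    obtain ⟨K₁, hK₁⟩ := eventually_atTop.1 ((ev_src h.hp h.fwd).and ((ev_src hp₁ h.fwd).and
      ((ev_src h.hp h.bwd).and ((ev_src hp₁ h.bwd).and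
        ((det_sign h.he he₁ h.hp hp₁ h.fwd).and (det_sign h.he he₁ h.hp hp₁ h.bwd))))))
    obtain ⟨i, hi, j, hj, hij⟩ := h.ori (max K K₁)
    refine ⟨i, le_trans (le_max_left _ _) hi, j, le_trans (le_max_left _ _) hj, ?_⟩
    obtain ⟨a1, a2, -, -, a5, -⟩ := hK₁ i (le_trans (le_max_right _ _) hi)
    obtain ⟨-, -, b3, b4, -, b6⟩ := hK₁ j (le_trans (le_max_right _ _) hj)
    rw [det_chain h.he he₁ h.he' he₀ (cf.iterate _) h.hq hq₀ a1 a2
        (df e' e _ q h.he' h.he h.hq a1),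
      det_chain h.he he₁ h.he' he₀ (cg.iterate _) h.hq hq₀ b3 b4
        (dg' e' e _ q h.he' h.he h.hq b3)]
    set d := (D e₀ e' q).det with hd
    set P := (D e e₁ p).det with hP
    set Ai := (D e e₁ (f^[m * i] q)).det with hAi
    set Bj := (D e e₁ (g^[m * j] q)).det with hBj
    set X := (fderiv ℝ (e ∘ f^[m * i] ∘ e'.symm) (e' q)).det with hX
    set Y := (fderiv ℝ (e ∘ g^[m * j] ∘ e'.symm) (e' q)).det with hY
    have hd0 : d ≠ 0 := det_ne he₀ h.he' hq₀ h.hq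
    have h1 : 0 < Ai * Bj := by
      have h2 : 0 < (Ai * P) * (Bj * P) := mul_pos a5 b6
      have h3 : (Ai * P) * (Bj * P) = (Ai * Bj) * (P * P) := by ring
      rw [h3] at h2
      exact (mul_pos_iff_of_pos_right (mul_self_pos.2 (det_ne h.he he₁ h.hp hp₁))).1 h2
    have h4 : Ai * (X * d) * (Bj * (Y * d)) = (Ai * Bj) * (X * Y) * (d * d) := by ring
    rw [h4]
    exact mul_pos (mul_pos h1 hij) (mul_self_pos.2 hd0)

end Pool.Agent.Tng
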