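import Pool.Agent.Tng.Targets

/-!
# Homoclinic tangencies, job CLO: closing a return by a small area preserving perturbation
-/

set_option autoImplicit false

open Set MeasureTheory Filter Topology Metric
open scoped Manifold ContDiff

namespace Pool.Agent.Tng

open Pool.Agent.Pal

namespace CLO_

/-- Points whose intermediate iterates avoid a closed set form an open set. -/
theorem open_off {M : Type} [TopologicalSpace M] {f : M → M} (hf : Continuous f) {C : Set M}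
    (hC : IsClosed C) (T : ℕ) : IsOpen {x : M | ∀ i, 0 < i → i < T → f^[i] x ∉ C} := by
  have h : {x : M | ∀ i, 0 < i → i < T → f^[i] x ∉ C} =
      ⋂ i ∈ Finset.range T, {x : M | 0 < i → f^[i] x ∉ C} := by
    ext x
    simp only [Set.mem_ofPred_eq, mem_iInter, Finset.mem_range]
    exact ⟨fun h i hi h0 => h i h0 hi, fun h i h0 hi => h i hi h0⟩
  rw [h]
  refine isOpen_biInter_finset fun i _ => ?_
  by_cases h0 : 0 < i
  · have : {x : M | 0 < i → f^[i] x ∉ C} = (f^[i]) ⁻¹' Cᶜ := by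
      ext x
      simp [h0]
    rw [this]
    exact hC.isOpen_compl.preimage (hf.iterate i)
  · have : {x : M | 0 < i → f^[i] x ∉ C} = univ := by
      ext x
      simp [h0]
    rw [this]
    exact isOpen_univ

end CLO_

theorem tCLO (hTRA : T_TRA) (hJET : T_JET) (hEXT : T_EXT) (hVOLP : T_VOLP) (hDIFF : T_DIFF) :
    T_CLO := by
  intro M _ _ _ _ _ μ s r f U q e z T C v hs hf hfμ hU hfU hRet hdet
  obtain ⟨hcomp, hmono, hhomeo, hiter⟩ := hDIFF 2 M s
  have heCh : e ∈ Ch 2 M := hRet.uni.1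
  obtain ⟨F, hF⟩ := hhomeo f hf
  have hfc : Continuous f := by rw [← hF]; exact F.continuous
  have hs1' : ((1 : ℕ∞) : WithTop ℕ∞) ≤ (s : WithTop ℕ∞) := by exact_mod_cast hs
  have hsne : (s : WithTop ℕ∞) ≠ 0 := by
    intro h
    rw [h] at hs1'
    exact absurd hs1' (by decide)
  have hs0 : e.symm 0 = q := by rw [← hRet.zero, e.left_inv hRet.hq]
  have h0t : (0 : E 2) ∈ e.target := by rw [← hRet.zero]; exact e.map_source hRet.hq
  have hsc : ContinuousAt e.symm 0 := e.continuousAt_symm h0t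
  have hec : ContinuousAt e q := e.continuousAt hRet.hq
  -- the ball
  have hev : {y : E 2 | y ∈ e.target ∧ e.symm y ∈ C} ∈ 𝓝 (0 : E 2) := by
    have h1 : ∀ᶠ y in 𝓝 (0 : E 2), e.symm y ∈ C :=
      hsc.preimage_mem_nhds (by rw [hs0]; exact hRet.nhd)
    filter_upwards [e.open_target.mem_nhds h0t, h1] with y hy1 hy2
    exact ⟨hy1, hy2⟩
  obtain ⟨σ, hσ, hσW⟩ := Metric.nhds_basis_closedBall.mem_iff.1 hev
  have hC : closedBall (0 : E 2) σ ⊆ e.target := fun y hy => (hσW hy).1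
  obtain ⟨δ, hδ, hrob⟩ := hU f hfU hf e heCh _ (isCompact_closedBall 0 σ) hC
  obtain ⟨η, hη, hL⟩ := hJET σ hσ (max r 1) (min δ (1 / 2)) (lt_min hδ (by norm_num))
  have hT := hTRA (fun N => fderiv ℝ (e ∘ f^[T N] ∘ e.symm) (e (z N))) v hRet.v_ne hRet.rk hdet η hη
  have e1 : ∀ᶠ N in atTop, z N ∈ e.source := hRet.hz (e.open_source.mem_nhds hRet.hq)
  have e2 : ∀ᶠ N in atTop, f^[T N] (z N) ∈ e.source := hRet.hz' (e.open_source.mem_nhds hRet.hq)
  have hball : ∀ᶠ x in 𝓝 q, ‖e x‖ ≤ η := by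
    have h1 : Tendsto (fun x => ‖e x‖) (𝓝 q) (𝓝 ‖e q‖) := hec.norm
    rw [hRet.zero, norm_zero] at h1
    exact (h1.eventually (gt_mem_nhds hη)).mono fun x hx => le_of_lt hx
  have e3 : ∀ᶠ N in atTop, ‖e (z N)‖ ≤ η := hRet.hz hball
  have e4 : ∀ᶠ N in atTop, ‖e (f^[T N] (z N))‖ ≤ η := hRet.hz' hball
  obtain ⟨N, ⟨t, ht, htNR⟩, h1, h2, h3, h4, h5⟩ :=
    (hT.and (e1.and (e2.and (e3.and (e4.and hRet.off))))).exists
  obtain ⟨L, hLM, hLN, hLdet, hLy, hLfd⟩ := hL (e (f^[T N] (z N))) (e (z N)) t h4 h3 ht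
  have hLn1 : Near 1 (1 / 2) L := fun j hj y =>
    (hLN j (hj.trans (le_max_right _ _)) y).trans (min_le_right _ _)
  have hLn : Near r δ L := fun j hj y =>
    (hLN j (hj.trans (le_max_left _ _)) y).trans (min_le_left _ _)
  obtain ⟨hχd, hχs, hχoff⟩ := hEXT 2 M e _ L heCh (isCompact_closedBall 0 σ) hC hLM hLn1
  set χ : M → M := ext e L with hχ
  set f₁ : M → M := χ ∘ f with hf₁
  have hf₁U : f₁ ∈ U := hrob L hLM hLn
  have hf₁d : IsDiffeo 2 s f₁ := hcomp _ _ (hmono _ hχd) hf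
  have hχμ : MeasurePreserving χ μ μ :=
    hVOLP 2 M μ e _ L hRet.uni (isCompact_closedBall 0 σ) hC hLM hLn1 hLdet
  have hf₁μ : MeasurePreserving f₁ μ μ := hχμ.comp hfμ
  -- the iterates
  have hit : ∀ x : M, (∀ i, 0 < i → i < T N → f^[i] x ∉ C) → ∀ i, i < T N →
      f₁^[i] x = f^[i] x := by
    intro x hx i
    induction i with
    | zero => intro _; rfl
    | succ i ih =>
      intro hi
      rw [Function.iterate_succ_apply', ih (by omega), hf₁, Function.comp_apply,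
        ← Function.iterate_succ_apply' f i x]
      refine hχoff _ ?_
      rintro ⟨y', hy', h⟩
      exact hx (i + 1) (Nat.succ_pos i) hi (h ▸ (hσW hy').2)
  have hval : ∀ x : M, (∀ i, 0 < i → i < T N → f^[i] x ∉ C) → f^[T N] x ∈ e.source →
      f₁^[T N] x ∈ e.source ∧ e (f₁^[T N] x) = L (e (f^[T N] x)) := by
    intro x hx hxs
    obtain ⟨k', hk'⟩ : ∃ k', T N = k' + 1 := ⟨T N - 1, by have := hRet.pos N; omega⟩
    obtain ⟨g1, g2⟩ := hχs _ hxs
    have g3 : f₁^[T N] x = χ (f^[T N] x) := by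
      rw [hk', Function.iterate_succ_apply', hit x hx k' (by omega), hf₁, Function.comp_apply,
        ← Function.iterate_succ_apply' f k' x]
    rw [g3]
    exact ⟨g1, g2⟩
  obtain ⟨v1, v2⟩ := hval (z N) h5 h2
  have hfix : f₁^[T N] (z N) = z N := by
    refine e.injOn v1 h1 ?_
    rw [v2, hLy]
  refine ⟨f₁, N, hf₁U, hf₁d, hf₁μ, hfix, h1, ?_⟩
  -- the derivative
  have hwt : e (z N) ∈ e.target := e.map_source h1
  have hscz : ContinuousAt e.symm (e (z N)) := e.continuousAt_symm hwt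
  have hopen := CLO_.open_off hfc hRet.closed (T N)
  have hev1 : ∀ᶠ y in 𝓝 (e (z N)), ∀ i, 0 < i → i < T N → f^[i] (e.symm y) ∉ C := by
    have : {x : M | ∀ i, 0 < i → i < T N → f^[i] x ∉ C} ∈ 𝓝 (e.symm (e (z N))) := by
      rw [e.left_inv h1]
      exact hopen.mem_nhds h5
    exact hscz.preimage_mem_nhds this
  have hev2 : ∀ᶠ y in 𝓝 (e (z N)), f^[T N] (e.symm y) ∈ e.source := by
    have h6 : (f^[T N]) ⁻¹' e.source ∈ 𝓝 (e.symm (e (z N))) := by
      rw [e.left_inv h1]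
      exact (e.open_source.preimage (hfc.iterate (T N))).mem_nhds h2
    exact hscz.preimage_mem_nhds h6
  have heq : e ∘ f₁^[T N] ∘ e.symm =ᶠ[𝓝 (e (z N))] L ∘ (e ∘ f^[T N] ∘ e.symm) := by
    filter_upwards [hev1, hev2] with y hy1 hy2
    exact (hval _ hy1 hy2).2
  have hd0 : ContDiffAt ℝ s (e ∘ f^[T N] ∘ e.symm) (e (z N)) :=
    hiter f (T N) e e (z N) hf heCh heCh h1 h2
  have hpt : (e ∘ f^[T N] ∘ e.symm) (e (z N)) = e (f^[T N] (z N)) := by
    simp only [Function.comp_apply, e.left_inv h1]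
  have hfder : fderiv ℝ (e ∘ f₁^[T N] ∘ e.symm) (e (z N)) =
      rot t ∘L fderiv ℝ (e ∘ f^[T N] ∘ e.symm) (e (z N)) := by
    rw [heq.fderiv_eq, fderiv_comp (e (z N)) (hLM.1.contDiffAt.differentiableAt (by simp))
      (hd0.differentiableAt hsne), hpt, hLfd]
  rw [hfder]
  exact htNR

end Pool.Agent.Tng
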