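import Pool.Agent.Tng.Targets

/-!
# Cone estimates for sequences
-/

set_option autoImplicit false

namespace Pool.Agent.Tng

namespace CONE_

theorem one (lam mu del : ℝ) (d d' : X) (hl : 0 < lam) (hd : 0 < del) (_hm : 0 < mu)
    (h : ‖d' - dg lam mu d‖ ≤ del * ‖d‖) : Cs (lam + del) (mu - del) d d' := by
  have e : ‖d‖ = max |d.1| |d.2| := by
    rw [Prod.norm_def, Real.norm_eq_abs, Real.norm_eq_abs]
  have h1 : |d'.1 - lam * d.1| ≤ del * ‖d‖ := by
    have := norm_fst_le (d' - dg lam mu d)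
    rw [dg_apply] at this
    exact this.trans (by rw [dg_apply] at h; exact h)
  have h2 : |d'.2 - mu * d.2| ≤ del * ‖d‖ := by
    have := norm_snd_le (d' - dg lam mu d)
    rw [dg_apply] at this
    exact this.trans (by rw [dg_apply] at h; exact h)
  have t1 : |d'.1| ≤ |d'.1 - lam * d.1| + lam * |d.1| := by
    have := abs_add_le (d'.1 - lam * d.1) (lam * d.1)
    rw [sub_add_cancel, abs_mul, abs_of_pos hl] at this
    exact this
  refine ⟨fun hc => ?_, fun hc => ?_⟩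
  · have en : ‖d‖ = |d.2| := by rw [e, max_eq_right hc]
    rw [en] at h1 h2
    refine ⟨?_, ?_⟩
    · have := mul_le_mul_of_nonneg_left hc hl.le
      nlinarith
    · have t2 : |mu * d.2| ≤ |d'.2 - mu * d.2| + |d'.2| := by
        have := abs_sub_abs_le_abs_sub (mu * d.2) d'.2
        rw [abs_sub_comm] at this
        linarith
      rw [abs_mul, abs_of_pos _hm] at t2
      nlinarith
  · have en : ‖d‖ = |d.1| := by rw [e, max_eq_left hc]
    rw [en] at h1
    nlinarith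

theorem up (κ σ : ℝ) (_hκ : 0 ≤ κ) (hκ1 : κ < 1) (hσ : 1 < σ) (d : ℕ → X) (N : ℕ)
    (h : ∀ k < N, Cs κ σ (d k) (d (k + 1))) (h0 : |(d 0).1| ≤ |(d 0).2|) :
    ∀ k ≤ N, |(d k).1| ≤ |(d k).2| ∧ σ ^ k * |(d 0).2| ≤ |(d k).2| := by
  intro k
  induction k with
  | zero => intro _; simpa using h0
  | succ k ih =>
    intro hk
    obtain ⟨i1, i2⟩ := ih (by omega)
    obtain ⟨c1, c2⟩ := (h k (by omega)).1 i1
    have p := abs_nonneg (d k).2
    refine ⟨?_, ?_⟩
    · nlinarith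
    · have : σ ^ (k + 1) * |(d 0).2| = σ * (σ ^ k * |(d 0).2|) := by ring
      rw [this]
      refine le_trans ?_ c2
      exact mul_le_mul_of_nonneg_left i2 (by linarith)

/-- Once strictly in the vertical cone, always strictly there. -/
theorem strict (κ σ : ℝ) (_hκ : 0 ≤ κ) (hκ1 : κ < 1) (hσ : 1 < σ) (d : ℕ → X) (N : ℕ)
    (h : ∀ k < N, Cs κ σ (d k) (d (k + 1))) (k : ℕ) (h0 : |(d k).1| < |(d k).2|) :
    ∀ j, k + j ≤ N → |(d (k + j)).1| < |(d (k + j)).2| := by
  intro j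
  induction j with
  | zero => intro _; simpa using h0
  | succ j ih =>
    intro hk
    have i1 := ih (by omega)
    obtain ⟨c1, c2⟩ := (h (k + j) (by omega)).1 i1.le
    have p : 0 < |(d (k + j)).2| := lt_of_le_of_lt (abs_nonneg _) i1
    have : |(d (k + j + 1)).1| < |(d (k + j + 1)).2| := by nlinarith
    exact this

theorem down (κ σ : ℝ) (hκ : 0 ≤ κ) (hκ1 : κ < 1) (hσ : 1 < σ) (d : ℕ → X) (N : ℕ)
    (h : ∀ k < N, Cs κ σ (d k) (d (k + 1))) (h0 : |(d N).2| ≤ |(d N).1|) :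
    ∀ k ≤ N, |(d k).2| ≤ |(d k).1| ∧ |(d k).1| ≤ κ ^ k * |(d 0).1| := by
  have A : ∀ k ≤ N, |(d k).2| ≤ |(d k).1| := by
    intro k hk
    by_contra hc
    have := strict κ σ hκ hκ1 hσ d N h k (not_le.mp hc) (N - k) (by omega)
    rw [Nat.add_sub_of_le hk] at this
    exact absurd h0 (not_le.mpr this)
  intro k
  induction k with
  | zero => intro _; exact ⟨A 0 (by omega), by simp⟩
  | succ k ih =>
    intro hk
    obtain ⟨i1, i2⟩ := ih (by omega)
    refine ⟨A _ hk, ?_⟩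
    have c := (h k (by omega)).2 i1
    have : κ ^ (k + 1) * |(d 0).1| = κ * (κ ^ k * |(d 0).1|) := by ring
    rw [this]
    exact c.trans (mul_le_mul_of_nonneg_left i2 hκ)

end CONE_

theorem tCONE : T_CONE :=
  ⟨fun lam mu del d d' hl hd hm h => CONE_.one lam mu del d d' hl hd hm h,
    fun κ σ hκ hκ1 hσ d N h => ⟨CONE_.up κ σ hκ hκ1 hσ d N h, CONE_.down κ σ hκ hκ1 hσ d N h⟩⟩

end Pool.Agent.Tng
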