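import Pool.Agent.Tng.Targets
import Pool.Agent.Pal.MAIN2
import Pool.Agent.Pal.VOLE
import Pool.Agent.Pal.EXT

/-!
# The Jacobian of a conservative diffeomorphism in area charts (job DET)
-/

set_option autoImplicit false

open Set MeasureTheory Filter Topology Metric
open scoped Manifold ContDiff

namespace Pool.Agent.Tng

open Pool.Agent.Pal

namespace DET_

/-- A measure preserving homeomorphism read in two unimodular charts preserves the volume. -/
theorem volpres {n : ℕ} {M : Type} [TopologicalSpace M] [ChartedSpace (E n) M]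
    [MeasurableSpace M] [BorelSpace M] {μ : Measure M} {e e' : OpenPartialHomeomorph M (E n)}
    (he : Uni μ e) (he' : Uni μ e') (g : M ≃ₜ M) (hg : MeasurePreserving g μ μ) {U : Set (E n)}
    (hU : U ⊆ e.target) (hgU : ∀ y ∈ U, g (e.symm y) ∈ e'.source) (A : Set (E n)) (hA : A ⊆ U)
    (hAm : MeasurableSet A) : volume ((e' ∘ g ∘ e.symm) '' A) = volume A := by
  have hAt : A ⊆ e.target := hA.trans hU
  have hm1 : MeasurableSet (e.symm '' A) := by
    have h1 : e.symm '' A = e.source ∩ e ⁻¹' A := by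
      rw [← e.symm_image_eq_source_inter_preimage hAt]
    rw [h1]
    have h2 : Measurable (e.source.domRestrict e) :=
      (continuousOn_iff_continuous_domRestrict.1 e.continuousOn).measurable
    have h3 := h2 hAm
    have h4 : e.source ∩ e ⁻¹' A = Subtype.val '' (e.source.domRestrict e ⁻¹' A) := by
      ext x
      constructor
      · rintro ⟨hx1, hx2⟩
        exact ⟨⟨x, hx1⟩, hx2, rfl⟩
      · rintro ⟨⟨x, hx1⟩, hx2, rfl⟩
        exact ⟨hx1, hx2⟩
    rw [h4]
    exact (MeasurableEmbedding.subtype_coe e.open_source.measurableSet).measurableSet_image.2 h3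
  have hm2 : MeasurableSet (g '' (e.symm '' A)) := (g.toMeasurableEquiv.measurableSet_image).2 hm1
  have hs1 : e.symm '' A ⊆ e.source := by
    rintro _ ⟨y, hy, rfl⟩; exact e.map_target (hAt hy)
  have hs2 : g '' (e.symm '' A) ⊆ e'.source := by
    rintro _ ⟨_, ⟨y, hy, rfl⟩, rfl⟩; exact hgU y (hA hy)
  have h1 : (e' ∘ g ∘ e.symm) '' A = e' '' (g '' (e.symm '' A)) := by
    rw [image_comp, image_comp]
  rw [h1, ← he'.2 _ hs2 hm2]
  have h2 : e '' (e.symm '' A) = A := by
    rw [← image_comp]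
    refine (image_congr fun y hy => ?_).trans (image_id A)
    simp [e.right_inv (hAt hy)]
  conv_rhs => rw [← h2, ← he.2 _ hs1 hm1]
  rw [← hg.measure_preimage hm2.nullMeasurableSet, preimage_image_eq _ g.injective]

end DET_

theorem tDET : T_DET := by
  intro M _ _ _ _ _ _ μ s f g hs hf _ _ _ hfμ e e' m x he he' hx hx'
  obtain ⟨-, -, hhomeo, hiter⟩ := diff1 2 M s
  obtain ⟨F, hF⟩ := hhomeo f hf
  have hfc : Continuous f := by rw [← hF]; exact F.continuous
  have hhomk : ∃ G : M ≃ₜ M, (G : M → M) = f^[m] := by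
    refine ⟨⟨⟨f^[m], (F.symm : M → M)^[m], ?_, ?_⟩, hfc.iterate m, F.symm.continuous.iterate m⟩, rfl⟩
    · rw [← hF]; exact Function.LeftInverse.iterate F.symm_apply_apply m
    · rw [← hF]; exact Function.RightInverse.iterate F.apply_symm_apply m
  obtain ⟨G, hG⟩ := hhomk
  have hs1 : ((1 : ℕ∞) : WithTop ℕ∞) ≤ (s : WithTop ℕ∞) := by exact_mod_cast hs
  have hd : ContDiffAt ℝ s (e' ∘ f^[m] ∘ e.symm) (e x) := hiter f m e e' x hf he.1 he'.1 hx hx'
  set Φ : E 2 → E 2 := fun y => (e' ∘ f^[m] ∘ e.symm) (y + e x) with hΦ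
  have hfd : fderiv ℝ Φ 0 = fderiv ℝ (e' ∘ f^[m] ∘ e.symm) (e x) := by
    have h := fderiv_comp_add_right (𝕜 := ℝ) (f := e' ∘ f^[m] ∘ e.symm) (x := (0 : E 2)) (e x)
    rw [zero_add] at h
    exact h
  rw [← hfd]
  set V : Set (E 2) := {y | y ∈ e.target ∧ f^[m] (e.symm y) ∈ e'.source} with hV
  have hVn : V ∈ 𝓝 (e x) := by
    filter_upwards [e.open_target.mem_nhds (e.map_source hx),
      MAIN_.ev_source (e := e) (e' := e') hx (hfc.iterate m) hx'] with y hy1 hy2
    exact ⟨hy1, hy2⟩
  have htr : Tendsto (fun y : E 2 => y + e x) (𝓝 0) (𝓝 (e x)) := by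
    have h : Continuous (fun y : E 2 => y + e x) := continuous_id.add continuous_const
    have h2 := h.tendsto (0 : E 2)
    rwa [zero_add] at h2
  refine jac 2 Φ ((fun y => y + e x) ⁻¹' V) (htr hVn) ?_ ?_ ?_
  · have h1 : ContDiffAt ℝ 1 (e' ∘ f^[m] ∘ e.symm) ((fun y : E 2 => y + e x) 0) := by
      have h2 := hd.of_le hs1
      simpa using h2
    exact ContDiffAt.comp (g := e' ∘ f^[m] ∘ e.symm) (f := fun y : E 2 => y + e x) (0 : E 2) h1
      (contDiffAt_id.add contDiffAt_const)
  · rintro y ⟨hy1, hy2⟩ z ⟨hz1, hz2⟩ hyz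
    have h1 := e'.injOn hy2 hz2 hyz
    rw [← hG] at h1
    have h3 := e.symm.injOn hy1 hz1 (G.injective h1)
    exact add_right_cancel h3
  · intro A hA hAm
    have hA' : Φ '' A = (e' ∘ G ∘ e.symm) '' ((fun y => y + e x) '' A) := by
      rw [← image_comp, hG]
      rfl
    have hm : MeasurableSet ((fun y => y + e x) '' A) := by
      rw [image_add_right]
      exact measurable_add_const _ hAm
    rw [hA', DET_.volpres he he' G (by rw [hG]; exact hfμ.iterate m)
      (U := V) (fun y hy => hy.1) (fun y hy => by rw [hG]; exact hy.2) _ (by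
        rintro _ ⟨y, hy, rfl⟩
        exact hA hy) hm, image_add_right]
    exact measure_preimage_add_right _ _ _

end Pool.Agent.Tng
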