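import Pool.Agent.Tng.Targets
import Pool.Agent.Pal.LIN

/-!
# Diagonalisation of a saddle
-/

set_option autoImplicit false

open Set MeasureTheory Filter Topology Metric
open scoped Manifold ContDiff

namespace Pool.Agent.Tng

open Pool.Agent.Pal

namespace DIAG_

/-- The map `(x, y) ↦ x w₁ + y w₂`. -/
noncomputable def T (w₁ w₂ : E 2) : X →ₗ[ℝ] E 2 :=
  (LinearMap.fst ℝ ℝ ℝ).smulRight w₁ + (LinearMap.snd ℝ ℝ ℝ).smulRight w₂

theorem T_apply (w₁ w₂ : E 2) (z : X) : T w₁ w₂ z = z.1 • w₁ + z.2 • w₂ := rfl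

theorem T_inj {w₁ w₂ : E 2} (h : w₁ 0 * w₂ 1 - w₁ 1 * w₂ 0 ≠ 0) :
    Function.Injective (T w₁ w₂) := by
  rw [← LinearMap.ker_eq_bot, LinearMap.ker_eq_bot']
  intro z hz
  rw [T_apply] at hz
  have h0 := congrArg (fun v : E 2 => v 0) hz
  have h1 := congrArg (fun v : E 2 => v 1) hz
  simp only [PiLp.add_apply, PiLp.smul_apply, smul_eq_mul, PiLp.zero_apply] at h0 h1
  have e1 : (w₁ 0 * w₂ 1 - w₁ 1 * w₂ 0) * z.1 = 0 := by linear_combination w₂ 1 * h0 - w₂ 0 * h1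
  have e2 : (w₁ 0 * w₂ 1 - w₁ 1 * w₂ 0) * z.2 = 0 := by linear_combination w₁ 0 * h1 - w₁ 1 * h0
  exact Prod.ext ((mul_eq_zero.1 e1).resolve_left h) ((mul_eq_zero.1 e2).resolve_left h)

theorem main (A : E 2 →L[ℝ] E 2) {w₁ w₂ : E 2} (h : w₁ 0 * w₂ 1 - w₁ 1 * w₂ 0 ≠ 0) {a b : ℝ}
    (h₁ : A w₁ = a • w₁) (h₂ : A w₂ = b • w₂) :
    ∃ S : E 2 ≃L[ℝ] X, ∀ z, S (A z) = dg a b (S z) := by
  have hdim : Module.finrank ℝ X = Module.finrank ℝ (E 2) := by
    rw [Module.finrank_prod, finrank_euclideanSpace]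
    simp
  set L : X ≃ₗ[ℝ] E 2 := LinearMap.linearEquivOfInjective (T w₁ w₂) (T_inj h) hdim with hL
  have hLa : ∀ z, L z = z.1 • w₁ + z.2 • w₂ := fun z => rfl
  refine ⟨L.symm.toContinuousLinearEquiv, fun z => ?_⟩
  show L.symm (A z) = dg a b (L.symm z)
  obtain ⟨y, rfl⟩ := L.surjective z
  rw [L.symm_apply_apply, L.symm_apply_eq, hLa, hLa, map_add, map_smul, map_smul, h₁, h₂, dg_apply]
  simp only [smul_smul]
  rw [mul_comm y.1, mul_comm y.2]

end DIAG_

open DIAG_ Pool.Agent.Pal.LIN_ in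
theorem tDIAG : T_DIAG := by
  rintro A hdet ⟨w, c, hw, hc0, hc1, hA⟩
  have hc : c ≠ 0 := hc0.ne'
  set p := w 0 with hp
  set q := w 1 with hq
  have hs : 0 < p ^ 2 + q ^ 2 := by
    rcases eq_or_ne p 0 with h0 | h0
    · have hq0 : q ≠ 0 := by
        intro h1
        apply hw
        exact ext_e h0 h1
      positivity
    · positivity
  set u : E 2 := (-q) • e 0 + p • e 1 with hu
  have hu0 : u 0 = -q := by simp [hu, e_apply]
  have hu1 : u 1 = p := by simp [hu, e_apply]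
  set α : ℝ := ((A u) 0 * (-q) + (A u) 1 * p) / (p ^ 2 + q ^ 2) with hα
  set β : ℝ := ((A u) 0 * p + (A u) 1 * q) / (p ^ 2 + q ^ 2) with hβ
  have hAu : A u = α • u + β • w := by
    apply ext_e
    · simp only [PiLp.add_apply, PiLp.smul_apply, smul_eq_mul, hu0, ← hp, hα, hβ]
      field_simp
      ring
    · simp only [PiLp.add_apply, PiLp.smul_apply, smul_eq_mul, hu1, ← hq, hα, hβ]
      field_simp
      ring
  have hcα : c * α = 1 := by
    rw [det_eq] at hdet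
    have h0 := apply_eq A w 0
    have h1 := apply_eq A w 1
    have h2 := apply_eq A u 0
    have h3 := apply_eq A u 1
    rw [hA] at h0 h1
    rw [hAu] at h2 h3
    simp only [PiLp.add_apply, PiLp.smul_apply, smul_eq_mul, hu0, hu1, ← hp, ← hq] at h0 h1 h2 h3
    have h4 : c * α * (p ^ 2 + q ^ 2) = p ^ 2 + q ^ 2 := by
      have e1 : c * α * (p ^ 2 + q ^ 2) =
          (c * p) * (α * p + β * q) - (c * q) * (α * (-q) + β * p) := by ring
      rw [e1, h0, h1, h2, h3]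
      linear_combination (p ^ 2 + q ^ 2) * hdet
    exact mul_right_cancel₀ hs.ne' (by rw [h4, one_mul])
  have hαc : α = c⁻¹ := eq_inv_of_mul_eq_one_right hcα
  have hne : c⁻¹ - c ≠ 0 := by
    intro h0
    have h1 : c ^ 2 = 1 := by
      field_simp at h0
      linarith
    have h3 : (c - 1) * (c + 1) = 0 := by linear_combination h1
    rcases mul_eq_zero.1 h3 with h2 | h2
    · exact hc1 (by linarith)
    · linarith
  set γ : ℝ := β / (c⁻¹ - c) with hγ
  have hγ' : γ * (c⁻¹ - c) = β := div_mul_cancel₀ _ hne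
  set w' : E 2 := u + γ • w with hw'
  have hAw' : A w' = c⁻¹ • w' := by
    rw [hw', map_add, map_smul, hAu, hA, hαc, ← hγ']
    module
  have hω : w 0 * w' 1 - w 1 * w' 0 ≠ 0 := by
    have : w 0 * w' 1 - w 1 * w' 0 = p ^ 2 + q ^ 2 := by
      simp only [hw', PiLp.add_apply, PiLp.smul_apply, smul_eq_mul, hu0, hu1, ← hp, ← hq]
      ring
    rw [this]
    exact hs.ne'
  rcases lt_or_gt_of_ne hc1 with hlt | hgt
  · obtain ⟨S, hS⟩ := main A hω hA hAw'
    exact ⟨S, c, hc0, hlt, hS⟩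
  · have hω' : w' 0 * w 1 - w' 1 * w 0 ≠ 0 := by
      intro h0
      apply hω
      linarith
    obtain ⟨S, hS⟩ := main A hω' hAw' hA
    refine ⟨S, c⁻¹, inv_pos.2 hc0, inv_lt_one_of_one_lt₀ hgt, ?_⟩
    rw [inv_inv]
    exact hS

end Pool.Agent.Tng
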