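import Pool.Agent.Tng.Targets

/-!
# TNG-DIRS: the contracted direction
-/

set_option autoImplicit false

open Set MeasureTheory Filter Topology Metric
open scoped Manifold ContDiff

namespace Pool.Agent.Tng

open Pool.Agent.Pal

namespace DIRS_

lemma chain (hITD : T_ITD) (hCONE : T_CONE) {P : X → X} {lam mu del rho : ℝ}
    (hB : Box P lam mu del rho) {N : ℕ} {x : X} (hx : Stay P rho N x) (v : X) :
    ∀ k < N, Cs (lam + del) (mu - del) (fderiv ℝ P^[k] x v) (fderiv ℝ P^[k + 1] x v) := by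
  intro k hk
  have h1 := (hITD P lam mu del rho hB N x hx k hk.le).2.2.2 hk v
  have hmu : 0 < mu := by linarith [hB.mu_gt, hB.del_pos]
  exact hCONE.1 lam mu del _ _ hB.lam_pos hB.del_pos hmu h1

lemma fderiv_zero_iter (P : X → X) (x v : X) : fderiv ℝ P^[0] x v = v := by
  rw [Function.iterate_zero, fderiv_id]
  rfl

lemma snd_le (d : X) : |d.2| ≤ ‖d‖ := by
  rw [Prod.norm_def]
  exact le_max_right _ _

end DIRS_

open DIRS_ in
theorem tDIRS (hITD : T_ITD) (hCONE : T_CONE) : T_DIRS := by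
  intro P lam mu del rho hB a x vp ha hPa hx hxa hvp hv
  have hκ0 : 0 ≤ lam + del := by linarith [hB.lam_pos, hB.del_pos]
  have hκ1 : lam + del < 1 := hB.lam_lt
  have hσ : 1 < mu - del := by linarith [hB.mu_gt]
  have hσ0 : 0 < mu - del := by linarith
  -- the orbit of `a 0`
  have hak : ∀ k, P^[k] (a 0) = a k := by
    intro k
    induction k with
    | zero => rfl
    | succ k ih => rw [Function.iterate_succ_apply', ih, hPa]
  have hsa : ∀ N, Stay P rho N (a 0) := fun N k _ => by rw [hak]; exact ha k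
  have hcone := fun (d : ℕ → X) (N : ℕ)
    (h : ∀ k < N, Cs (lam + del) (mu - del) (d k) (d (k + 1))) =>
    hCONE.2 (lam + del) (mu - del) hκ0 hκ1 hσ d N h
  have hca := fun N v => chain hITD hCONE hB (hsa N) v
  have hcx := fun N v => chain hITD hCONE hB (hx N) v
  -- first claim
  have h1 : |vp.2| < |vp.1| := by
    by_contra hcon
    push Not at hcon
    have h2 : ∀ k : ℕ, |vp.2| ≤ ‖fderiv ℝ P^[k] (a 0) vp‖ := by
      intro k
      have h3 := (hcone (fun k => fderiv ℝ P^[k] (a 0) vp) k (hca k vp)).1 (by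
        simp only [fderiv_zero_iter]; exact hcon) k le_rfl
      simp only [fderiv_zero_iter] at h3
      have h4 : |vp.2| ≤ (mu - del) ^ k * |vp.2| :=
        le_mul_of_one_le_left (abs_nonneg _) (one_le_pow₀ hσ.le)
      exact h4.trans (h3.2.trans (snd_le _))
    have h5 : |vp.2| ≤ 0 := by
      have h6 : Tendsto (fun k : ℕ => ‖fderiv ℝ P^[k] (a 0) vp‖) atTop (𝓝 0) := by
        simpa using hv.norm
      exact ge_of_tendsto h6 (Eventually.of_forall h2)
    have h7 : vp.2 = 0 := abs_nonpos_iff.1 h5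
    have h8 : vp.1 = 0 := by
      rw [h7, abs_zero] at hcon
      exact abs_nonpos_iff.1 hcon
    exact hvp (Prod.ext h8 h7)
  have hv1 : vp.1 ≠ 0 := by
    intro h
    rw [h, abs_zero] at h1
    exact absurd h1 (not_lt.2 (abs_nonneg _))
  refine ⟨hv1, ?_⟩
  -- the vectors
  obtain ⟨A, hA⟩ : ∃ A : ℕ → X →L[ℝ] X, ∀ N, A N = fderiv ℝ P^[N] (x N) := ⟨_, fun N => rfl⟩
  have hw : ∀ N, (A N (0, 1)).2 ≠ 0 := by
    intro N h
    have h3 := (hcone (fun k => fderiv ℝ P^[k] (x N) (0, 1)) N (hcx N (0, 1))).1 (by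
        simp only [fderiv_zero_iter]; simp) N le_rfl
    simp only [fderiv_zero_iter] at h3
    have h4 := h3.2
    rw [← hA, h, abs_zero, abs_one, mul_one] at h4
    exact absurd h4 (not_le.2 (pow_pos hσ0 N))
  obtain ⟨e, he⟩ : ∃ e : ℕ → X, ∀ N, e N = (vp.1, -vp.1 * (A N (1, 0)).2 / (A N (0, 1)).2) :=
    ⟨_, fun N => rfl⟩
  have he2 : ∀ N, (A N (e N)).2 = 0 := by
    intro N
    have h3 : e N = vp.1 • ((1, 0) : X) + (-vp.1 * (A N (1, 0)).2 / (A N (0, 1)).2) • ((0, 1) : X) := by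
      rw [he]
      ext <;> simp
    rw [h3, map_add, map_smul, map_smul]
    simp only [Prod.snd_add, Prod.smul_snd, smul_eq_mul]
    field_simp [hw N]
    ring
  have hek : ∀ N, ∀ k ≤ N, ‖fderiv ℝ P^[k] (x N) (e N)‖ ≤ (lam + del) ^ k * |vp.1| := by
    intro N k hk
    have h3 := (hcone (fun k => fderiv ℝ P^[k] (x N) (e N)) N (hcx N (e N))).2 (by
        show |(fderiv ℝ P^[N] (x N) (e N)).2| ≤ _
        rw [← hA, he2, abs_zero]
        exact abs_nonneg _) k hk
    simp only [fderiv_zero_iter] at h3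
    have h4 : (e N).1 = vp.1 := by rw [he]
    rw [h4] at h3
    rw [Prod.norm_def]
    exact max_le h3.2 (h3.1.trans h3.2)
  have hpow : Tendsto (fun N : ℕ => (lam + del) ^ N * |vp.1|) atTop (𝓝 0) := by
    simpa using (tendsto_pow_atTop_nhds_zero_of_lt_one hκ0 hκ1).mul_const |vp.1|
  refine ⟨e, ?_, ?_⟩
  · -- convergence of the directions
    obtain ⟨B, hBd⟩ : ∃ B : ℝ, ∀ k : ℕ, ‖fderiv ℝ P^[k] (a 0) vp‖ ≤ B := by
      obtain ⟨B, hBd⟩ := (Metric.isBounded_range_of_tendsto _ hv).exists_norm_le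
      exact ⟨B, fun k => hBd _ ⟨k, rfl⟩⟩
    have hB0 : 0 ≤ B := (norm_nonneg _).trans (hBd 0)
    have hnorm : ∀ N, ‖e N - vp‖ = |(e N - vp).2| := by
      intro N
      rw [Prod.norm_def]
      have h4 : (e N - vp).1 = 0 := by rw [he]; simp
      rw [h4, norm_zero, Real.norm_eq_abs]
      exact max_eq_right (abs_nonneg _)
    have hy : ∀ N, ∀ j ≤ N, (mu - del) ^ j * ‖e N - vp‖ ≤ |vp.1| + B +
        ‖fderiv ℝ P^[j] (x N) vp - fderiv ℝ P^[j] (a 0) vp‖ := by
      intro N j hj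
      have h3 := (hcone (fun k => fderiv ℝ P^[k] (x N) (e N - vp)) N (hcx N _)).1 (by
        simp only [fderiv_zero_iter]
        have h4 : (e N - vp).1 = 0 := by rw [he]; simp
        rw [h4, abs_zero]
        exact abs_nonneg _) j hj
      simp only [fderiv_zero_iter] at h3
      rw [hnorm]
      refine h3.2.trans ((snd_le _).trans ?_)
      rw [map_sub]
      have h5 := hek N j hj
      have h6 : (lam + del) ^ j * |vp.1| ≤ |vp.1| :=
        mul_le_of_le_one_left (abs_nonneg _) (pow_le_one₀ hκ0 hκ1.le)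
      have h7 := hBd j
      have h8 : fderiv ℝ P^[j] (x N) (e N) - fderiv ℝ P^[j] (x N) vp =
          fderiv ℝ P^[j] (x N) (e N) - (fderiv ℝ P^[j] (x N) vp - fderiv ℝ P^[j] (a 0) vp) -
            fderiv ℝ P^[j] (a 0) vp := by abel
      rw [h8]
      have h9 := norm_sub_le (fderiv ℝ P^[j] (x N) (e N) -
        (fderiv ℝ P^[j] (x N) vp - fderiv ℝ P^[j] (a 0) vp)) (fderiv ℝ P^[j] (a 0) vp)
      have h10 := norm_sub_le (fderiv ℝ P^[j] (x N) (e N))
        (fderiv ℝ P^[j] (x N) vp - fderiv ℝ P^[j] (a 0) vp)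
      linarith
    rw [tendsto_iff_norm_sub_tendsto_zero]
    rw [Metric.tendsto_atTop]
    intro ε hε
    have hpw : Tendsto (fun j : ℕ => (mu - del) ^ j) atTop atTop :=
      tendsto_pow_atTop_atTop_of_one_lt hσ
    obtain ⟨j, hj⟩ := (hpw.eventually_gt_atTop ((|vp.1| + B + 1) / ε)).exists
    have hcont : ContinuousAt (fun y => fderiv ℝ P^[j] y vp) (a 0) := by
      have h3 := (hITD P lam mu del rho hB j (a 0) (hsa j) j le_rfl).1
      have h4 : ContinuousAt (fderiv ℝ P^[j]) (a 0) :=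
        (h3.fderiv_right (m := 0) (by simp)).continuousAt
      exact h4.clm_apply continuousAt_const
    have hlim : Tendsto (fun N => ‖fderiv ℝ P^[j] (x N) vp - fderiv ℝ P^[j] (a 0) vp‖) atTop
        (𝓝 0) := by
      rw [← tendsto_iff_norm_sub_tendsto_zero]
      exact hcont.tendsto.comp hxa
    have hev := (hlim.eventually (gt_mem_nhds (zero_lt_one' ℝ))).and (eventually_ge_atTop j)
    obtain ⟨N₀, hN₀⟩ := eventually_atTop.1 hev
    refine ⟨N₀, fun N hN => ?_⟩
    obtain ⟨h3, h4⟩ := hN₀ N hN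
    have h5 := hy N j h4
    rw [Real.dist_eq, sub_zero, abs_of_nonneg (norm_nonneg _)]
    have h6 : 0 < (mu - del) ^ j := pow_pos hσ0 j
    rw [div_lt_iff₀ hε] at hj
    by_contra hcon
    push Not at hcon
    have h7 : (mu - del) ^ j * ε ≤ (mu - del) ^ j * ‖e N - vp‖ :=
      mul_le_mul_of_nonneg_left hcon h6.le
    linarith
  · rw [tendsto_zero_iff_norm_tendsto_zero]
    exact squeeze_zero (fun N => norm_nonneg _) (fun N => hek N N le_rfl) hpow

end Pool.Agent.Tng
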