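import Pool.Agent.Tng.Targets

/-!
# Homoclinic tangencies, job TNG-DIRU: the expanded direction
-/

set_option autoImplicit false

open Set MeasureTheory Filter Topology Metric
open scoped Manifold ContDiff

namespace Pool.Agent.Tng

open Pool.Agent.Pal

namespace DIRU_

variable {P : X → X} {lam mu del rho : ℝ}

theorem chain (h1 : T_ITD) (h2 : T_CONE) (hB : Box P lam mu del rho) {N : ℕ} {x : X}
    (hx : Stay P rho N x) (v : X) : ∀ k < N,
    Cs (lam + del) (mu - del) (fderiv ℝ P^[k] x v) (fderiv ℝ P^[k + 1] x v) := by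
  intro k hk
  refine h2.1 lam mu del _ _ hB.lam_pos hB.del_pos ?_ ?_
  · have := hB.mu_gt
    have := hB.del_pos
    linarith
  · exact (h1 P lam mu del rho hB N x hx k hk.le).2.2.2 hk v

theorem cone (h1 : T_ITD) (h2 : T_CONE) (hB : Box P lam mu del rho) {N : ℕ} {x : X}
    (hx : Stay P rho N x) (v : X) :
    (|v.1| ≤ |v.2| → ∀ k ≤ N, |(fderiv ℝ P^[k] x v).1| ≤ |(fderiv ℝ P^[k] x v).2| ∧
      (mu - del) ^ k * |v.2| ≤ |(fderiv ℝ P^[k] x v).2|) ∧
    (|(fderiv ℝ P^[N] x v).2| ≤ |(fderiv ℝ P^[N] x v).1| →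
      |(fderiv ℝ P^[N] x v).1| ≤ (lam + del) ^ N * |v.1|) := by
  have h3 := h2.2 (lam + del) (mu - del) (by have := hB.lam_pos; have := hB.del_pos; linarith)
    hB.lam_lt (by have := hB.mu_gt; linarith) (fun k => fderiv ℝ P^[k] x v) N
    (chain h1 h2 hB hx v)
  have h4 : fderiv ℝ P^[0] x v = v := by
    rw [Function.iterate_zero, fderiv_id]
    rfl
  simp only [h4] at h3
  exact ⟨h3.1, fun h5 => (h3.2 h5 N le_rfl).2⟩

theorem iter_b {b : ℕ → X} (hb : ∀ k, P (b (k + 1)) = b k) (j k : ℕ) : P^[k] (b (j + k)) = b j := by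
  induction k with
  | zero => rfl
  | succ k ih =>
    rw [Function.iterate_succ_apply, ← add_assoc, hb, ih]

theorem stay_b {b : ℕ → X} (hb0 : ∀ k, b k ∈ closedBall (0 : X) rho)
    (hb : ∀ k, P (b (k + 1)) = b k) (j : ℕ) : Stay P rho j (b j) := by
  intro k hk
  have h1 : j = (j - k) + k := by omega
  rw [h1, iter_b hb]
  exact hb0 _

theorem der_b (h1 : T_ITD) (hB : Box P lam mu del rho) {b vb : ℕ → X}
    (hb0 : ∀ k, b k ∈ closedBall (0 : X) rho) (hb : ∀ k, P (b (k + 1)) = b k)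
    (hvb : ∀ k, fderiv ℝ P (b (k + 1)) (vb (k + 1)) = vb k) (j : ℕ) :
    ∀ k ≤ j, fderiv ℝ P^[k] (b j) (vb j) = vb (j - k) := by
  intro k
  induction k with
  | zero =>
    intro _
    rw [Function.iterate_zero, fderiv_id]
    rfl
  | succ k ih =>
    intro hk
    have h2 := (h1 P lam mu del rho hB j (b j) (stay_b hb0 hb j) k (by omega)).2.2.1 1 hk
    rw [h2, ContinuousLinearMap.comp_apply, ih (by omega), Function.iterate_one]
    have h3 : j = (j - k) + k := by omega
    have h4 : P^[k] (b j) = b (j - k) := by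
      conv_lhs => rw [h3]
      exact iter_b hb _ _
    have h5 : j - k = (j - (k + 1)) + 1 := by omega
    rw [h4, h5, hvb]

end DIRU_

open DIRU_ in
/-- DIRU -/
theorem tDIRU (h1 : T_ITD) (h2 : T_CONE) : T_DIRU := by
  intro P lam mu del rho hB b x vb hb0 hb hx hlim hvb0 hvbt hvb
  have hκ0 : 0 ≤ lam + del := by have := hB.lam_pos; have := hB.del_pos; linarith
  have hκ1 : lam + del < 1 := hB.lam_lt
  have hσ : 1 < mu - del := by have := hB.mu_gt; linarith
  have hn1 : ∀ z : X, |z.1| ≤ ‖z‖ := fun z => norm_fst_le z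
  have hn2 : ∀ z : X, |z.2| ≤ ‖z‖ := fun z => norm_snd_le z
  -- the vector `vb 0` is not in the cone
  have hcl : |(vb 0).1| < |(vb 0).2| := by
    by_contra hcon
    push Not at hcon
    have h3 : ∀ j, |(vb 0).1| ≤ ‖vb j‖ := by
      intro j
      have h4 := (cone h1 h2 hB (stay_b hb0 hb j) (vb j)).2
      rw [der_b h1 hB hb0 hb hvb j j le_rfl, Nat.sub_self] at h4
      refine (h4 hcon).trans ?_
      calc (lam + del) ^ j * |(vb j).1| ≤ 1 * |(vb j).1| :=
            mul_le_mul_of_nonneg_right (pow_le_one₀ hκ0 hκ1.le) (abs_nonneg _)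
        _ ≤ ‖vb j‖ := by rw [one_mul]; exact hn1 _
    have h4 : |(vb 0).1| ≤ 0 := by
      refine ge_of_tendsto (f := fun j => ‖vb j‖) (x := atTop) ?_ (Eventually.of_forall h3)
      have := hvbt.norm
      rwa [norm_zero] at this
    have h5 : (vb 0).1 = 0 := abs_nonpos_iff.1 h4
    have h6 : (vb 0).2 = 0 := abs_nonpos_iff.1 (hcon.trans h4)
    exact hvb0 (Prod.ext h5 h6)
  obtain ⟨τ, hτ⟩ : ∃ τ, τ = (vb 0).2 := ⟨_, rfl⟩
  have hτ0 : τ ≠ 0 := by
    rintro rfl
    rw [← hτ, abs_zero] at hcl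
    exact absurd hcl (not_lt.2 (abs_nonneg _))
  have hτp : 0 < |τ| := abs_pos.2 hτ0
  -- the images of `(0, 1)`
  have hw : ∀ N, ∀ k ≤ N, |(fderiv ℝ P^[k] (x N) (0, 1)).1| ≤ |(fderiv ℝ P^[k] (x N) (0, 1)).2| ∧
      1 ≤ |(fderiv ℝ P^[k] (x N) (0, 1)).2| := by
    intro N k hk
    have h3 := (cone h1 h2 hB (hx N) ((0, 1) : X)).1 (by simp) k hk
    refine ⟨h3.1, le_trans ?_ h3.2⟩
    simp only [abs_one, mul_one]
    exact one_le_pow₀ hσ.le
  have hwne : ∀ N, (fderiv ℝ P^[N] (x N) (0, 1)).2 ≠ 0 := by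
    intro N h3
    have h4 := (hw N N le_rfl).2
    rw [h3, abs_zero] at h4
    linarith
  obtain ⟨c, hc⟩ : ∃ c : ℕ → ℝ, c = fun N => (fderiv ℝ P^[N] (x N) (0, 1)).2 / τ := ⟨_, rfl⟩
  have hc0 : ∀ N, c N ≠ 0 := by
    intro N
    rw [hc]
    exact div_ne_zero (hwne N) hτ0
  obtain ⟨g, hg⟩ : ∃ g : ℕ → X, g = fun N => (c N)⁻¹ • fderiv ℝ P^[N] (x N) (0, 1) := ⟨_, rfl⟩
  have hg2 : ∀ N, (g N).2 = τ := by
    intro N
    rw [hg, hc]
    simp only [Prod.smul_snd, smul_eq_mul]
    rw [inv_div, div_mul_cancel₀ _ (hwne N)]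
  -- the main estimate
  have hmain : ∀ j N, j ≤ N → |(g N).1 - (vb 0).1| ≤
      2 * ‖(fderiv ℝ P^[j] (b j) - fderiv ℝ P^[j] (P^[N - j] (x N))) (vb j)‖ +
        (lam + del) ^ j * (|τ| + ‖vb j‖) := by
    intro j N hj
    obtain ⟨x', hx'⟩ : ∃ x', x' = P^[N - j] (x N) := ⟨_, rfl⟩
    rw [← hx']
    have hst : Stay P rho j x' := by
      intro k hk
      rw [hx', ← Function.iterate_add_apply]
      exact hx N _ (by omega)
    obtain ⟨u, hu⟩ : ∃ u : X, u = (c N)⁻¹ • fderiv ℝ P^[N - j] (x N) (0, 1) := ⟨_, rfl⟩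
    have hgu : fderiv ℝ P^[j] x' u = g N := by
      have h3 := (h1 P lam mu del rho hB N (x N) (hx N) (N - j) (by omega)).2.2.1 j (by omega)
      have h4 : N - j + j = N := by omega
      rw [h4] at h3
      rw [hu, hg]
      simp only
      rw [map_smul, h3, ContinuousLinearMap.comp_apply, hx']
    have hu12 : |u.1| ≤ |u.2| := by
      rw [hu]
      simp only [Prod.smul_fst, Prod.smul_snd, smul_eq_mul, abs_mul]
      exact mul_le_mul_of_nonneg_left (hw N (N - j) (by omega)).1 (abs_nonneg _)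
    have hu2 : |u.2| ≤ |τ| := by
      have h3 := ((cone h1 h2 hB hst u).1 hu12 j le_rfl).2
      rw [hgu, hg2] at h3
      have h4 : 1 * |u.2| ≤ (mu - del) ^ j * |u.2| :=
        mul_le_mul_of_nonneg_right (one_le_pow₀ hσ.le) (abs_nonneg _)
      linarith
    have hdiff : fderiv ℝ P^[j] x' (u - vb j) = g N - vb 0 +
        (fderiv ℝ P^[j] (b j) - fderiv ℝ P^[j] x') (vb j) := by
      have h3 := der_b h1 hB hb0 hb hvb j j le_rfl
      rw [Nat.sub_self] at h3
      rw [map_sub, hgu, sub_apply, h3]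
      abel
    obtain ⟨er, her⟩ : ∃ er : X, er = (fderiv ℝ P^[j] (b j) - fderiv ℝ P^[j] x') (vb j) :=
      ⟨_, rfl⟩
    rw [← her] at hdiff ⊢
    have hd1 : (fderiv ℝ P^[j] x' (u - vb j)).1 = ((g N).1 - (vb 0).1) + er.1 := by
      rw [hdiff]; rfl
    have hd2 : (fderiv ℝ P^[j] x' (u - vb j)).2 = er.2 := by
      rw [hdiff]
      show (g N).2 - (vb 0).2 + er.2 = er.2
      rw [hg2, hτ, sub_self, zero_add]
    have hpos : 0 ≤ (lam + del) ^ j * (|τ| + ‖vb j‖) := by positivity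
    by_cases hD : |(g N).1 - (vb 0).1| ≤ 2 * ‖er‖
    · linarith
    · push Not at hD
      have h3 : |(g N).1 - (vb 0).1| - ‖er‖ ≤ |((g N).1 - (vb 0).1) + er.1| := by
        have h4 := abs_sub_abs_le_abs_sub ((g N).1 - (vb 0).1) (-er.1)
        rw [sub_neg_eq_add, abs_neg] at h4
        have := hn1 er
        linarith
      have h4 := (cone h1 h2 hB hst (u - vb j)).2
      rw [hd1, hd2] at h4
      have h5 := h4 (by
        have := hn2 er
        linarith)
      have h6 : |(u - vb j).1| ≤ |τ| + ‖vb j‖ := by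
        have h7 : |u.1 - (vb j).1| ≤ |u.1| + |(vb j).1| := abs_sub _ _
        have h8 := hn1 (vb j)
        have h9 : (u - vb j).1 = u.1 - (vb j).1 := rfl
        rw [h9]
        linarith
      have h7 : (lam + del) ^ j * |(u - vb j).1| ≤ (lam + del) ^ j * (|τ| + ‖vb j‖) :=
        mul_le_mul_of_nonneg_left h6 (pow_nonneg hκ0 j)
      have := norm_nonneg er
      linarith
  refine ⟨g, c, ?_, ?_⟩
  · -- convergence
    have hfst : Tendsto (fun N => (g N).1) atTop (𝓝 (vb 0).1) := by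
      rw [Metric.tendsto_atTop]
      intro ε hε
      -- choice of `j`
      have h3 : Tendsto (fun j => (lam + del) ^ j * (|τ| + ‖vb j‖)) atTop (𝓝 0) := by
        have h4 := (tendsto_pow_atTop_nhds_zero_of_lt_one hκ0 hκ1).mul
          ((tendsto_const_nhds (x := |τ|)).add hvbt.norm)
        rwa [zero_mul] at h4
      obtain ⟨j, hj⟩ := (h3.eventually (gt_mem_nhds (half_pos hε))).exists
      -- the error tends to zero
      have h4 : Tendsto (fun N => 2 * ‖(fderiv ℝ P^[j] (b j) -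
          fderiv ℝ P^[j] (P^[N - j] (x N))) (vb j)‖) atTop (𝓝 0) := by
        have h5 : ContinuousAt (fderiv ℝ P^[j]) (b j) :=
          ((h1 P lam mu del rho hB j (b j) (stay_b hb0 hb j) j le_rfl).1.fderiv_right
            (m := 0) (by norm_num)).continuousAt
        have h6 : Tendsto (fun N => fderiv ℝ P^[j] (P^[N - j] (x N))) atTop
            (𝓝 (fderiv ℝ P^[j] (b j))) := h5.tendsto.comp (hlim j)
        have h7 : Tendsto (fun N => (fderiv ℝ P^[j] (b j) -
            fderiv ℝ P^[j] (P^[N - j] (x N))) (vb j)) atTop (𝓝 0) := by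
          have h8 := (tendsto_const_nhds (x := fderiv ℝ P^[j] (b j))).sub h6
          rw [sub_self] at h8
          have h9 := (ContinuousLinearMap.apply ℝ X (vb j)).continuous.tendsto
            (0 : X →L[ℝ] X)
          have h10 := h9.comp h8
          rw [map_zero] at h10
          exact h10
        have h8 := h7.norm.const_mul 2
        rwa [norm_zero, mul_zero] at h8
      obtain ⟨N0, hN0⟩ := (h4.eventually (gt_mem_nhds (half_pos hε))).exists_forall_of_atTop
      refine ⟨max N0 j, fun N hN => ?_⟩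
      rw [Real.dist_eq]
      have h5 := hmain j N ((le_max_right _ _).trans hN)
      have h6 := hN0 N ((le_max_left _ _).trans hN)
      linarith
    have hsnd : Tendsto (fun N => (g N).2) atTop (𝓝 (vb 0).2) := by
      simp only [hg2, ← hτ]
      exact tendsto_const_nhds
    exact hfst.prodMk_nhds hsnd
  · intro N
    rw [hg]
    simp only
    rw [smul_smul, mul_inv_cancel₀ (hc0 N), one_smul]

end Pool.Agent.Tng
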