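import Pool.Agent.Tng.Targets
import Pool.Agent.Pal.MAIN2

/-!
# From a homoclinic tangency to an elliptic periodic point (ELL)
-/

set_option autoImplicit false

open Set MeasureTheory Filter Topology Metric
open scoped Manifold ContDiff

namespace Pool.Agent.Tng

open Pool.Agent.Pal

theorem tELL (hVOL : Pal.T_VOL) (hDIFF : Pal.T_DIFF) (hCHG : T_CHG) (hDET : T_DET)
    (hDIAG : T_DIAG) (hSEC : T_SEC) (hCLO : T_CLO) : T_ELL := by
  intro M _ _ _ _ _ _ μ s r f g U m p q e e' v hs1 hμ hf hg hgf hfg hfμ hU hfU hT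
  obtain ⟨_, _, hchart⟩ := hVOL 2 M μ hμ
  obtain ⟨e₁, he₁, hp₁, h1⟩ := hchart p
  obtain ⟨e₀, he₀, hq₀, h0⟩ := hchart q
  obtain ⟨v₀, hT₀⟩ := hCHG M s f g m p q e e' v hs1 hf hg hgf hfg hT e₁ he₁.1 e₀ he₀.1 hp₁ hq₀
  obtain ⟨_, _, hhomeo, hiter⟩ := hDIFF 2 M s
  obtain ⟨F, hF⟩ := hhomeo f hf
  have hfc : Continuous f := by rw [← hF]; exact F.continuous
  have hs1' : ((1 : ℕ∞) : WithTop ℕ∞) ≤ (s : WithTop ℕ∞) := by exact_mod_cast hs1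
  have hsne : (s : WithTop ℕ∞) ≠ 0 := by
    intro h
    rw [h] at hs1'
    exact absurd hs1' (by decide)
  have hm := hT₀.m_pos
  have hfp := hT₀.hfp
  -- the derivative at the saddle
  have hd : DifferentiableAt ℝ (MAIN_.rd e₁ f^[m]) (e₁ p) :=
    (hiter f m e₁ e₁ p hf he₁.1 he₁.1 hp₁ (by rw [hfp]; exact hp₁)).differentiableAt hsne
  have hpow := MAIN_.rd_pow hp₁ (hfc.iterate m) hfp hd 2
  set A : E 2 →L[ℝ] E 2 := fderiv ℝ (MAIN_.rd e₁ f^[m]) (e₁ p) with hA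
  have hA2 : fderiv ℝ (e₁ ∘ f^[2 * m] ∘ e₁.symm) 0 = A ^ 2 := by
    rw [← h1, ← hpow.fderiv]
    have : f^[2 * m] = (f^[m])^[2] := by rw [mul_comm, Function.iterate_mul]
    rw [this]
    rfl
  have hdetA : |A.det| = 1 :=
    hDET M μ s f g hs1 hf hg hgf hfg hfμ e₁ e₁ m p he₁ he₁ hp₁ (by rw [hfp]; exact hp₁)
  have hdet2 : (A ^ 2).det = 1 := by
    have h2 : (A ^ 2).det = A.det ^ 2 := by
      rw [pow_two]
      exact (LinearMap.det_comp (A : E 2 →ₗ[ℝ] E 2) (A : E 2 →ₗ[ℝ] E 2)).trans (pow_two _).symm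
    rw [h2, ← sq_abs, hdetA, one_pow]
  obtain ⟨w, c, hw, hc, hwc⟩ := hT₀.saddle
  have hwc' : A w = c • w := hwc
  have hc0 : c ≠ 0 := by
    intro hc0
    rw [hc0, zero_smul] at hwc'
    have h3 : A.det ≠ 0 := by
      intro h4
      rw [h4, abs_zero] at hdetA
      exact zero_ne_one hdetA
    have h5 : IsUnit (A : E 2 →ₗ[ℝ] E 2) :=
      (LinearMap.isUnit_iff_isUnit_det (A : E 2 →ₗ[ℝ] E 2)).2 (isUnit_iff_ne_zero.2 h3)
    have h6 := ((Module.End.isUnit_iff _).1 h5).1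
    exact hw (h6 (by rw [map_zero]; exact hwc'))
  have hw2 : (A ^ 2) w = (c ^ 2) • w := by
    rw [pow_two, pow_two, mul_smul]
    change A (A w) = _
    rw [hwc', map_smul, hwc']
  have hc2 : c ^ 2 ≠ 1 := by
    intro h6
    rw [← sq_abs] at h6
    exact hc ((pow_eq_one_iff_of_nonneg (abs_nonneg c) two_ne_zero).1 h6)
  obtain ⟨S, lam, hl0, hl1, hS⟩ := hDIAG (A ^ 2) hdet2 ⟨w, c ^ 2, hw, by positivity, hc2, hw2⟩
  obtain ⟨z, T, C, hR⟩ := hSEC M μ s f g m p q e₁ e₀ v₀ S lam hs1 hf hg hgf hfg hT₀ he₁ he₀ h1 h0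
    hl0 hl1 (by rw [hA2]; exact hS)
  have hdet : ∀ᶠ N in atTop, (fderiv ℝ (e₀ ∘ f^[T N] ∘ e₀.symm) (e₀ (z N))).det = 1 := by
    filter_upwards [hR.det, hR.hz.eventually (e₀.open_source.mem_nhds hq₀),
      hR.hz'.eventually (e₀.open_source.mem_nhds hq₀)] with N h7 h8 h9
    have h10 := hDET M μ s f g hs1 hf hg hgf hfg hfμ e₀ e₀ (T N) (z N) he₀ he₀ h8 h9
    rwa [abs_of_pos h7] at h10
  obtain ⟨f₁, N, h11, h12, h13, h14, h15, h16⟩ :=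
    hCLO M μ s r f U q e₀ z T C v₀ hs1 hf hfμ hU hfU hR hdet
  exact ⟨f₁, T N, z N, e₀, h11, h12, h13, hR.pos N, h14, he₀.1, h15, h16⟩

end Pool.Agent.Tng
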