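import Pool.Agent.Tng.Targets

set_option autoImplicit false

open Set MeasureTheory Filter Topology Metric
open scoped Manifold ContDiff

namespace Pool.Agent.Tng

open Pool.Agent.Pal

namespace ITD_

variable {P : X → X} {lam mu del rho : ℝ}

theorem det_comp' (A B : X →L[ℝ] X) : (A ∘L B).det = A.det * B.det := by
  exact LinearMap.det_comp (A : X →ₗ[ℝ] X) (B : X →ₗ[ℝ] X)

theorem smooth (hB : Box P lam mu del rho) {N : ℕ} {x : X} (hS : Stay P rho N x) :
    ∀ k, k ≤ N + 1 → ContDiffAt ℝ 1 P^[k] x := by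
  intro k
  induction k with
  | zero => exact fun _ => contDiffAt_id
  | succ k ih =>
    intro hk
    rw [Function.iterate_succ']
    exact ContDiffAt.comp x (hB.smooth _ (hS k (by omega))) (ih (by omega))

theorem stay_shift {N : ℕ} {x : X} (hS : Stay P rho N x) (k : ℕ) (hk : k ≤ N) :
    Stay P rho (N - k) (P^[k] x) := by
  intro i hi
  rw [← Function.iterate_add_apply]
  exact hS _ (by omega)

theorem chain (hB : Box P lam mu del rho) {N : ℕ} {x : X} (hS : Stay P rho N x) (k j : ℕ)
    (hk : k ≤ N) (hkj : k + j ≤ N + 1) :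
    fderiv ℝ P^[k + j] x = fderiv ℝ P^[j] (P^[k] x) ∘L fderiv ℝ P^[k] x := by
  rw [add_comm k j, Function.iterate_add]
  have h1 : DifferentiableAt ℝ P^[k] x := (smooth hB hS k (by omega)).differentiableAt (by norm_num)
  have h2 : DifferentiableAt ℝ P^[j] (P^[k] x) :=
    (smooth hB (stay_shift hS k hk) j (by omega)).differentiableAt (by norm_num)
  exact fderiv_comp x h2 h1

theorem det_pos (hB : Box P lam mu del rho) {N : ℕ} {x : X} (hS : Stay P rho N x) :
    ∀ k, k ≤ N → 0 < (fderiv ℝ P^[k] x).det := by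
  intro k
  induction k with
  | zero =>
    intro _
    have : fderiv ℝ P^[0] x = ContinuousLinearMap.id ℝ X := fderiv_id
    rw [this]
    have h2 : (ContinuousLinearMap.id ℝ X).det = 1 := LinearMap.det_id
    rw [h2]
    exact one_pos
  | succ k ih =>
    intro hk
    rw [chain hB hS k 1 (by omega) (by omega), det_comp']
    exact mul_pos (hB.det _ (hS k (by omega))) (ih (by omega))

end ITD_

theorem tITD : T_ITD := by
  intro P lam mu del rho hB N x hS k hk
  refine ⟨ITD_.smooth hB hS k (by omega), ITD_.det_pos hB hS k hk,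
    fun j hj => ITD_.chain hB hS k j hk (by omega), fun hkN v => ?_⟩
  rw [ITD_.chain hB hS k 1 hk (by omega)]
  have h1 := hB.near (P^[k] x) (hS k hk)
  have h2 := (fderiv ℝ P (P^[k] x) - dg lam mu).le_opNorm (fderiv ℝ P^[k] x v)
  rw [sub_apply] at h2
  have h3 : ‖fderiv ℝ P (P^[k] x) - dg lam mu‖ * ‖fderiv ℝ P^[k] x v‖ ≤
      del * ‖fderiv ℝ P^[k] x v‖ := mul_le_mul_of_nonneg_right h1 (norm_nonneg _)
  exact h2.trans h3

end Pool.Agent.Tng
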