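import Pool.Agent.Tng.Targets
import Pool.Agent.Pal.TWI

/-!
# A small area preserving map with prescribed value and derivative
-/

set_option autoImplicit false

open Set MeasureTheory Filter Topology Metric
open scoped Manifold ContDiff

namespace Pool.Agent.Tng.JET_

open Pool.Agent.Pal Pool.Agent.Pal.TWI_

/-- A smooth family that vanishes at `0` and off a compact set is small. -/
theorem near_family {F : Type} [NormedAddCommGroup F] [NormedSpace ℝ F] {n : ℕ}
    (G : F × E n → E n) (hG : ContDiff ℝ ∞ G) (h0 : ∀ y, G (0, y) = 0)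
    (C : Set (E n)) (hC : IsCompact C)
    (hoff : ∀ᶠ t in 𝓝 (0 : F), ∀ y, y ∉ C → G (t, y) = 0) (j : ℕ) (δ : ℝ) (hδ : 0 < δ) :
    ∀ᶠ t : F in 𝓝 0, ∀ y, ‖iteratedFDeriv ℝ j (fun z => G (t, z)) y‖ ≤ δ := by
  have key : ∀ (t : F) (y : E n), iteratedFDeriv ℝ j (fun z => G (t, z)) y =
      (iteratedFDeriv ℝ j G (t, y)).compContinuousLinearMap
        (fun _ => ContinuousLinearMap.inr ℝ F (E n)) := by
    intro t y
    have h1 : (fun z => G (t, z)) =
        (fun p => G ((t, (0 : E n)) + p)) ∘ (ContinuousLinearMap.inr ℝ F (E n)) := by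
      funext z
      simp
    rw [h1, ContinuousLinearMap.iteratedFDeriv_comp_right (n := ∞)]
    · congr 1
      rw [iteratedFDeriv_comp_add_left]
      congr 1
      simp
    · exact hG.comp (contDiff_const.add contDiff_id)
    · exact_mod_cast le_top
  have hcont : Continuous (fun q : F × E n => (iteratedFDeriv ℝ j G q).compContinuousLinearMap
        (fun _ => ContinuousLinearMap.inr ℝ F (E n))) := by
    have h2 : Continuous (iteratedFDeriv ℝ j G) :=
      hG.continuous_iteratedFDeriv (by exact_mod_cast le_top)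
    exact (ContinuousMultilinearMap.compContinuousLinearMapL (F := E n) (𝕜 := ℝ)
      (fun _ : Fin j => ContinuousLinearMap.inr ℝ F (E n))).continuous.comp h2
  have hopen : IsOpen {q : F × E n | ‖(iteratedFDeriv ℝ j G q).compContinuousLinearMap
        (fun _ => ContinuousLinearMap.inr ℝ F (E n))‖ < δ} :=
    isOpen_lt hcont.norm continuous_const
  have hsub : ({0} : Set F) ×ˢ C ⊆ {q : F × E n |
      ‖(iteratedFDeriv ℝ j G q).compContinuousLinearMap
        (fun _ => ContinuousLinearMap.inr ℝ F (E n))‖ < δ} := by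
    rintro ⟨t, y⟩ ⟨ht, hy⟩
    simp only [mem_singleton_iff] at ht
    subst ht
    simp only [mem_ofPred_eq]
    rw [← key 0 y]
    have h3 : (fun z => G (0, z)) = fun _ => (0 : E n) := by
      funext z
      exact h0 z
    rw [h3]
    have h4 : iteratedFDeriv ℝ j (fun _ : E n => (0 : E n)) y = 0 := by
      have := iteratedFDeriv_fun_zero (𝕜 := ℝ) (E := E n) (F := E n) (n := j)
      exact congrFun this y
    rw [h4]
    simpa using hδ
  obtain ⟨u, v, hu, hv, h0u, hCv, huv⟩ := generalized_tube_lemma isCompact_singleton hC hopen hsub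
  have hu0 : u ∈ 𝓝 (0 : F) := hu.mem_nhds (h0u rfl)
  filter_upwards [hu0, hoff] with t ht hofft y
  by_cases hy : y ∈ C
  · have := huv (show ((t, y) : F × E n) ∈ u ×ˢ v from ⟨ht, hCv hy⟩)
    simp only [mem_ofPred_eq] at this
    rw [key t y]
    exact this.le
  · have h5 : (fun z => G (t, z)) =ᶠ[𝓝 y] fun _ => (0 : E n) := by
      have : Cᶜ ∈ 𝓝 y := hC.isClosed.isOpen_compl.mem_nhds hy
      filter_upwards [this] with z hz
      exact hofft z hz
    rw [(EventuallyEq.iteratedFDeriv ℝ h5 j).eq_of_nhds]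
    have h4 : iteratedFDeriv ℝ j (fun _ : E n => (0 : E n)) y = 0 := by
      have := iteratedFDeriv_fun_zero (𝕜 := ℝ) (E := E n) (F := E n) (n := j)
      exact congrFun this y
    rw [h4]
    simpa using hδ.le

/-- rotation in terms of `J` -/
theorem rot_eq (t : ℝ) (y : E 2) : rot t y = Real.cos t • y + Real.sin t • J y := by
  ext i
  fin_cases i
  · simp [rot0, J0]
    ring
  · simp [rot1, J1]
    ring

theorem rot_comp (s t : ℝ) : rot s ∘L rot t = rot (s + t) := by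
  ext y i
  fin_cases i
  · simp [rot0, rot1, Real.cos_add, Real.sin_add]
    ring
  · simp [rot0, rot1, Real.cos_add, Real.sin_add]
    ring

theorem tw_norm (ρ t : ℝ) (y : E 2) : ‖tw ρ t y‖ = ‖y‖ := by
  have h : ‖tw ρ t y‖ ^ 2 = ‖y‖ ^ 2 := by
    rw [EuclideanSpace.real_norm_sq_eq, EuclideanSpace.real_norm_sq_eq]
    simp only [Fin.sum_univ_two, tw, PiLp.add_apply, PiLp.smul_apply, smul_eq_mul, J0, J1]
    linear_combination (y 0 ^ 2 + y 1 ^ 2) * Real.sin_sq_add_cos_sq (t * chi ρ y)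
  exact (pow_left_inj₀ (norm_nonneg _) (norm_nonneg _) (by norm_num)).1 h

theorem chi_tw (ρ t : ℝ) (y : E 2) : chi ρ (tw ρ t y) = chi ρ y := by
  unfold chi
  rw [tw_norm]

theorem tw_inv (ρ t : ℝ) (y : E 2) : tw ρ (-t) (tw ρ t y) = y := by
  have h := chi_tw ρ t y
  have h1 : tw ρ (-t) (tw ρ t y) = Real.cos (-t * chi ρ y) • tw ρ t y
      + Real.sin (-t * chi ρ y) • J (tw ρ t y) := by
    rw [← h]
    rfl
  rw [h1, neg_mul, Real.cos_neg, Real.sin_neg]
  have h2 := Real.sin_sq_add_cos_sq (t * chi ρ y)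
  ext i
  fin_cases i
  · simp only [tw, Fin.zero_eta, PiLp.add_apply, PiLp.smul_apply, smul_eq_mul, J0, J1]
    linear_combination (y 0) * h2
  · simp only [tw, Fin.mk_one, PiLp.add_apply, PiLp.smul_apply, smul_eq_mul, J0, J1]
    linear_combination (y 1) * h2

theorem chi_one (ρ : ℝ) (hρ : 0 < ρ) (y : E 2) (hy : ‖y‖ < ρ / 2) : chi ρ y = 1 := by
  unfold chi
  apply Real.smoothTransition.one_of_one_le
  have h1 : ‖y‖ ^ 2 ≤ (ρ / 2) ^ 2 := pow_le_pow_left₀ (norm_nonneg _) hy.le 2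
  have h2 : 0 < ρ ^ 2 := by positivity
  have h3 : 2 * ‖y‖ ^ 2 / ρ ^ 2 ≤ 1 := by
    rw [div_le_one h2]
    nlinarith
  linarith

theorem tw_near (ρ : ℝ) (hρ : 0 < ρ) (t : ℝ) (y : E 2) (hy : ‖y‖ < ρ / 2) :
    tw ρ t =ᶠ[𝓝 y] rot t := by
  have hopen : IsOpen {z : E 2 | ‖z‖ < ρ / 2} := isOpen_lt continuous_norm continuous_const
  filter_upwards [hopen.mem_nhds hy] with z hz
  rw [rot_eq, tw, chi_one ρ hρ z hz, mul_one]

/-- the family of products of two twists -/
noncomputable def Lf (ρ : ℝ) (q : (E 2 × E 2 × ℝ) × E 2) : E 2 :=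
  q.1.2.1 + tw ρ (q.1.2.2 - 1) ((q.1.1 + tw ρ 1 (q.2 - q.1.1)) - q.1.2.1)

theorem Lf_smooth (ρ : ℝ) : ContDiff ℝ ∞ (Lf ρ) := by
  unfold Lf
  have h1 : ContDiff ℝ ∞ (fun q : (E 2 × E 2 × ℝ) × E 2 => tw ρ 1 (q.2 - q.1.1)) :=
    (tw_smooth' ρ 1).comp (by fun_prop)
  have h2 : ContDiff ℝ ∞ (fun q : (E 2 × E 2 × ℝ) × E 2 =>
      (q.1.2.2 - 1, (q.1.1 + tw ρ 1 (q.2 - q.1.1)) - q.1.2.1)) := by
    fun_prop
  have h3 := (tw_smooth ρ).comp h2
  have h4 : ContDiff ℝ ∞ (fun q : (E 2 × E 2 × ℝ) × E 2 => q.1.2.1) := by fun_prop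
  exact h4.add h3

theorem Lf_zero (ρ : ℝ) (z : E 2) : Lf ρ (0, z) = z := by
  simp only [Lf, Prod.fst_zero, Prod.snd_zero, sub_zero, zero_add, zero_sub]
  exact tw_inv ρ 1 z

theorem Lf_off (ρ : ℝ) (hρ : 0 < ρ) (y c : E 2) (t : ℝ) (hy : ‖y‖ < ρ) (hc : ‖c‖ < ρ) (z : E 2)
    (hz : z ∉ closedBall (0 : E 2) (2 * ρ)) : Lf ρ ((y, c, t), z) = z := by
  have hz' : 2 * ρ < ‖z‖ := by simpa using hz
  have h1 : z - y ∉ closedBall (0 : E 2) ρ := by
    rw [mem_closedBall_zero_iff, not_le]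
    have := norm_sub_norm_le z y
    linarith
  have h2 : z - c ∉ closedBall (0 : E 2) ρ := by
    rw [mem_closedBall_zero_iff, not_le]
    have := norm_sub_norm_le z c
    linarith
  simp only [Lf]
  rw [tw_off ρ hρ 1 _ h1, add_sub_cancel, tw_off ρ hρ _ _ h2, add_sub_cancel]

theorem Lf_fderiv (ρ : ℝ) (y c : E 2) (t : ℝ) (z : E 2) :
    HasFDerivAt (fun z => Lf ρ ((y, c, t), z))
      (fderiv ℝ (tw ρ (t - 1)) ((y + tw ρ 1 (z - y)) - c) ∘L fderiv ℝ (tw ρ 1) (z - y)) z := by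
  have hd : ∀ s w, HasFDerivAt (tw ρ s) (fderiv ℝ (tw ρ s) w) w := fun s w =>
    ((tw_smooth' ρ s).differentiable (by simp) w).hasFDerivAt
  have h1 : HasFDerivAt (fun z => tw ρ 1 (z - y)) (fderiv ℝ (tw ρ 1) (z - y)) z := by
    have := (hd 1 (z - y)).comp z ((hasFDerivAt_id (𝕜 := ℝ) z).sub_const y)
    rw [ContinuousLinearMap.comp_id] at this
    exact this
  have h2 : HasFDerivAt (fun z => (y + tw ρ 1 (z - y)) - c) (fderiv ℝ (tw ρ 1) (z - y)) z :=
    (h1.const_add y).sub_const c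
  have h3 := (hd (t - 1) ((y + tw ρ 1 (z - y)) - c)).comp z h2
  exact h3.const_add c

/-- the centre of the second twist -/
noncomputable def cc (q : E 2 × E 2 × ℝ) : E 2 :=
  (2 - 2 * Real.cos (q.2.2 - 1))⁻¹ •
    ((q.2.1 - (Real.cos (q.2.2 - 1) • q.1 + Real.sin (q.2.2 - 1) • J q.1)) -
      (Real.cos (q.2.2 - 1) • (q.2.1 - (Real.cos (q.2.2 - 1) • q.1 + Real.sin (q.2.2 - 1) • J q.1)) -
        Real.sin (q.2.2 - 1) •
          J (q.2.1 - (Real.cos (q.2.2 - 1) • q.1 + Real.sin (q.2.2 - 1) • J q.1))))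

theorem den_ne {t : ℝ} (ht : |t| < 1) : (2 - 2 * Real.cos (t - 1)) ≠ 0 := by
  intro h
  have h1 : Real.cos (t - 1) = 1 := by linarith
  rw [abs_lt] at ht
  have hpi := Real.pi_gt_three
  have h2 := (Real.cos_eq_one_iff_of_lt_of_lt (x := t - 1) (by linarith) (by linarith)).1 h1
  linarith

theorem cc_zero : cc 0 = 0 := by
  simp [cc]

theorem cc_cont : ContinuousAt cc 0 := by
  unfold cc
  have h : (2 - 2 * Real.cos ((0 : E 2 × E 2 × ℝ).2.2 - 1)) ≠ 0 := by
    simpa using den_ne (t := 0) (by simp)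
  have h1 : ContinuousAt (fun q : E 2 × E 2 × ℝ => (2 - 2 * Real.cos (q.2.2 - 1))⁻¹) 0 := by
    refine ContinuousAt.inv₀ ?_ h
    fun_prop
  refine h1.smul ?_
  fun_prop

theorem cc_eq (y w : E 2) (t : ℝ) (ht : |t| < 1) :
    cc (y, w, t) + rot (t - 1) (y - cc (y, w, t)) = w := by
  have hD := den_ne ht
  have h2 := Real.sin_sq_add_cos_sq (t - 1)
  rw [rot_eq]
  ext i
  fin_cases i
  · simp only [cc, Fin.zero_eta, PiLp.add_apply, PiLp.sub_apply, PiLp.smul_apply, smul_eq_mul,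
      J0, J1]
    generalize Real.sin (t - 1) = b at *
    generalize Real.cos (t - 1) = a at *
    have hk := mul_inv_cancel₀ hD
    generalize (2 - 2 * a)⁻¹ = k at *
    linear_combination (w 0 - a * y 0 + b * y 1) * hk + k * (w 0 - a * y 0 + b * y 1) * h2
  · simp only [cc, Fin.mk_one, PiLp.add_apply, PiLp.sub_apply, PiLp.smul_apply, smul_eq_mul,
      J0, J1]
    generalize Real.sin (t - 1) = b at *
    generalize Real.cos (t - 1) = a at *
    have hk := mul_inv_cancel₀ hD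
    generalize (2 - 2 * a)⁻¹ = k at *
    linear_combination (w 1 - a * y 1 - b * y 0) * hk + k * (w 1 - a * y 1 - b * y 0) * h2

end Pool.Agent.Tng.JET_

namespace Pool.Agent.Tng

open Pool.Agent.Pal Pool.Agent.Pal.TWI_ JET_

theorem tJET : T_JET := by
  intro σ hσ r δ hδ
  set ρ := σ / 2 with hρdef
  have hρ : 0 < ρ := by positivity
  have hσρ : σ = 2 * ρ := by rw [hρdef]; ring
  -- the parameters
  have hev1 : ∀ᶠ q : E 2 × E 2 × ℝ in 𝓝 0, ‖q.1‖ < ρ / 4 ∧ ‖q.2.1‖ < ρ / 4 := by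
    have h1 : ContinuousAt (fun q : E 2 × E 2 × ℝ => ‖q.1‖) 0 := by fun_prop
    have h2 : ContinuousAt (fun q : E 2 × E 2 × ℝ => ‖q.2.1‖) 0 := by fun_prop
    refine (h1.eventually_lt continuousAt_const ?_).and (h2.eventually_lt continuousAt_const ?_)
    · simp only [Prod.fst_zero, norm_zero]
      positivity
    · simp only [Prod.fst_zero, Prod.snd_zero, norm_zero]
      positivity
  have hoff : ∀ᶠ q : E 2 × E 2 × ℝ in 𝓝 0, ∀ z, z ∉ closedBall (0 : E 2) σ →
      Lf ρ (q, z) - z = 0 := by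
    filter_upwards [hev1] with q hq z hz
    obtain ⟨y, c, t⟩ := q
    rw [hσρ] at hz
    rw [Lf_off ρ hρ y c t (by linarith [hq.1]) (by linarith [hq.2]) z hz, sub_self]
  have hnear : ∀ᶠ q : E 2 × E 2 × ℝ in 𝓝 0, ∀ j ∈ {j : ℕ | j ≤ r}, ∀ y,
      ‖iteratedFDeriv ℝ j (fun z => Lf ρ (q, z) - z) y‖ ≤ δ := by
    rw [Filter.eventually_all_finite (Set.finite_le_nat r)]
    intro j _
    exact near_family (fun q : (E 2 × E 2 × ℝ) × E 2 => Lf ρ q - q.2)
      ((Lf_smooth ρ).sub contDiff_snd) (fun y => by rw [Lf_zero, sub_self])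
      (closedBall 0 σ) (isCompact_closedBall 0 σ) hoff j δ hδ
  have hall := (hev1.and (hoff.and hnear))
  have hmap : Tendsto (fun q : E 2 × E 2 × ℝ => (q.1, cc q, q.2.2)) (𝓝 0) (𝓝 0) := by
    have h1 : ContinuousAt (fun q : E 2 × E 2 × ℝ => (q.1, cc q, q.2.2)) 0 :=
      ContinuousAt.prodMk (by fun_prop) (ContinuousAt.prodMk cc_cont (by fun_prop))
    have h2 := h1.tendsto
    rw [cc_zero] at h2
    exact h2
  have hall2 := hmap.eventually hall
  rw [Metric.eventually_nhds_iff] at hall2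
  obtain ⟨ε, hε, h⟩ := hall2
  refine ⟨min (ε / 2) (1 / 2), by positivity, ?_⟩
  intro y w t hy hw ht
  have hy' : ‖y‖ < ε := lt_of_le_of_lt (le_trans hy (min_le_left _ _)) (by linarith)
  have hw' : ‖w‖ < ε := lt_of_le_of_lt (le_trans hw (min_le_left _ _)) (by linarith)
  have ht' : |t| < ε := lt_of_le_of_lt (le_trans ht (min_le_left _ _)) (by linarith)
  have ht1 : |t| < 1 := lt_of_le_of_lt (le_trans ht (min_le_right _ _)) (by norm_num)
  have hdist : dist ((y, w, t) : E 2 × E 2 × ℝ) 0 < ε := by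
    rw [dist_zero_right, Prod.norm_def, Prod.norm_def]
    exact max_lt hy' (max_lt hw' (by rw [Real.norm_eq_abs]; exact ht'))
  obtain ⟨⟨hA, hB⟩, hC, hD⟩ := h hdist
  simp only at hA hB hC hD
  set c := cc (y, w, t) with hc
  refine ⟨fun z => Lf ρ ((y, c, t), z), ⟨?_, ?_⟩, ?_, ?_, ?_, ?_⟩
  · exact (Lf_smooth ρ).comp (contDiff_const.prodMk contDiff_id)
  · intro z hz
    exact sub_eq_zero.1 (hC z hz)
  · intro j hj z
    exact hD j hj z
  · intro z
    rw [(Lf_fderiv ρ y c t z).fderiv]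
    have hcomp : ∀ A B : E 2 →L[ℝ] E 2, (A ∘L B).det = A.det * B.det := by
      intro A B
      simp only [ContinuousLinearMap.det]
      exact LinearMap.det_comp _ _
    rw [hcomp, tw_det, tw_det, one_mul]
  · have hyc : ‖y - c‖ < ρ / 2 := by
      have := norm_sub_le y c
      linarith
    simp only [Lf, sub_self, tw_zero, add_zero]
    rw [(tw_near ρ hρ (t - 1) (y - c) hyc).eq_of_nhds]
    exact cc_eq y w t ht1
  · have hyc : ‖y - c‖ < ρ / 2 := by
      have := norm_sub_le y c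
      linarith
    rw [(Lf_fderiv ρ y c t y).fderiv]
    rw [sub_self, tw_zero, add_zero, (tw_near ρ hρ (t - 1) (y - c) hyc).fderiv_eq,
      tw_fderiv_zero, ContinuousLinearMap.fderiv, rot_comp, sub_add_cancel]

end Pool.Agent.Tng
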