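import Pool.Agent.Tng.Targets

/-!
# Mean value inequality
-/

set_option autoImplicit false

open Set MeasureTheory Filter Topology Metric
open scoped Manifold ContDiff

namespace Pool.Agent.Tng

open Pool.Agent.Pal

theorem tLIP : T_LIP := by
  intro P lam mu del rho hB x hx y hy
  have hc : Convex ℝ (closedBall (0 : X) rho) := convex_closedBall _ _
  have h := hc.norm_image_sub_le_of_norm_hasFDerivWithin_le
    (f := fun z => P z - dg lam mu z) (f' := fun z => fderiv ℝ P z - dg lam mu) (C := del)
    (fun z hz => by
      have h1 : HasFDerivAt P (fderiv ℝ P z) z :=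
        ((hB.smooth z hz).differentiableAt (by norm_num)).hasFDerivAt
      exact (h1.sub (dg lam mu).hasFDerivAt).hasFDerivWithinAt)
    (fun z hz => hB.near z hz) hy hx
  have e : P x - P y - dg lam mu (x - y) = P x - dg lam mu x - (P y - dg lam mu y) := by
    rw [map_sub]
    abel
  rw [e]
  exact h

end Pool.Agent.Tng
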