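import Pool.Agent.Tng.Targets

/-!
# TNG-OFF: the orbit segments that follow the homoclinic orbit avoid a neighbourhood of `q`
-/

set_option autoImplicit false

open Set Filter Topology Metric

namespace Pool.Agent.Tng.OFF_

/-- The iterates of `f` and its inverse. -/
theorem inv_iter {M : Type} {f g : M → M} (hgf : ∀ x, g (f x) = x) (l : ℕ) (x : M) :
    g^[l] (f^[l] x) = x := by
  have h : Function.LeftInverse g f := hgf
  exact h.iterate l x

variable {M : Type} [MetricSpace M]

/-- A point whose forward orbit along multiples of `m` tends to `p ≠ q` does not return. -/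
theorem noret {f : M → M} {m : ℕ} {p q : M} (hqp : q ≠ p)
    (hf : Tendsto (fun k : ℕ => f^[m * k] q) atTop (𝓝 p)) {l : ℕ} (hl : 0 < l) :
    f^[l] q ≠ q := by
  intro h
  have hfix : Function.IsFixedPt f^[l] q := h
  have h1 : Tendsto (fun k : ℕ => f^[m * (l * k)] q) atTop (𝓝 p) := by
    have : Tendsto (fun k : ℕ => l * k) atTop atTop :=
      Filter.tendsto_id.const_mul_atTop' hl
    exact hf.comp this
  have h2 : (fun k : ℕ => f^[m * (l * k)] q) = fun _ => q := by
    funext k
    have : m * (l * k) = l * (m * k) := by ring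
    rw [this, Function.iterate_mul]
    exact hfix.iterate (m * k)
  rw [h2] at h1
  exact hqp (tendsto_nhds_unique tendsto_const_nhds h1)

/-- `q` is not on the orbit of `p`. -/
theorem notorb {f : M → M} {m : ℕ} {p q : M} (hp : f^[m] p = p) (hqp : q ≠ p)
    (hf : Tendsto (fun k : ℕ => f^[m * k] q) atTop (𝓝 p)) (l : ℕ) : f^[l] p ≠ q := by
  intro h
  have hfix : Function.IsFixedPt f^[m] p := hp
  have h2 : (fun k : ℕ => f^[m * k] q) = fun _ => q := by
    funext k
    rw [← h, ← Function.iterate_add_apply, Nat.add_comm, Function.iterate_add_apply,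
      Function.iterate_mul]
    rw [(hfix.iterate k : (f^[m])^[k] p = p)]
  rw [h2] at hf
  exact hqp (tendsto_nhds_unique tendsto_const_nhds hf)

/-- A closed neighbourhood of `q` avoiding finitely many points. -/
theorem clnhd {q : M} (a : ℕ → M) (n : ℕ) (ha : ∀ l ≤ n, a l ≠ q) :
    ∃ C : Set M, IsClosed C ∧ C ∈ 𝓝 q ∧ ∀ l ≤ n, a l ∉ C := by
  have hfin : (a '' (Set.Iic n)).Finite := (Set.finite_Iic n).image a
  have hmem : (a '' (Set.Iic n))ᶜ ∈ 𝓝 q := by
    apply hfin.isClosed.isOpen_compl.mem_nhds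
    rintro ⟨l, hl, h⟩
    exact ha l hl h
  obtain ⟨C, hC, hCc, hCs⟩ := exists_mem_nhds_isClosed_subset hmem
  refine ⟨C, hCc, hC, fun l hl h => ?_⟩
  exact hCs h ⟨l, hl, rfl⟩

end Pool.Agent.Tng.OFF_

namespace Pool.Agent.Tng

open OFF_

theorem tOFF : T_OFF := by
  intro M _ f g m p q hf hg hgf hfg hm hp hqp hfq hgq
  obtain ⟨C₀, hC₀c, hC₀, hC₀p⟩ := clnhd (q := q) (fun l => f^[l] p) (2 * m)
    (fun l _ => notorb hp hqp hfq l)
  refine ⟨{x | ∀ l ≤ 2 * m, f^[l] x ∉ C₀}, ?_, ?_⟩
  · have : {x | ∀ l ≤ 2 * m, f^[l] x ∉ C₀} = ⋂ l ∈ Set.Iic (2 * m), (f^[l]) ⁻¹' C₀ᶜ := by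
      ext x; simp
    rw [this, Filter.biInter_mem (Set.finite_Iic _)]
    intro l hl
    exact (hf.iterate l).continuousAt.preimage_mem_nhds
      (hC₀c.isOpen_compl.mem_nhds (hC₀p l hl))
  · intro i j
    obtain ⟨C₁, hC₁c, hC₁, hC₁p⟩ := clnhd (q := q) (fun l => f^[l + 1] q) (m * i)
      (fun l _ => noret hqp hfq (Nat.succ_pos l))
    obtain ⟨C₂, hC₂c, hC₂, hC₂p⟩ := clnhd (q := q) (fun l => g^[l + 1] q) (m * j)
      (fun l _ => noret hqp hgq (Nat.succ_pos l))
    refine ⟨C₀ ∩ (C₁ ∩ C₂), hC₀c.inter (hC₁c.inter hC₂c),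
      inter_mem hC₀ (inter_mem hC₁ hC₂), ?_⟩
    intro z hz hT hW
    have e1 : ∀ᶠ N in atTop, ∀ l ∈ Set.Iic (m * i), f^[l + 1] (z N) ∉ C₁ := by
      rw [Filter.eventually_all_finite (Set.finite_Iic _)]
      intro l hl
      have : Tendsto (fun N => f^[l + 1] (z N)) atTop (𝓝 (f^[l + 1] q)) :=
        ((hf.iterate (l + 1)).tendsto q).comp hz
      exact this.eventually (hC₁c.isOpen_compl.mem_nhds (hC₁p l hl))
    have e2 : ∀ᶠ N in atTop, ∀ l ∈ Set.Iic (m * j),
        g^[l + 1] (f^[m * i + 2 * m * N + m * j] (z N)) ∉ C₂ := by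
      rw [Filter.eventually_all_finite (Set.finite_Iic _)]
      intro l hl
      have : Tendsto (fun N => g^[l + 1] (f^[m * i + 2 * m * N + m * j] (z N))) atTop
          (𝓝 (g^[l + 1] q)) := ((hg.iterate (l + 1)).tendsto q).comp hT
      exact this.eventually (hC₂c.isOpen_compl.mem_nhds (hC₂p l hl))
    filter_upwards [e1, e2] with N h1 h2 l hl0 hl hC
    rcases Nat.lt_or_ge l (m * i) with hlt | hge
    · obtain ⟨l', rfl⟩ : ∃ l', l = l' + 1 := ⟨l - 1, by omega⟩
      exact h1 l' (by simp only [Set.mem_Iic]; omega) hC.2.1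
    · rcases Nat.lt_or_ge (m * i + 2 * m * N) l with hgt | hle
      · -- the last part
        obtain ⟨l', hl'⟩ : ∃ l', m * i + 2 * m * N + m * j = (l' + 1) + l :=
          ⟨m * i + 2 * m * N + m * j - l - 1, by omega⟩
        have h3 := h2 l' (by simp only [Set.mem_Iic]; omega)
        rw [hl', Function.iterate_add_apply f (l' + 1) l, inv_iter hgf] at h3
        exact h3 hC.2.2
      · -- the middle part
        have hm2 : 0 < 2 * m := by omega
        obtain ⟨d, rfl⟩ := Nat.exists_eq_add_of_le hge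
        have hd : d ≤ 2 * m * N := by omega
        have hdiv : d / (2 * m) ≤ N := by
          rw [Nat.div_le_iff_le_mul_add_pred hm2]
          omega
        have h3 := hW N (d / (2 * m)) hdiv (d % (2 * m)) (Nat.mod_lt d hm2).le
        rw [← Function.iterate_add_apply] at h3
        have h4 : d % (2 * m) + (m * i + 2 * m * (d / (2 * m))) = m * i + d := by
          have := Nat.mod_add_div d (2 * m)
          omega
        rw [h4] at h3
        exact h3 hC.1

end Pool.Agent.Tng
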