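import Pool.Agent.Tng.Targets2
import Pool.Agent.Tng.CHG

/-!
# The orientation condition on orientable surfaces (job TNG-ORI)
-/

set_option autoImplicit false

open Set MeasureTheory Filter Topology Metric
open scoped Manifold ContDiff

namespace Pool.Agent.Tng

open Pool.Agent.Pal

namespace ORI_

open CHG_

variable {M : Type} [TopologicalSpace M] [ChartedSpace (E 2) M]

/-- The derivative of a map in two charts. -/
noncomputable def J (a b : OpenPartialHomeomorph M (E 2)) (h : M → M) (x : M) : ℝ :=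
  (fderiv ℝ (b ∘ h ∘ a.symm) (a x)).det

/-- A continuous map which is continuously differentiable in all charts. -/
structure Good (h : M → M) : Prop where
  cont : Continuous h
  c1 : ∀ (a b : OpenPartialHomeomorph M (E 2)) (x : M), a ∈ Ch 2 M → b ∈ Ch 2 M →
    x ∈ a.source → h x ∈ b.source → ContDiffAt ℝ 1 (b ∘ h ∘ a.symm) (a x)

theorem Good.diff {h : M → M} (H : Good h) {a b : OpenPartialHomeomorph M (E 2)} {x : M}
    (ha : a ∈ Ch 2 M) (hb : b ∈ Ch 2 M) (hx : x ∈ a.source) (hy : h x ∈ b.source) :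
    DifferentiableAt ℝ (b ∘ h ∘ a.symm) (a x) :=
  (H.c1 a b x ha hb hx hy).differentiableAt one_ne_zero

/-- The Jacobian depends continuously on the point. -/
theorem Good.contJ {h : M → M} (H : Good h) {a b : OpenPartialHomeomorph M (E 2)} {x : M}
    (ha : a ∈ Ch 2 M) (hb : b ∈ Ch 2 M) (hx : x ∈ a.source) (hy : h x ∈ b.source) :
    ContinuousAt (J a b h) x := by
  have h1 : ContinuousAt (fderiv ℝ (b ∘ h ∘ a.symm)) (a x) :=
    ((H.c1 a b x ha hb hx hy).fderiv_right (m := 0) (by simp)).continuousAt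
  have h2 : ContinuousAt (fun y => fderiv ℝ (b ∘ h ∘ a.symm) (a y)) x :=
    ContinuousAt.comp (f := a) h1 (a.continuousAt hx)
  exact (ContinuousLinearMap.continuous_det.continuousAt).comp h2

/-- The Jacobians of two mutually inverse maps. -/
theorem mulJ {h h' : M → M} (H : Good h) (H' : Good h') (hh : ∀ x, h' (h x) = x)
    {a b : OpenPartialHomeomorph M (E 2)} {x : M}
    (ha : a ∈ Ch 2 M) (hb : b ∈ Ch 2 M) (hx : x ∈ a.source) (hy : h x ∈ b.source) :
    J b a h' (h x) * J a b h x = 1 := by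
  have hz : h' (h x) ∈ a.source := by rw [hh]; exact hx
  have h0 : (b ∘ h ∘ a.symm) (a x) = b (h x) := by simp [a.left_inv hx]
  have h1 : HasFDerivAt ((a ∘ h' ∘ b.symm) ∘ (b ∘ h ∘ a.symm))
      (fderiv ℝ (a ∘ h' ∘ b.symm) (b (h x)) ∘L fderiv ℝ (b ∘ h ∘ a.symm) (a x)) (a x) := by
    refine HasFDerivAt.comp (a x) ?_ (H.diff ha hb hx hy).hasFDerivAt
    rw [h0]
    exact (H'.diff hb ha hy hz).hasFDerivAt
  have h2 : (a ∘ h' ∘ b.symm) ∘ (b ∘ h ∘ a.symm) =ᶠ[𝓝 (a x)] id := by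
    filter_upwards [ev_source hx H.cont hy, a.open_target.mem_nhds (a.map_source hx)] with y h3 h4
    simp only [Function.comp_apply, id]
    rw [b.left_inv h3, hh, a.right_inv h4]
  have h3 := h1.unique ((hasFDerivAt_id (a x)).congr_of_eventuallyEq h2)
  unfold J
  rw [← det_comp, h3]
  simp [ContinuousLinearMap.det]

/-- The set of points where the map preserves the orientation. -/
def P (O : Set (OpenPartialHomeomorph M (E 2))) (h : M → M) : Set M :=
  {x | ∃ a ∈ O, ∃ b ∈ O, x ∈ a.source ∧ h x ∈ b.source ∧ 0 < J a b h x}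

variable [IsManifold 𝓘(ℝ, E 2) ∞ M]

/-- The sign of the Jacobian does not depend on the oriented charts. -/
theorem signJ {O : Set (OpenPartialHomeomorph M (E 2))} (hO : O ⊆ Ch 2 M)
    (hpos : ∀ e ∈ O, ∀ e' ∈ O, ∀ x : M, x ∈ e.source → x ∈ e'.source →
      0 < (fderiv ℝ (e' ∘ e.symm) (e x)).det)
    {h : M → M} (H : Good h) {a b a' b' : OpenPartialHomeomorph M (E 2)} {x : M}
    (ha : a ∈ O) (hb : b ∈ O) (ha' : a' ∈ O) (hb' : b' ∈ O) (hx : x ∈ a.source)
    (hy : h x ∈ b.source) (hx' : x ∈ a'.source) (hy' : h x ∈ b'.source) :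
    0 < J a b h x ↔ 0 < J a' b' h x := by
  have h1 : J a' b' h x = (D b b' (h x)).det * (J a b h x * (D a' a x).det) :=
    det_chain (hO hb) (hO hb') (hO ha) (hO ha') H.cont hx hx' hy hy' (H.diff (hO ha) (hO hb) hx hy)
  rw [h1]
  have p1 : 0 < (D b b' (h x)).det := hpos b hb b' hb' _ hy hy'
  have p2 : 0 < (D a' a x).det := hpos a' ha' a ha _ hx' hx
  rw [mul_pos_iff_of_pos_left p1, mul_pos_iff_of_pos_right p2]

theorem memP {O : Set (OpenPartialHomeomorph M (E 2))} (hO : O ⊆ Ch 2 M)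
    (hpos : ∀ e ∈ O, ∀ e' ∈ O, ∀ x : M, x ∈ e.source → x ∈ e'.source →
      0 < (fderiv ℝ (e' ∘ e.symm) (e x)).det)
    {h : M → M} (H : Good h) {a b : OpenPartialHomeomorph M (E 2)} {x : M}
    (ha : a ∈ O) (hb : b ∈ O) (hx : x ∈ a.source) (hy : h x ∈ b.source) :
    x ∈ P O h ↔ 0 < J a b h x := by
  constructor
  · rintro ⟨a', ha', b', hb', hx', hy', h1⟩
    exact (signJ hO hpos H ha' hb' ha hb hx' hy' hx hy).1 h1
  · intro h1
    exact ⟨a, ha, b, hb, hx, hy, h1⟩

/-- The set of points where the orientation is preserved is open and closed. -/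
theorem clopenP {O : Set (OpenPartialHomeomorph M (E 2))} (hO : O ⊆ Ch 2 M)
    (hcov : ∀ x : M, ∃ e ∈ O, x ∈ e.source)
    (hpos : ∀ e ∈ O, ∀ e' ∈ O, ∀ x : M, x ∈ e.source → x ∈ e'.source →
      0 < (fderiv ℝ (e' ∘ e.symm) (e x)).det)
    {h h' : M → M} (H : Good h) (H' : Good h') (hh : ∀ x, h' (h x) = x) : IsClopen (P O h) := by
  have nb : ∀ (a b : OpenPartialHomeomorph M (E 2)) (x : M), x ∈ a.source → h x ∈ b.source →
      ∀ᶠ y in 𝓝 x, y ∈ a.source ∧ h y ∈ b.source := by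
    intro a b x hx hy
    have h1 : ∀ᶠ y in 𝓝 x, y ∈ a.source := a.open_source.mem_nhds hx
    have h2 : ∀ᶠ y in 𝓝 x, h y ∈ b.source :=
      H.cont.continuousAt.eventually (b.open_source.mem_nhds hy)
    exact h1.and h2
  constructor
  · rw [← isOpen_compl_iff, isOpen_iff_mem_nhds]
    intro x hx
    obtain ⟨a, ha, hxa⟩ := hcov x
    obtain ⟨b, hb, hyb⟩ := hcov (h x)
    have h1 : J a b h x < 0 := by
      have h2 : ¬ 0 < J a b h x := fun h3 => hx ((memP hO hpos H ha hb hxa hyb).2 h3)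
      have h4 : J a b h x ≠ 0 := by
        intro h5
        have h6 := mulJ H H' hh (hO ha) (hO hb) hxa hyb
        rw [h5, mul_zero] at h6
        exact zero_ne_one h6
      exact lt_of_le_of_ne (not_lt.1 h2) h4
    filter_upwards [nb a b x hxa hyb,
      (H.contJ (hO ha) (hO hb) hxa hyb).eventually (gt_mem_nhds h1)] with y h2 h3
    intro h4
    exact absurd ((memP hO hpos H ha hb h2.1 h2.2).1 h4) (not_lt.2 h3.le)
  · rw [isOpen_iff_mem_nhds]
    rintro x ⟨a, ha, b, hb, hxa, hyb, h1⟩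
    filter_upwards [nb a b x hxa hyb,
      (H.contJ (hO ha) (hO hb) hxa hyb).eventually (lt_mem_nhds h1)] with y h2 h3
    exact (memP hO hpos H ha hb h2.1 h2.2).2 h3

/-- Two mutually inverse maps have Jacobians of the same sign, in oriented charts, at all
points. -/
theorem same [ConnectedSpace M] {O : Set (OpenPartialHomeomorph M (E 2))} (hO : O ⊆ Ch 2 M)
    (hcov : ∀ x : M, ∃ e ∈ O, x ∈ e.source)
    (hpos : ∀ e ∈ O, ∀ e' ∈ O, ∀ x : M, x ∈ e.source → x ∈ e'.source →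
      0 < (fderiv ℝ (e' ∘ e.symm) (e x)).det)
    {h h' : M → M} (H : Good h) (H' : Good h') (hh : ∀ x, h' (h x) = x) (hh' : ∀ x, h (h' x) = x)
    {a b : OpenPartialHomeomorph M (E 2)} {x : M}
    (ha : a ∈ O) (hb : b ∈ O) (hx : x ∈ a.source) (hy : h x ∈ b.source) (hy' : h' x ∈ b.source) :
    0 < J a b h x * J a b h' x := by
  have c1 := isClopen_iff.1 (clopenP hO hcov hpos H H' hh)
  have c2 := isClopen_iff.1 (clopenP hO hcov hpos H' H hh')
  have m1 : J b a h' (h x) * J a b h x = 1 := mulJ H H' hh (hO ha) (hO hb) hx hy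
  have n2 : J a b h' x ≠ 0 := by
    intro h5
    have h6 := mulJ H' H hh' (hO ha) (hO hb) hx hy'
    rw [h5, mul_zero] at h6
    exact zero_ne_one h6
  have n1 : J a b h x ≠ 0 := by
    intro h5
    rw [h5, mul_zero] at m1
    exact zero_ne_one m1
  have hz : h' (h x) ∈ a.source := by rw [hh]; exact hx
  have e1 : h x ∈ P O h' ↔ 0 < J b a h' (h x) := memP hO hpos H' hb ha hy hz
  have e2 : x ∈ P O h ↔ 0 < J a b h x := memP hO hpos H ha hb hx hy
  have e3 : x ∈ P O h' ↔ 0 < J a b h' x := memP hO hpos H' ha hb hx hy'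
  have e4 : x ∈ P O h' ↔ h x ∈ P O h' := by
    rcases c2 with c | c
    · rw [c]; simp
    · rw [c]; simp
  by_cases hp : 0 < J a b h x
  · have h1 : 0 < J b a h' (h x) := by
      have : 0 < J b a h' (h x) * J a b h x := by rw [m1]; exact one_pos
      exact (mul_pos_iff_of_pos_right hp).1 this
    exact mul_pos hp (e3.1 (e4.2 (e1.2 h1)))
  · have hn : J a b h x < 0 := lt_of_le_of_ne (not_lt.1 hp) n1
    have h1 : ¬ 0 < J b a h' (h x) := by
      intro h2
      have : J b a h' (h x) * J a b h x < 0 := mul_neg_of_pos_of_neg h2 hn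
      rw [m1] at this
      exact absurd this (by norm_num)
    have h2 : ¬ 0 < J a b h' x := fun h3 => h1 (e1.1 (e4.1 (e3.2 h3)))
    exact mul_pos_of_neg_of_neg hn (lt_of_le_of_ne (not_lt.1 h2) n2)

theorem good_iter {s : ℕ∞} (hs : 1 ≤ s) {f : M → M} (hf : IsDiffeo 2 s f) (n : ℕ) :
    Good f^[n] := by
  have cf : Continuous f := by
    obtain ⟨G, hG⟩ := (diff1 2 M s).2.2.1 f hf
    rw [← hG]; exact G.continuous
  refine ⟨cf.iterate n, fun a b x ha hb hx hy => ?_⟩
  refine ((diff1 2 M s).2.2.2 f n a b x hf ha hb hx hy).of_le ?_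
  exact_mod_cast hs

end ORI_

open CHG_ ORI_ in
theorem tORI : T_ORI := by
  intro M _ _ _ _ s f g m p q e e' hs hf hg hgf hfg hor he he' hp hq hfw hbw K
  obtain ⟨O, hO, hcov, hpos⟩ := hor
  obtain ⟨e₁, he₁, hp₁⟩ := hcov p
  obtain ⟨e₂, he₂, hq₂⟩ := hcov q
  obtain ⟨K₁, hK₁⟩ := eventually_atTop.1 ((ev_src hp hfw).and ((ev_src hp₁ hfw).and
    ((ev_src hp hbw).and ((ev_src hp₁ hbw).and
      ((det_sign (hO he₁) he hp₁ hp hfw).and (det_sign (hO he₁) he hp₁ hp hbw))))))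
  obtain ⟨a1, a2, a3, a4, a5, a6⟩ := hK₁ (max K K₁) (le_max_right _ _)
  refine ⟨max K K₁, le_max_left _ _, max K K₁, le_max_left _ _, ?_⟩
  set n := m * max K K₁ with hn
  have H : Good f^[n] := good_iter hs hf n
  have H' : Good g^[n] := good_iter hs hg n
  have hh : ∀ x, g^[n] (f^[n] x) = x := Function.LeftInverse.iterate hgf n
  have hh' : ∀ x, f^[n] (g^[n] x) = x := Function.LeftInverse.iterate hfg n
  have hsame := same hO hcov hpos H H' hh hh' he₂ he₁ hq₂ a2 a4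
  rw [det_chain (hO he₁) he (hO he₂) he' H.cont hq₂ hq a2 a1 (H.diff (hO he₂) (hO he₁) hq₂ a2),
    det_chain (hO he₁) he (hO he₂) he' H'.cont hq₂ hq a4 a3 (H'.diff (hO he₂) (hO he₁) hq₂ a4)]
  change 0 < (D e₁ e (f^[n] q)).det * (J e₂ e₁ f^[n] q * (D e' e₂ q).det) *
    ((D e₁ e (g^[n] q)).det * (J e₂ e₁ g^[n] q * (D e' e₂ q).det))
  have hd0 : (D e' e₂ q).det ≠ 0 := det_ne he' (hO he₂) hq hq₂
  have hd1 : (D e₁ e p).det ≠ 0 := det_ne (hO he₁) he hp₁ hp
  have h1 : 0 < (D e₁ e (f^[n] q)).det * (D e₁ e (g^[n] q)).det := by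
    have h2 := mul_pos a5 a6
    have h3 : (D e₁ e (f^[n] q)).det * (D e₁ e p).det *
        ((D e₁ e (g^[n] q)).det * (D e₁ e p).det) =
        (D e₁ e (f^[n] q)).det * (D e₁ e (g^[n] q)).det *
          ((D e₁ e p).det * (D e₁ e p).det) := by ring
    rw [h3] at h2
    exact (mul_pos_iff_of_pos_right (mul_self_pos.2 hd1)).1 h2
  have h4 : (D e₁ e (f^[n] q)).det * (J e₂ e₁ f^[n] q * (D e' e₂ q).det) *
      ((D e₁ e (g^[n] q)).det * (J e₂ e₁ g^[n] q * (D e' e₂ q).det)) =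
      (D e₁ e (f^[n] q)).det * (D e₁ e (g^[n] q)).det *
        (J e₂ e₁ f^[n] q * J e₂ e₁ g^[n] q) * ((D e' e₂ q).det * (D e' e₂ q).det) := by ring
  rw [h4]
  exact mul_pos (mul_pos h1 hsame) (mul_self_pos.2 hd0)

end Pool.Agent.Tng
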