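import Pool.Agent.Tng.Targets

set_option autoImplicit false

open Set MeasureTheory Filter Topology Metric
open scoped Manifold ContDiff

namespace Pool.Agent.Tng

open Pool.Agent.Pal

namespace SECP_

/-- the linear isomorphism of the plane with the maximum norm -/
noncomputable def S : X ≃ₗ[ℝ] E 2 :=
  LinearEquiv.ofFinrankEq X (E 2) (by simp)

theorem det3 (B : X →L[ℝ] E 2) (A : X →L[ℝ] X) (C : E 2 →L[ℝ] X) :
    (B ∘L A ∘L C).det = A.det * (B ∘L C).det := by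
  have h1 : ((B ∘L A ∘L C : E 2 →L[ℝ] E 2) : E 2 →ₗ[ℝ] E 2) =
      ((B : X →ₗ[ℝ] E 2) ∘ₗ (S.symm : E 2 →ₗ[ℝ] X)) ∘ₗ
        (((S : X →ₗ[ℝ] E 2) ∘ₗ (A : X →ₗ[ℝ] X) ∘ₗ (S.symm : E 2 →ₗ[ℝ] X)) ∘ₗ
          ((S : X →ₗ[ℝ] E 2) ∘ₗ (C : E 2 →ₗ[ℝ] X))) := by
    ext z : 1
    simp
  have h2 : ((B ∘L C : E 2 →L[ℝ] E 2) : E 2 →ₗ[ℝ] E 2) =
      ((B : X →ₗ[ℝ] E 2) ∘ₗ (S.symm : E 2 →ₗ[ℝ] X)) ∘ₗ
          ((S : X →ₗ[ℝ] E 2) ∘ₗ (C : E 2 →ₗ[ℝ] X)) := by
    ext z : 1
    simp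
  unfold ContinuousLinearMap.det
  rw [h1, h2, LinearMap.det_comp, LinearMap.det_comp, LinearMap.det_comp, LinearMap.det_conj]
  ring

theorem fderiv_cont {V W : Type*} [NormedAddCommGroup V] [NormedSpace ℝ V]
    [NormedAddCommGroup W] [NormedSpace ℝ W] {f : V → W} {x : V} (h : ContDiffAt ℝ 1 f x) :
    ContinuousAt (fderiv ℝ f) x :=
  (h.fderiv_right (m := 0) (by norm_num)).continuousAt

theorem chain {α : E 2 → X} {α' : X → E 2} {x : X} (h1 : ContDiffAt ℝ 1 α (α' x))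
    (h2 : ContDiffAt ℝ 1 α' x) (h3 : ∀ᶠ y in 𝓝 x, α (α' y) = y) (w : X) :
    fderiv ℝ α (α' x) (fderiv ℝ α' x w) = w := by
  have d1 : DifferentiableAt ℝ α (α' x) := h1.differentiableAt (by norm_num)
  have d2 : DifferentiableAt ℝ α' x := h2.differentiableAt (by norm_num)
  have h4 : fderiv ℝ (α ∘ α') x = ContinuousLinearMap.id ℝ X := by
    have : (α ∘ α') =ᶠ[𝓝 x] id := h3
    rw [this.fderiv_eq, fderiv_id]
  rw [fderiv_comp x d1 d2] at h4
  have := congrArg (fun L : X →L[ℝ] X => L w) h4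
  simpa using this

theorem tapply {V W : Type*} [NormedAddCommGroup V] [NormedSpace ℝ V]
    [NormedAddCommGroup W] [NormedSpace ℝ W] {f : ℕ → V →L[ℝ] W} {f0 : V →L[ℝ] W} {g : ℕ → V}
    {g0 : V} (hf : Tendsto f atTop (𝓝 f0)) (hg : Tendsto g atTop (𝓝 g0)) :
    Tendsto (fun N => f N (g N)) atTop (𝓝 (f0 g0)) :=
  ((continuous_fst.clm_apply continuous_snd).tendsto (f0, g0)).comp (hf.prodMk_nhds hg)

theorem tcomp {U V W : Type*} [NormedAddCommGroup U] [NormedSpace ℝ U] [NormedAddCommGroup V]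
    [NormedSpace ℝ V] [NormedAddCommGroup W] [NormedSpace ℝ W] {f : ℕ → V →L[ℝ] W}
    {f0 : V →L[ℝ] W} {g : ℕ → U →L[ℝ] V} {g0 : U →L[ℝ] V} (hf : Tendsto f atTop (𝓝 f0))
    (hg : Tendsto g atTop (𝓝 g0)) : Tendsto (fun N => f N ∘L g N) atTop (𝓝 (f0 ∘L g0)) :=
  ((continuous_fst.clm_comp continuous_snd).tendsto (f0, g0)).comp (hf.prodMk_nhds hg)

end SECP_

open SECP_ in
theorem tSECP (h1 : T_ITD) (h2 : T_BVP) (h3 : T_APP) (h4 : T_DIRS) (h5 : T_DIRU) : T_SECP := by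
  intro P lam mu del rho hB a b vb ha hPa hb hPb α α' β y₀ v hv hα hα' hy hid hβ hvp hvb hvb2
    hβv hdet
  have ha0 : |(a 0).1| ≤ rho := by
    have := mem_closedBall_zero_iff.1 (ha 0)
    exact (norm_fst_le (a 0)).trans this
  have hb0 : |(b 0).2| ≤ rho := by
    have := mem_closedBall_zero_iff.1 (hb 0)
    exact (norm_snd_le (b 0)).trans this
  choose x hx1 hx2 hx3 using fun N => h2 P lam mu del rho hB N (a 0).1 (b 0).2 ha0 hb0
  obtain ⟨hxa, hxb⟩ := h3 P lam mu del rho hB a b x ha hPa hb hPb hx3 hx1 hx2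
  have hxb0 : Tendsto (fun N => P^[N] (x N)) atTop (𝓝 (b 0)) := by simpa using hxb 0
  subst hy
  -- chain rule at a 0
  have hα0 : ContDiffAt ℝ 1 α (α' (a 0)) := hα
  have hev1 : ∀ᶠ x in 𝓝 (a 0), ContDiffAt ℝ 1 α' x := hα'.eventually (by simp)
  have hev2 : ∀ᶠ x in 𝓝 (a 0), ContDiffAt ℝ 1 α (α' x) :=
    hα'.continuousAt.eventually (hα0.eventually (by simp))
  have hev3 : ∀ᶠ x in 𝓝 (a 0), ∀ᶠ y in 𝓝 x, α (α' y) = y := eventually_eventually_nhds.2 hid
  have hch : ∀ᶠ x in 𝓝 (a 0), ∀ w, fderiv ℝ α (α' x) (fderiv ℝ α' x w) = w := by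
    filter_upwards [hev1, hev2, hev3] with x e1 e2 e3 w
    exact chain e2 e1 e3 w
  have hch0 : ∀ w, fderiv ℝ α (α' (a 0)) (fderiv ℝ α' (a 0) w) = w := hch.self_of_nhds
  have hinj' : Function.Injective (fderiv ℝ α' (a 0)) :=
    Function.LeftInverse.injective hch0
  have hsurj : Function.Surjective (fderiv ℝ α' (a 0)) := by
    have hd : Module.finrank ℝ X = Module.finrank ℝ (E 2) := by simp
    exact (LinearMap.injective_iff_surjective_of_finrank_eq_finrank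
      (f := ((fderiv ℝ α' (a 0)) : X →ₗ[ℝ] E 2)) hd).1 hinj'
  have hch1 : ∀ w, fderiv ℝ α' (a 0) (fderiv ℝ α (α' (a 0)) w) = w := by
    intro w
    obtain ⟨u, rfl⟩ := hsurj w
    rw [hch0]
  set vp := fderiv ℝ α (α' (a 0)) v with hvpd
  have hvp0 : vp ≠ 0 := by
    intro h
    have := hch1 v
    rw [← hvpd, h, map_zero] at this
    exact hv this.symm
  have hvb0 : vb 0 ≠ 0 := by
    intro h
    rw [h, map_zero] at hβv
    exact hv hβv.symm
  obtain ⟨hvp1, e, he, hAe⟩ := h4 P lam mu del rho hB a x vp ha hPa hx3 hxa hvp0 hvp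
  obtain ⟨g, c, hg, hc⟩ := h5 P lam mu del rho hB b x vb hb hPb hx3 hxb hvb0 hvb hvb2
  have tβ : Tendsto (fun N => fderiv ℝ β (P^[N] (x N))) atTop (𝓝 (fderiv ℝ β (b 0))) :=
    (fderiv_cont hβ).tendsto.comp hxb0
  have tα' : Tendsto (fun N => fderiv ℝ α' (x N)) atTop (𝓝 (fderiv ℝ α' (a 0))) :=
    (fderiv_cont hα').tendsto.comp hxa
  have tα : Tendsto (fun N => fderiv ℝ α (α' (x N))) atTop (𝓝 (fderiv ℝ α (α' (a 0)))) :=
    (fderiv_cont hα0).tendsto.comp (hα'.continuousAt.tendsto.comp hxa)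
  have hchN : ∀ᶠ N in atTop, ∀ w, fderiv ℝ α (α' (x N)) (fderiv ℝ α' (x N) w) = w :=
    hxa.eventually hch
  refine ⟨x, hxa, hxb0, hx3, ?_, ?_⟩
  · refine ⟨fun N => fderiv ℝ α' (x N) (e N), fun N => fderiv ℝ α' (x N) (0, 1),
      fun N => fderiv ℝ β (P^[N] (x N)) (g N), fderiv ℝ α' (a 0) (0, 1), c, ?_, ?_, ?_, ?_, ?_, ?_⟩
    · have := tapply tα' he
      rwa [hvpd, hch1] at this
    · have h6 := tapply tβ hAe
      rw [map_zero] at h6
      refine h6.congr' ?_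
      filter_upwards [hchN] with N hN
      simp only [ContinuousLinearMap.coe_comp, Function.comp_apply]
      rw [hN]
    · exact tapply tα' tendsto_const_nhds
    · intro h
      set u₀ := fderiv ℝ α' (a 0) (0, 1) with hu₀
      have hvv : fderiv ℝ α' (a 0) vp = v := hch1 v
      have k1 : fderiv ℝ α' (a 0) (u₀ 0 • vp - v 0 • ((0, 1) : X)) = 0 := by
        rw [map_sub, map_smul, map_smul, hvv, ← hu₀]
        ext i
        fin_cases i
        · simp; ring
        · simp; linarith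
      have k2 : fderiv ℝ α' (a 0) (u₀ 1 • vp - v 1 • ((0, 1) : X)) = 0 := by
        rw [map_sub, map_smul, map_smul, hvv, ← hu₀]
        ext i
        fin_cases i
        · simp; linarith
        · simp; ring
      have m1 := hinj' (k1.trans (map_zero _).symm)
      have m2 := hinj' (k2.trans (map_zero _).symm)
      have n1 := congrArg Prod.fst m1
      have n2 := congrArg Prod.fst m2
      simp only [Prod.fst_sub, Prod.smul_fst, smul_eq_mul, mul_zero, sub_zero, Prod.fst_zero,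
        mul_eq_zero, hvp1, or_false] at n1 n2
      have hu : u₀ = 0 := by
        ext i
        fin_cases i
        · exact n1
        · exact n2
      have : ((0, 1) : X) = 0 := hinj' ((hu₀.symm.trans hu).trans (map_zero _).symm)
      have := congrArg Prod.snd this
      simp at this
    · filter_upwards [hchN] with N hN
      simp only [ContinuousLinearMap.coe_comp, Function.comp_apply]
      rw [hN, hc, map_smul]
    · have := tapply tβ hg
      rwa [hβv] at this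
  · have t1 : Tendsto (fun N => (fderiv ℝ β (P^[N] (x N)) ∘L fderiv ℝ α (α' (x N))).det) atTop
        (𝓝 (fderiv ℝ β (b 0) ∘L fderiv ℝ α (α' (a 0))).det) :=
      (ContinuousLinearMap.continuous_det.tendsto _).comp (tcomp tβ tα)
    filter_upwards [t1.eventually (lt_mem_nhds hdet)] with N hN
    have hA := (h1 P lam mu del rho hB N (x N) (hx3 N) N le_rfl).2.1
    rw [det3]
    exact mul_pos hA hN

end Pool.Agent.Tng
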