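import Pool.Agent.Tng.Targets
import Pool.Agent.Pal.NRS2

/-!
# TRA: a small rotation makes the maps elliptic
-/

set_option autoImplicit false

open Set MeasureTheory Filter Topology Metric
open scoped Manifold ContDiff

namespace Pool.Agent.Tng

open Pool.Agent.Pal

namespace TRA_

open LIN_

/-- the area form -/
noncomputable def om (x y : E 2) : ℝ := x 0 * y 1 - x 1 * y 0

/-- the inner product -/
noncomputable def ip (x y : E 2) : ℝ := x 0 * y 0 + x 1 * y 1

theorem co (i : Fin 2) : Continuous fun x : E 2 => x i := by fun_prop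

theorem om_rot (a g : E 2) (t : ℝ) :
    om a (rot t g) = Real.cos t * om a g + Real.sin t * ip a g := by
  unfold om ip
  rw [rot_zero, rot_one]
  ring

theorem om_smul (a g : E 2) (c : ℝ) : om a (c • g) = c * om a g := by
  unfold om
  rw [PiLp.smul_apply, PiLp.smul_apply, smul_eq_mul, smul_eq_mul]
  ring

theorem tr_om (B : E 2 →L[ℝ] E 2) (a u : E 2) : tr B * om a u = om (B a) u + om a (B u) := by
  unfold om tr
  rw [apply_eq B a 0, apply_eq B a 1, apply_eq B u 0, apply_eq B u 1]
  ring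

theorem tendsto_om {x y : ℕ → E 2} {x₀ y₀ : E 2} (hx : Tendsto x atTop (𝓝 x₀))
    (hy : Tendsto y atTop (𝓝 y₀)) : Tendsto (fun N => om (x N) (y N)) atTop (𝓝 (om x₀ y₀)) := by
  have h0 := ((co 0).tendsto x₀).comp hx
  have h1 := ((co 1).tendsto x₀).comp hx
  have h2 := ((co 0).tendsto y₀).comp hy
  have h3 := ((co 1).tendsto y₀).comp hy
  exact (h0.mul h3).sub (h1.mul h2)

theorem tendsto_ip {x y : ℕ → E 2} {x₀ y₀ : E 2} (hx : Tendsto x atTop (𝓝 x₀))
    (hy : Tendsto y atTop (𝓝 y₀)) : Tendsto (fun N => ip (x N) (y N)) atTop (𝓝 (ip x₀ y₀)) := by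
  have h0 := ((co 0).tendsto x₀).comp hx
  have h1 := ((co 1).tendsto x₀).comp hx
  have h2 := ((co 0).tendsto y₀).comp hy
  have h3 := ((co 1).tendsto y₀).comp hy
  exact (h0.mul h2).add (h1.mul h3)

theorem ip_pos {v : E 2} (hv : v ≠ 0) : 0 < ip v v := by
  unfold ip
  by_contra h
  push Not at h
  have h0 : v 0 = 0 := by nlinarith [mul_self_nonneg (v 0), mul_self_nonneg (v 1)]
  have h1 : v 1 = 0 := by nlinarith [mul_self_nonneg (v 0), mul_self_nonneg (v 1)]
  exact hv (ext_e h0 h1)

/-- the angle -/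
noncomputable def th (a g : E 2) : ℝ := -Real.arctan (om a g / ip a g)

theorem om_rot_th {a g : E 2} (h : ip a g ≠ 0) : om a (rot (th a g) g) = 0 := by
  rw [om_rot]
  have hc : Real.cos (Real.arctan (om a g / ip a g)) ≠ 0 := (Real.cos_arctan_pos _).ne'
  have h1 : Real.sin (th a g) = -(om a g / ip a g) * Real.cos (th a g) := by
    unfold th
    rw [Real.sin_neg, Real.cos_neg]
    have h2 := Real.tan_mul_cos hc
    rw [Real.tan_arctan] at h2
    rw [← h2]
    ring
  rw [h1]
  field_simp
  ring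

end TRA_

open TRA_ LIN_

/-- A small rotation makes the maps elliptic. -/
theorem tTRA : T_TRA := by
  rintro D v hv ⟨a, u, g, u₀, c, ha, hDa, hu, hω, hDu, hg⟩ hdet η hη
  have hag : Tendsto (fun N => om (a N) (g N)) atTop (𝓝 (om v v)) := tendsto_om ha hg
  have hagi : Tendsto (fun N => ip (a N) (g N)) atTop (𝓝 (ip v v)) := tendsto_ip ha hg
  have hvv : om v v = 0 := by
    unfold om
    ring
  have hip := ip_pos hv
  have hth : Tendsto (fun N => th (a N) (g N)) atTop (𝓝 0) := by
    have h1 : Tendsto (fun N => om (a N) (g N) / ip (a N) (g N)) atTop (𝓝 0) := by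
      have := hag.div hagi hip.ne'
      rwa [hvv, zero_div] at this
    have h2 := ((Real.continuous_arctan.tendsto 0).comp h1).neg
    rw [Real.arctan_zero, neg_zero] at h2
    exact h2
  have hau : Tendsto (fun N => om (a N) (u N)) atTop (𝓝 (om v u₀)) := tendsto_om ha hu
  have hω' : om v u₀ ≠ 0 := hω
  have hrot : Tendsto (fun N => rot (th (a N) (g N)) (D N (a N))) atTop (𝓝 0) := by
    have hc : Tendsto (fun N => Real.cos (th (a N) (g N))) atTop (𝓝 (Real.cos 0)) :=
      (Real.continuous_cos.tendsto 0).comp hth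
    have hs : Tendsto (fun N => Real.sin (th (a N) (g N))) atTop (𝓝 (Real.sin 0)) :=
      (Real.continuous_sin.tendsto 0).comp hth
    have h0 : Tendsto (fun N => D N (a N) 0) atTop (𝓝 0) := ((co 0).tendsto 0).comp hDa
    have h1 : Tendsto (fun N => D N (a N) 1) atTop (𝓝 0) := ((co 1).tendsto 0).comp hDa
    have e : ∀ N, rot (th (a N) (g N)) (D N (a N)) =
        (Real.cos (th (a N) (g N)) * D N (a N) 0 - Real.sin (th (a N) (g N)) * D N (a N) 1) •
          LIN_.e 0 +
        (Real.sin (th (a N) (g N)) * D N (a N) 0 + Real.cos (th (a N) (g N)) * D N (a N) 1) •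
          LIN_.e 1 := by
      intro N
      rw [decomp (rot (th (a N) (g N)) (D N (a N))), rot_zero, rot_one]
    simp only [e]
    have h2 := ((hc.mul h0).sub (hs.mul h1)).smul_const (LIN_.e 0)
    have h3 := ((hs.mul h0).add (hc.mul h1)).smul_const (LIN_.e 1)
    have h4 := h2.add h3
    simpa using h4
  have hB : Tendsto (fun N => om (rot (th (a N) (g N)) (D N (a N))) (u N) / om (a N) (u N))
      atTop (𝓝 0) := by
    have h1 := (tendsto_om hrot hu).div hau hω'
    have h2 : om 0 u₀ = 0 := by simp [om]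
    rwa [h2, zero_div] at h1
  have hB1 : ∀ᶠ N in atTop,
      |om (rot (th (a N) (g N)) (D N (a N))) (u N) / om (a N) (u N)| < 1 := by
    have := hB.abs
    rw [abs_zero] at this
    exact this.eventually (gt_mem_nhds one_pos)
  have hth1 : ∀ᶠ N in atTop, |th (a N) (g N)| < η := by
    have := hth.abs
    rw [abs_zero] at this
    exact this.eventually (gt_mem_nhds hη)
  have hne : ∀ᶠ N in atTop, om (a N) (u N) ≠ 0 := hau.eventually_ne hω'
  have hne2 : ∀ᶠ N in atTop, ip (a N) (g N) ≠ 0 := hagi.eventually_ne hip.ne'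
  filter_upwards [hDu, hdet, hB1, hth1, hne, hne2] with N h1 h2 h3 h4 h5 h6
  refine ⟨th (a N) (g N), h4.le, ?_⟩
  set B : E 2 →L[ℝ] E 2 := rot (th (a N) (g N)) ∘L D N with hBdef
  rw [no_iff B (NRS_.det_rot _ h2 _)]
  have h7 : om (a N) (B (u N)) = 0 := by
    change om (a N) (rot (th (a N) (g N)) (D N (u N))) = 0
    rw [h1, map_smul, om_smul, om_rot_th h6, mul_zero]
  have h8 := tr_om B (a N) (u N)
  rw [h7, add_zero] at h8
  have h9 : tr B = om (rot (th (a N) (g N)) (D N (a N))) (u N) / om (a N) (u N) := by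
    rw [eq_div_iff h5]
    exact h8
  rw [← h9] at h3
  have h10 := abs_lt.1 h3
  nlinarith [h10.1, h10.2]

end Pool.Agent.Tng
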