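import Pool.Agent.Tng.FIN
import Pool.Agent.Tng.APP
import Pool.Agent.Tng.BOX
import Pool.Agent.Tng.BVP
import Pool.Agent.Tng.CHG
import Pool.Agent.Tng.CLO
import Pool.Agent.Tng.CONE
import Pool.Agent.Tng.DET
import Pool.Agent.Tng.DIAG
import Pool.Agent.Tng.DIRS
import Pool.Agent.Tng.DIRU
import Pool.Agent.Tng.ELL
import Pool.Agent.Tng.ITD
import Pool.Agent.Tng.JET
import Pool.Agent.Tng.LIP
import Pool.Agent.Tng.OFF
import Pool.Agent.Tng.ORI
import Pool.Agent.Tng.SEC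
import Pool.Agent.Tng.SECP
import Pool.Agent.Tng.TRA

/-!
# Assembly
-/

set_option autoImplicit false

namespace Pool.Agent.Tng

open Pool.Agent.Pal

theorem tSECP' : T_SECP :=
  tSECP tITD (tBVP tLIP) (tAPP tLIP tCONE) (tDIRS tITD tCONE) (tDIRU tITD tCONE)

theorem tCLO' : T_CLO := tCLO tTRA tJET tEXT tVOLP diff1

theorem tSEC' : T_SEC := tSEC tBOX tSECP' tOFF

theorem tELL' : T_ELL := tELL vol diff1 tCHG tDET tDIAG tSEC' tCLO'

theorem tFIN : T_FIN := fin tELL' tORI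

end Pool.Agent.Tng
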