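import Pool.Agent.Pal.Core

/-!
# Homoclinic tangencies: working definitions
-/

set_option autoImplicit false

open Set MeasureTheory Filter Topology Metric
open scoped Manifold ContDiff

namespace Pool.Agent.Tng

open Pool.Agent.Pal

/-- The plane with the maximum norm. -/
abbrev X : Type := ℝ × ℝ

/-- The diagonal map. -/
noncomputable def dg (a b : ℝ) : X →L[ℝ] X :=
  (a • ContinuousLinearMap.fst ℝ ℝ ℝ).prod (b • ContinuousLinearMap.snd ℝ ℝ ℝ)

theorem dg_apply (a b : ℝ) (z : X) : dg a b z = (a * z.1, b * z.2) := rfl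

/-- The map `P` is close to a hyperbolic diagonal map on the square of side `2 * rho`. -/
structure Box (P : X → X) (lam mu del rho : ℝ) : Prop where
  lam_pos : 0 < lam
  del_pos : 0 < del
  lam_lt : lam + del < 1
  mu_gt : 1 + del < mu
  rho_pos : 0 < rho
  zero : P 0 = 0
  smooth : ∀ z ∈ closedBall (0 : X) rho, ContDiffAt ℝ 1 P z
  near : ∀ z ∈ closedBall (0 : X) rho, ‖fderiv ℝ P z - dg lam mu‖ ≤ del
  det : ∀ z ∈ closedBall (0 : X) rho, 0 < (fderiv ℝ P z).det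

/-- The points `x, P x, …, P^N x` are in the square. -/
def Stay (P : X → X) (rho : ℝ) (N : ℕ) (x : X) : Prop :=
  ∀ k ≤ N, P^[k] x ∈ closedBall (0 : X) rho

/-- One step of the cone estimates. -/
def Cs (κ σ : ℝ) (d d' : X) : Prop :=
  (|d.1| ≤ |d.2| → |d'.1| ≤ κ * |d.2| ∧ σ * |d.2| ≤ |d'.2|) ∧
    (|d.2| ≤ |d.1| → |d'.1| ≤ κ * |d.1|)

/-- The linear maps `D N` contract a direction close to `v` and map all other directions close to
the direction of `v`. -/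
def Rk1 (D : ℕ → E 2 →L[ℝ] E 2) (v : E 2) : Prop :=
  ∃ (a u g : ℕ → E 2) (u₀ : E 2) (c : ℕ → ℝ), Tendsto a atTop (𝓝 v) ∧
    Tendsto (fun N => D N (a N)) atTop (𝓝 0) ∧ Tendsto u atTop (𝓝 u₀) ∧
    v 0 * u₀ 1 - v 1 * u₀ 0 ≠ 0 ∧ (∀ᶠ N in atTop, D N (u N) = c N • g N) ∧
    Tendsto g atTop (𝓝 v)

/-- The data of a homoclinic tangency: `g` is the inverse of `f`, the point `p` is a saddle of `f^m`,
the orbit of `q` under `f^m` and under `g^m` tends to `p`, and the derivatives of these iterates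
applied to the tangent vector `v` at `q` tend to `0`. The last condition fixes the orientations. -/
structure Tang {M : Type} [TopologicalSpace M] [ChartedSpace (E 2) M] (f g : M → M) (m : ℕ)
    (p q : M) (e e' : OpenPartialHomeomorph M (E 2)) (v : E 2) : Prop where
  m_pos : 1 ≤ m
  he : e ∈ Ch 2 M
  he' : e' ∈ Ch 2 M
  hp : p ∈ e.source
  hq : q ∈ e'.source
  hfp : f^[m] p = p
  saddle : ∃ (w : E 2) (c : ℝ), w ≠ 0 ∧ |c| ≠ 1 ∧ fderiv ℝ (e ∘ f^[m] ∘ e.symm) (e p) w = c • w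
  ne : q ≠ p
  fwd : Tendsto (fun k : ℕ => f^[m * k] q) atTop (𝓝 p)
  bwd : Tendsto (fun k : ℕ => g^[m * k] q) atTop (𝓝 p)
  v_ne : v ≠ 0
  vf : Tendsto (fun k : ℕ => fderiv ℝ (e ∘ f^[m * k] ∘ e'.symm) (e' q) v) atTop (𝓝 0)
  vb : Tendsto (fun k : ℕ => fderiv ℝ (e ∘ g^[m * k] ∘ e'.symm) (e' q) v) atTop (𝓝 0)
  ori : ∀ K : ℕ, ∃ i ≥ K, ∃ j ≥ K, 0 < (fderiv ℝ (e ∘ f^[m * i] ∘ e'.symm) (e' q)).det *
    (fderiv ℝ (e ∘ g^[m * j] ∘ e'.symm) (e' q)).det

/-- Returns near `q`: orbit segments of `f` from `z N` to `f^(T N) (z N)`, both close to `q`, with no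
intermediate point in `C`, with derivatives as in `Rk1`. -/
structure Ret {M : Type} [TopologicalSpace M] [ChartedSpace (E 2) M] [MeasurableSpace M]
    (μ : Measure M) (f : M → M) (q : M) (e : OpenPartialHomeomorph M (E 2)) (z : ℕ → M) (T : ℕ → ℕ)
    (C : Set M) (v : E 2) : Prop where
  uni : Uni μ e
  hq : q ∈ e.source
  zero : e q = 0
  closed : IsClosed C
  nhd : C ∈ 𝓝 q
  pos : ∀ N, 1 ≤ T N
  hz : Tendsto z atTop (𝓝 q)
  hz' : Tendsto (fun N => f^[T N] (z N)) atTop (𝓝 q)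
  off : ∀ᶠ N in atTop, ∀ i, 0 < i → i < T N → f^[i] (z N) ∉ C
  v_ne : v ≠ 0
  rk : Rk1 (fun N => fderiv ℝ (e ∘ f^[T N] ∘ e.symm) (e (z N))) v
  det : ∀ᶠ N in atTop, 0 < (fderiv ℝ (e ∘ f^[T N] ∘ e.symm) (e (z N))).det

end Pool.Agent.Tng
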