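import Pool.Agent.Tng.Targets2
import Pool.Agent.Pal.FINAL2

/-!
# The theorem on homoclinic tangencies, from the targets
-/

set_option autoImplicit false

open Set MeasureTheory Filter Topology Metric
open scoped Manifold ContDiff

namespace Pool.Agent.Tng

open Pool.Agent.Pal

def T_FIN : Prop := ∀ (M : Type) [MetricSpace M] [ChartedSpace (E 2) M]
  [IsManifold 𝓘(ℝ, E 2) ∞ M] [CompactSpace M] [ConnectedSpace M] [MeasurableSpace M]
  [BorelSpace M] (μ : Measure M) (s : ℕ∞) (r : ℕ) (f g : M → M) (U : Set (M → M)) (m : ℕ)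
  (p q : M) (e e' : OpenPartialHomeomorph M (E 2)) (v : E 2),
  1 ≤ r → (r : ℕ∞) ≤ s → IsVolume 2 μ → IsDiffeo 2 s f → IsDiffeo 2 s g →
  (∀ x, g (f x) = x) → (∀ x, f (g x) = x) → MeasurePreserving f μ μ →
  Rob 2 s r U → f ∈ U → 1 ≤ m → e ∈ Ch 2 M → e' ∈ Ch 2 M → p ∈ e.source → q ∈ e'.source →
  f^[m] p = p →
  (∃ (w : E 2) (c : ℝ), w ≠ 0 ∧ |c| ≠ 1 ∧ fderiv ℝ (e ∘ f^[m] ∘ e.symm) (e p) w = c • w) →
  q ≠ p → Tendsto (fun k : ℕ => f^[m * k] q) atTop (𝓝 p) →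
  Tendsto (fun k : ℕ => g^[m * k] q) atTop (𝓝 p) → v ≠ 0 →
  Tendsto (fun k : ℕ => fderiv ℝ (e ∘ f^[m * k] ∘ e'.symm) (e' q) v) atTop (𝓝 0) →
  Tendsto (fun k : ℕ => fderiv ℝ (e ∘ g^[m * k] ∘ e'.symm) (e' q) v) atTop (𝓝 0) →
  (Orientable M ∨ ∀ K : ℕ, ∃ i ≥ K, ∃ j ≥ K,
    0 < (fderiv ℝ (e ∘ f^[m * i] ∘ e'.symm) (e' q)).det *
      (fderiv ℝ (e ∘ g^[m * j] ∘ e'.symm) (e' q)).det) →
  ∃ h ∈ U, IsDiffeo 2 s h ∧ Nbd 2 h {g' | OneSink μ g'}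

theorem fin (hELL : T_ELL) (hORI : T_ORI) : T_FIN := by
  intro M _ _ _ _ _ _ _ μ s r f g U m p q e e' v hr hrs hμ hf hg hgf hfg hfμ hU hfU hm he he' hp
    hq hfp hsad hqp hfw hbw hv0 hvf hvb hori
  have hs1 : (1 : ℕ∞) ≤ s := le_trans (by exact_mod_cast hr) hrs
  have hT : Tang f g m p q e e' v :=
    { m_pos := hm
      he := he
      he' := he'
      hp := hp
      hq := hq
      hfp := hfp
      saddle := hsad
      ne := hqp
      fwd := hfw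
      bwd := hbw
      v_ne := hv0
      vf := hvf
      vb := hvb
      ori := by
        rcases hori with h | h
        · exact hORI M s f g m p q e e' hs1 hf hg hgf hfg h he he' hp hq hfw hbw
        · exact h }
  obtain ⟨f₁, k, z, e₁, h1, h2, h3, h4, h5, h6, h7, h8⟩ :=
    hELL M μ s r f g U m p q e e' v hs1 hμ hf hg hgf hfg hfμ hU hfU hT
  exact tMAIN4 M μ s r f₁ U k z e₁ hr hrs hμ h2 h3 hU h1 h4 h5 h6 h7 h8

end Pool.Agent.Tng
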