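import Pool.Agent.Tng.Targets
import Pool.Agent.Pal.EXT

set_option autoImplicit false

open Set MeasureTheory Filter Topology Metric
open scoped Manifold ContDiff

namespace Pool.Agent.Tng

open Pool.Agent.Pal

namespace SEC_

section top

variable {M : Type} [TopologicalSpace M] [ChartedSpace (E 2) M]

theorem tend (e : OpenPartialHomeomorph M (E 2)) {h : M → M} (hh : Continuous h) {x : M}
    (hx : x ∈ e.source) : Tendsto (fun y => h (e.symm y)) (𝓝 (e x)) (𝓝 (h x)) := by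
  have hsc : ContinuousAt e.symm (e x) := e.continuousAt_symm (e.map_source hx)
  have h1 : Tendsto (fun y => h (e.symm y)) (𝓝 (e x)) (𝓝 (h (e.symm (e x)))) :=
    hh.continuousAt.tendsto.comp hsc.tendsto
  rwa [e.left_inv hx] at h1

/-- the map near the saddle in the linear coordinates -/
def PP (e : OpenPartialHomeomorph M (E 2)) (S : E 2 ≃L[ℝ] X) (F : M → M) : X → X :=
  S ∘ (e ∘ F ∘ e.symm) ∘ S.symm

theorem PP_apply (e : OpenPartialHomeomorph M (E 2)) (S : E 2 ≃L[ℝ] X) (F : M → M) {u : M}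
    (hu : u ∈ e.source) : PP e S F (S (e u)) = S (e (F u)) := by
  simp only [PP, Function.comp_apply, ContinuousLinearEquiv.symm_apply_apply]
  rw [e.left_inv hu]

theorem PP_iter (e : OpenPartialHomeomorph M (E 2)) (S : E 2 ≃L[ℝ] X) (F : M → M) (w : M) (N : ℕ)
    (h : ∀ k, k < N → F^[k] w ∈ e.source) :
    ∀ k, k ≤ N → (PP e S F)^[k] (S (e w)) = S (e (F^[k] w)) := by
  intro k
  induction k with
  | zero => exact fun _ => rfl
  | succ k ih =>
    intro hk
    rw [Function.iterate_succ_apply', Function.iterate_succ_apply', ih (by omega),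
      PP_apply e S F (h k (by omega))]

theorem inv_iter (e : OpenPartialHomeomorph M (E 2)) (S : E 2 ≃L[ℝ] X) (F : M → M) (B : Set X)
    (hB : ∀ x ∈ B, F (e.symm (S.symm x)) ∈ e.source) (y : X) (N : ℕ)
    (h : ∀ k ≤ N, (PP e S F)^[k] y ∈ B) :
    ∀ k ≤ N, F^[k] (e.symm (S.symm y)) = e.symm (S.symm ((PP e S F)^[k] y)) := by
  intro k
  induction k with
  | zero => exact fun _ => rfl
  | succ k ih =>
    intro hk
    rw [Function.iterate_succ_apply', Function.iterate_succ_apply', ih (by omega)]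
    simp only [PP, Function.comp_apply, ContinuousLinearEquiv.symm_apply_apply]
    exact (e.left_inv (hB _ (h k (by omega)))).symm

end top

theorem Rk1_congr {D D' : ℕ → E 2 →L[ℝ] E 2} {v : E 2} (h : ∀ᶠ N in atTop, D N = D' N)
    (hD : Rk1 D v) : Rk1 D' v := by
  obtain ⟨a, u, g, u₀, c, h1, h2, h3, h4, h5, h6⟩ := hD
  refine ⟨a, u, g, u₀, c, h1, ?_, h3, h4, ?_, h6⟩
  · refine h2.congr' ?_
    filter_upwards [h] with N hN
    rw [hN]
  · filter_upwards [h, h5] with N hN hN5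
    rw [← hN, hN5]

theorem det_comp2 (A B : E 2 →L[ℝ] E 2) : (A ∘L B).det = A.det * B.det :=
  LinearMap.det_comp (A : E 2 →ₗ[ℝ] E 2) (B : E 2 →ₗ[ℝ] E 2)

/-- sign of the determinant of the composition -/
theorem det_aux (S : E 2 ≃L[ℝ] X) (B : X →L[ℝ] E 2) (G A : E 2 →L[ℝ] E 2)
    (h1 : B ∘L ((S : E 2 →L[ℝ] X) ∘L G) = ContinuousLinearMap.id ℝ (E 2))
    (h2 : 0 < A.det * G.det) : 0 < (B ∘L ((S : E 2 →L[ℝ] X) ∘L A)).det := by
  have e1 : (B ∘L (S : E 2 →L[ℝ] X)).det * G.det = 1 := by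
    rw [← det_comp2, ContinuousLinearMap.comp_assoc, h1]
    exact LinearMap.det_id
  have e2 : (B ∘L ((S : E 2 →L[ℝ] X) ∘L A)).det = (B ∘L (S : E 2 →L[ℝ] X)).det * A.det := by
    rw [← det_comp2, ContinuousLinearMap.comp_assoc]
  rw [e2]
  set b := (B ∘L (S : E 2 →L[ℝ] X)).det
  have hG : G.det ≠ 0 := by
    intro h0
    rw [h0, mul_zero] at e1
    exact zero_ne_one e1
  have h3 : b * A.det * (G.det * G.det) = A.det * G.det := by
    calc b * A.det * (G.det * G.det) = (b * G.det) * (A.det * G.det) := by ring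
      _ = A.det * G.det := by rw [e1, one_mul]
  have h4 : 0 < G.det * G.det := mul_self_pos.2 hG
  by_contra hcon
  push Not at hcon
  have : b * A.det * (G.det * G.det) ≤ 0 := mul_nonpos_of_nonpos_of_nonneg hcon h4.le
  rw [h3] at this
  linarith

section charts

variable {M : Type} [TopologicalSpace M] [ChartedSpace (E 2) M]

/-- the derivative read in charts -/
noncomputable def Dr (e₁ e₂ : OpenPartialHomeomorph M (E 2)) (F : M → M) (x : M) :
    E 2 →L[ℝ] E 2 := fderiv ℝ (e₂ ∘ F ∘ e₁.symm) (e₁ x)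

/-- `F` is continuous, and `C^1` at `x` in the charts -/
def Dif (e₁ e₂ : OpenPartialHomeomorph M (E 2)) (F : M → M) (x : M) : Prop :=
  x ∈ e₁.source ∧ Continuous F ∧ F x ∈ e₂.source ∧ ContDiffAt ℝ 1 (e₂ ∘ F ∘ e₁.symm) (e₁ x)

theorem Dr_comp {e₁ e₂ e₃ : OpenPartialHomeomorph M (E 2)} {F G : M → M} {x : M}
    (h1 : Dif e₁ e₂ G x) (h2 : Dif e₂ e₃ F (G x)) :
    Dr e₁ e₃ (F ∘ G) x = Dr e₂ e₃ F (G x) ∘L Dr e₁ e₂ G x := by
  have hev : (e₃ ∘ (F ∘ G) ∘ e₁.symm) =ᶠ[𝓝 (e₁ x)] (e₃ ∘ F ∘ e₂.symm) ∘ (e₂ ∘ G ∘ e₁.symm) := by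
    filter_upwards [(tend e₁ h1.2.1 h1.1).eventually (e₂.open_source.mem_nhds h1.2.2.1)] with y hy
    simp only [Function.comp_apply]
    rw [e₂.left_inv hy]
  have hval : (e₂ ∘ G ∘ e₁.symm) (e₁ x) = e₂ (G x) := by
    simp only [Function.comp_apply]
    rw [e₁.left_inv h1.1]
  rw [Dr, hev.fderiv_eq]
  have h3 : DifferentiableAt ℝ (e₃ ∘ F ∘ e₂.symm) ((e₂ ∘ G ∘ e₁.symm) (e₁ x)) := by
    rw [hval]
    exact h2.2.2.2.differentiableAt (by norm_num)
  rw [fderiv_comp (e₁ x) h3 (h1.2.2.2.differentiableAt (by norm_num)), hval]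
  rfl

theorem Dr_id {e₁ : OpenPartialHomeomorph M (E 2)} {x : M} (hx : x ∈ e₁.source) :
    Dr e₁ e₁ id x = ContinuousLinearMap.id ℝ (E 2) := by
  have hev : (e₁ ∘ id ∘ e₁.symm) =ᶠ[𝓝 (e₁ x)] id := by
    filter_upwards [e₁.open_target.mem_nhds (e₁.map_source hx)] with y hy
    simp only [Function.comp_apply, id]
    exact e₁.right_inv hy
  rw [Dr, hev.fderiv_eq, fderiv_id]

/-- iterates of the map near the saddle -/
theorem PP_iter_eq (e : OpenPartialHomeomorph M (E 2)) (S : E 2 ≃L[ℝ] X) {F : M → M} {x : M}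
    (hF : Continuous F) (hx : x ∈ e.source) (N : ℕ) (h : ∀ k, k < N → F^[k] x ∈ e.source) :
    (PP e S F)^[N] =ᶠ[𝓝 (S (e x))] S ∘ (e ∘ F^[N] ∘ e.symm) ∘ S.symm := by
  have hS : Tendsto S.symm (𝓝 (S (e x))) (𝓝 (e x)) := by
    have := S.symm.continuous.continuousAt.tendsto (x := S (e x))
    rwa [ContinuousLinearEquiv.symm_apply_apply] at this
  have h1 : ∀ᶠ y in 𝓝 (e x), ∀ k, k < N → F^[k] (e.symm y) ∈ e.source := by
    have h2 : ∀ᶠ y in 𝓝 (e x), ∀ k ∈ Finset.range N, F^[k] (e.symm y) ∈ e.source := by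
      rw [Filter.eventually_all_finset]
      intro k hk
      exact (tend e (hF.iterate k) hx).eventually
        (e.open_source.mem_nhds (h k (Finset.mem_range.1 hk)))
    filter_upwards [h2] with y hy k hk
    exact hy k (Finset.mem_range.2 hk)
  filter_upwards [hS.eventually h1, hS.eventually (e.open_target.mem_nhds (e.map_source hx))]
    with y hy hy2
  have h3 := PP_iter e S F (e.symm (S.symm y)) N hy N le_rfl
  rw [e.right_inv hy2, ContinuousLinearEquiv.apply_symm_apply] at h3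
  rw [h3]
  rfl

theorem fderiv_conj (e₁ e₂ : OpenPartialHomeomorph M (E 2)) (S : E 2 ≃L[ℝ] X) (F : M → M) (x : M) :
    fderiv ℝ (S ∘ (e₂ ∘ F ∘ e₁.symm) ∘ S.symm) (S (e₁ x)) =
      (S : E 2 →L[ℝ] X) ∘L (Dr e₁ e₂ F x ∘L (S.symm : X →L[ℝ] E 2)) := by
  rw [S.comp_fderiv, S.symm.comp_right_fderiv, ContinuousLinearEquiv.symm_apply_apply]
  rfl

theorem fderiv_PP (e : OpenPartialHomeomorph M (E 2)) (S : E 2 ≃L[ℝ] X) {F : M → M} {x : M}
    (hF : Continuous F) (hx : x ∈ e.source) (N : ℕ) (h : ∀ k, k < N → F^[k] x ∈ e.source) :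
    fderiv ℝ (PP e S F)^[N] (S (e x)) =
      (S : E 2 →L[ℝ] X) ∘L (Dr e e F^[N] x ∘L (S.symm : X →L[ℝ] E 2)) := by
  rw [(PP_iter_eq e S hF hx N h).fderiv_eq, fderiv_conj]

theorem fderiv_left (e₁ e₂ : OpenPartialHomeomorph M (E 2)) (S : E 2 ≃L[ℝ] X) (F : M → M) (x : M) :
    fderiv ℝ (S ∘ (e₂ ∘ F ∘ e₁.symm)) (e₁ x) = (S : E 2 →L[ℝ] X) ∘L Dr e₁ e₂ F x := by
  rw [S.comp_fderiv]
  rfl

theorem fderiv_right (e₁ e₂ : OpenPartialHomeomorph M (E 2)) (S : E 2 ≃L[ℝ] X) (F : M → M) (x : M) :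
    fderiv ℝ ((e₂ ∘ F ∘ e₁.symm) ∘ S.symm) (S (e₁ x)) =
      Dr e₁ e₂ F x ∘L (S.symm : X →L[ℝ] E 2) := by
  rw [S.symm.comp_right_fderiv, ContinuousLinearEquiv.symm_apply_apply]
  rfl

end charts

end SEC_

open SEC_ in
theorem tSEC (hBOX : T_BOX) (hSECP : T_SECP) (hOFF : T_OFF) : T_SEC := by
  intro M _ _ _ _ _ μ s f g m p q e e' v S lam hs hf hg hgf hfg hT hμe hμe' hep heq hl0 hl1 hS
  have hDIFF := diff1 2 M s
  obtain ⟨Gf, hGf⟩ := hDIFF.2.2.1 f hf
  obtain ⟨Gg, hGg⟩ := hDIFF.2.2.1 g hg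
  have hfc : Continuous f := hGf ▸ Gf.continuous
  have hgc : Continuous g := hGg ▸ Gg.continuous
  have hs1 : (1 : WithTop ℕ∞) ≤ (s : WithTop ℕ∞) := by exact_mod_cast hs
  have he := hT.he
  have he' := hT.he'
  -- smoothness in charts
  have dif_f : ∀ (k : ℕ) (e₁ e₂ : OpenPartialHomeomorph M (E 2)) (x : M), e₁ ∈ Ch 2 M →
      e₂ ∈ Ch 2 M → x ∈ e₁.source → f^[k] x ∈ e₂.source → Dif e₁ e₂ f^[k] x :=
    fun k e₁ e₂ x h1 h2 hx hkx => ⟨hx, hfc.iterate k, hkx,
      (hDIFF.2.2.2 f k e₁ e₂ x hf h1 h2 hx hkx).of_le hs1⟩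
  have dif_g : ∀ (k : ℕ) (e₁ e₂ : OpenPartialHomeomorph M (E 2)) (x : M), e₁ ∈ Ch 2 M →
      e₂ ∈ Ch 2 M → x ∈ e₁.source → g^[k] x ∈ e₂.source → Dif e₁ e₂ g^[k] x :=
    fun k e₁ e₂ x h1 h2 hx hkx => ⟨hx, hgc.iterate k, hkx,
      (hDIFF.2.2.2 g k e₁ e₂ x hg h1 h2 hx hkx).of_le hs1⟩
  have hfgk : ∀ (k : ℕ) (x : M), f^[k] (g^[k] x) = x := fun k x =>
    (Function.LeftInverse.iterate (f := g) (g := f) hfg k) x
  have hgfk : ∀ (k : ℕ) (x : M), g^[k] (f^[k] x) = x := fun k x =>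
    (Function.LeftInverse.iterate (f := f) (g := g) hgf k) x
  -- the map near the saddle
  set F : M → M := f^[2 * m] with hF
  have hFc : Continuous F := hfc.iterate _
  have hFk : ∀ k, F^[k] = f^[2 * m * k] := fun k => (Function.iterate_mul f (2 * m) k).symm
  have hFp : F p = p := by
    rw [hF, mul_comm, Function.iterate_mul]
    exact Function.iterate_fixed hT.hfp 2
  have hp0 : S (e p) = 0 := by rw [hep, map_zero]
  have hdFp : Dif e e F p := dif_f (2 * m) e e p he he hT.hp (by rw [← hF, hFp]; exact hT.hp)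
  set P : X → X := PP e S F with hP
  have hP0 : P 0 = 0 := by
    rw [← hp0, hP, PP_apply e S F hT.hp, hFp]
  have hPc : ContDiffAt ℝ 1 P 0 := by
    have h1 : ContDiffAt ℝ 1 (e ∘ F ∘ e.symm) (S.symm 0) := by
      rw [map_zero, ← hep]
      exact hdFp.2.2.2
    exact S.contDiff.contDiffAt.comp (0 : X) (h1.comp (0 : X) S.symm.contDiff.contDiffAt)
  have hPd : fderiv ℝ P 0 = dg lam lam⁻¹ := by
    have h1 := fderiv_conj e e S F p
    rw [hp0] at h1
    change fderiv ℝ (S ∘ (e ∘ F ∘ e.symm) ∘ S.symm) 0 = _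
    rw [h1]
    refine ContinuousLinearMap.ext fun z => ?_
    change S (fderiv ℝ (e ∘ F ∘ e.symm) (e p) (S.symm z)) = _
    rw [hep, hS, ContinuousLinearEquiv.apply_symm_apply]
  -- the neighbourhood of `p`
  obtain ⟨W, hW, hWC⟩ := hOFF M f g m p q hfc hgc hgf hfg hT.m_pos hT.hfp hT.ne hT.fwd hT.bwd
  -- continuity of the linear chart
  have hchart : ∀ {h : M → M} {x : M}, Continuous h → x ∈ e.source →
      Tendsto (fun y => h (e.symm (S.symm y))) (𝓝 (S (e x))) (𝓝 (h x)) := by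
    intro h x hh hx
    have h1 : Tendsto S.symm (𝓝 (S (e x))) (𝓝 (e x)) := by
      have := S.symm.continuous.continuousAt.tendsto (x := S (e x))
      rwa [ContinuousLinearEquiv.symm_apply_apply] at this
    exact (tend e hh hx).comp h1
  have htgt : ∀ {x : M}, x ∈ e.source → ∀ᶠ y in 𝓝 (S (e x)), S.symm y ∈ e.target := by
    intro x hx
    have h1 : Tendsto S.symm (𝓝 (S (e x))) (𝓝 (e x)) := by
      have := S.symm.continuous.continuousAt.tendsto (x := S (e x))
      rwa [ContinuousLinearEquiv.symm_apply_apply] at this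
    exact h1.eventually (e.open_target.mem_nhds (e.map_source hx))
  have hW' : {y : X | S.symm y ∈ e.target ∧ e.symm (S.symm y) ∈ W ∧
      F (e.symm (S.symm y)) ∈ e.source} ∈ 𝓝 (0 : X) := by
    rw [← hp0]
    refine (htgt hT.hp).and (((hchart continuous_id hT.hp).eventually hW).and
      ((hchart hFc hT.hp).eventually (e.open_source.mem_nhds ?_)))
    rw [hFp]
    exact hT.hp
  obtain ⟨del, rho, hBx, hball⟩ := hBOX P lam hl0 hl1 hP0 hPc hPd _ hW'
  -- large iterates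
  have hSe : ∀ {φ : ℕ → M}, Tendsto φ atTop (𝓝 p) →
      ∀ᶠ k in atTop, φ k ∈ e.source ∧ S (e (φ k)) ∈ closedBall (0 : X) rho := by
    intro φ hφ
    refine (hφ.eventually (e.open_source.mem_nhds hT.hp)).and ?_
    have h1 : Tendsto (fun k => S (e (φ k))) atTop (𝓝 (S (e p))) :=
      (S.continuous.tendsto _).comp ((e.continuousAt hT.hp).tendsto.comp hφ)
    rw [hp0] at h1
    exact h1.eventually (closedBall_mem_nhds 0 hBx.rho_pos)
  obtain ⟨K, hK⟩ := eventually_atTop.1 ((hSe hT.fwd).and (hSe hT.bwd))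
  obtain ⟨i, hi, j, hj, hori⟩ := hT.ori (K + 1)
  have hKf : ∀ l, K ≤ l → f^[m * l] q ∈ e.source ∧ S (e (f^[m * l] q)) ∈ closedBall (0 : X) rho :=
    fun l hl => (hK l hl).1
  have hKg : ∀ l, K ≤ l → g^[m * l] q ∈ e.source ∧ S (e (g^[m * l] q)) ∈ closedBall (0 : X) rho :=
    fun l hl => (hK l hl).2
  obtain ⟨C, hC1, hC2, hC3⟩ := hWC i j
  -- the homoclinic orbit
  set qp : M := f^[m * i] q with hqp
  set qm : M := g^[m * j] q with hqm
  have hFqp : ∀ k, F^[k] qp = f^[m * (i + 2 * k)] q := by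
    intro k
    rw [hFk, hqp, ← Function.iterate_add_apply]
    congr 1
    ring_nf
  have hFg : ∀ k l, F (g^[m * (l + 2 * (k + 1))] q) = g^[m * (l + 2 * k)] q := by
    intro k l
    have h1 : m * (l + 2 * (k + 1)) = 2 * m + m * (l + 2 * k) := by ring
    rw [h1, Function.iterate_add_apply, hF, hfgk]
  have hqpS : qp ∈ e.source := (hKf i (by omega)).1
  have hqmS : qm ∈ e.source := (hKg j (by omega)).1
  have hgqp : g^[m * i] qp = q := hgfk _ _
  have hfqm : f^[m * j] qm = q := hfgk _ _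
  set a : ℕ → X := fun k => S (e (f^[m * (i + 2 * k)] q)) with ha
  set b : ℕ → X := fun k => S (e (g^[m * (j + 2 * k)] q)) with hb
  have ha0 : a 0 = S (e qp) := by simp [ha, hqp]
  have hb0 : b 0 = S (e qm) := by simp [hb, hqm]
  have ha1 : ∀ k, a k ∈ closedBall (0 : X) rho := fun k => (hKf _ (by omega)).2
  have hb1 : ∀ k, b k ∈ closedBall (0 : X) rho := fun k => (hKg _ (by omega)).2
  have hFqpS : ∀ k, F^[k] qp ∈ e.source := fun k => by
    rw [hFqp]
    exact (hKf _ (by omega)).1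
  have ha2 : ∀ k, P (a k) = a (k + 1) := by
    intro k
    have h1 : a k = S (e (F^[k] qp)) := by rw [hFqp]
    have h2 : a (k + 1) = S (e (F (F^[k] qp))) := by
      rw [← Function.iterate_succ_apply' F k, hFqp]
    rw [h1, h2, hP, PP_apply e S F (hFqpS k)]
  have hb2 : ∀ k, P (b (k + 1)) = b k := by
    intro k
    change P (S (e (g^[m * (j + 2 * (k + 1))] q))) = S (e (g^[m * (j + 2 * k)] q))
    rw [hP, PP_apply e S F (hKg _ (by omega)).1, hFg]
  set vb : ℕ → X := fun k => S (Dr e' e g^[m * (j + 2 * k)] q v) with hvb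
  set α : E 2 → X := S ∘ (e ∘ f^[m * i] ∘ e'.symm) with hα
  set α' : X → E 2 := (e' ∘ g^[m * i] ∘ e.symm) ∘ S.symm with hα'
  set β : X → E 2 := (e' ∘ f^[m * j] ∘ e.symm) ∘ S.symm with hβ
  have hdq : Dif e' e f^[m * i] q := dif_f _ _ _ _ he' he hT.hq hqpS
  have hdq' : ∀ k, K ≤ k → Dif e' e g^[m * k] q := fun k hk =>
    dif_g _ _ _ _ he' he hT.hq (hKg k hk).1
  have hda : Dif e e' g^[m * i] qp := dif_g _ _ _ _ he he' hqpS (by rw [hgqp]; exact hT.hq)
  have hdb : Dif e e' f^[m * j] qm := dif_f _ _ _ _ he he' hqmS (by rw [hfqm]; exact hT.hq)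
  have hαd : fderiv ℝ α 0 = (S : E 2 →L[ℝ] X) ∘L Dr e' e f^[m * i] q := by
    rw [← heq, hα, fderiv_left]
  have hβd : fderiv ℝ β (b 0) = Dr e e' f^[m * j] qm ∘L (S.symm : X →L[ℝ] E 2) := by
    rw [hb0, hβ, fderiv_right]
  have hβG : fderiv ℝ β (b 0) ∘L ((S : E 2 →L[ℝ] X) ∘L Dr e' e g^[m * j] q) =
      ContinuousLinearMap.id ℝ (E 2) := by
    rw [hβd]
    have h1 : Dr e e' f^[m * j] qm ∘L Dr e' e g^[m * j] q = ContinuousLinearMap.id ℝ (E 2) := by
      rw [hqm, ← Dr_comp (hdq' j (by omega)) (by rw [← hqm]; exact hdb)]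
      have h2 : f^[m * j] ∘ g^[m * j] = id := funext fun x => hfgk _ _
      rw [h2, Dr_id hT.hq]
    refine ContinuousLinearMap.ext fun z => ?_
    change Dr e e' f^[m * j] qm (S.symm (S (Dr e' e g^[m * j] q z))) = z
    rw [ContinuousLinearEquiv.symm_apply_apply]
    exact congrArg (fun L : E 2 →L[ℝ] E 2 => L z) h1
  have c1 : ContDiffAt ℝ 1 α 0 := by
    rw [← heq]
    exact S.contDiff.contDiffAt.comp (e' q) hdq.2.2.2
  have c2 : ContDiffAt ℝ 1 α' (a 0) := by
    rw [ha0]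
    refine ContDiffAt.comp (S (e qp)) ?_ S.symm.contDiff.contDiffAt
    rw [ContinuousLinearEquiv.symm_apply_apply]
    exact hda.2.2.2
  have c3 : α' (a 0) = 0 := by
    rw [ha0, hα']
    simp only [Function.comp_apply, ContinuousLinearEquiv.symm_apply_apply]
    rw [e.left_inv hqpS, hgqp, heq]
  have c4 : ∀ᶠ y in 𝓝 (a 0), α (α' y) = y := by
    rw [ha0]
    filter_upwards [htgt hqpS, (hchart (hgc.iterate (m * i)) hqpS).eventually
      (e'.open_source.mem_nhds (by rw [hgqp]; exact hT.hq))] with y hy1 hy2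
    simp only [hα, hα', Function.comp_apply]
    rw [e'.left_inv hy2, hfgk, e.right_inv hy1, ContinuousLinearEquiv.apply_symm_apply]
  have c5 : ContDiffAt ℝ 1 β (b 0) := by
    rw [hb0]
    refine ContDiffAt.comp (S (e qm)) ?_ S.symm.contDiff.contDiffAt
    rw [ContinuousLinearEquiv.symm_apply_apply]
    exact hdb.2.2.2
  have c6 : Tendsto (fun k : ℕ => fderiv ℝ P^[k] (a 0) (fderiv ℝ α 0 v)) atTop (𝓝 0) := by
    have h1 : ∀ k : ℕ, fderiv ℝ P^[k] (a 0) (fderiv ℝ α 0 v) =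
        S (Dr e' e f^[m * (i + 2 * k)] q v) := by
      intro k
      rw [ha0, hP, fderiv_PP e S hFc hqpS k (fun l _ => hFqpS l), hαd]
      change S (Dr e e F^[k] qp (S.symm (S (Dr e' e f^[m * i] q v)))) = _
      rw [ContinuousLinearEquiv.symm_apply_apply]
      have h2 : Dif e e F^[k] qp := by
        have := hFqpS k
        rw [hFk] at this ⊢
        exact dif_f _ _ _ _ he he hqpS this
      have h3 : F^[k] ∘ f^[m * i] = f^[m * (i + 2 * k)] := by
        rw [hFk, ← Function.iterate_add]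
        congr 1
        ring
      have h4 := Dr_comp hdq h2
      rw [h3] at h4
      rw [h4]
      rfl
    have h2 : Tendsto (fun k : ℕ => S (Dr e' e f^[m * (i + 2 * k)] q v)) atTop (𝓝 (S 0)) := by
      refine (S.continuous.tendsto 0).comp ?_
      have h3 : Tendsto (fun k : ℕ => i + 2 * k) atTop atTop :=
        tendsto_atTop_mono (fun k => show k ≤ i + 2 * k by omega) tendsto_id
      exact hT.vf.comp h3
    rw [map_zero] at h2
    exact h2.congr fun k => (h1 k).symm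
  have c7 : Tendsto vb atTop (𝓝 0) := by
    have h2 : Tendsto (fun k : ℕ => S (Dr e' e g^[m * (j + 2 * k)] q v)) atTop (𝓝 (S 0)) := by
      refine (S.continuous.tendsto 0).comp ?_
      have h3 : Tendsto (fun k : ℕ => j + 2 * k) atTop atTop :=
        tendsto_atTop_mono (fun k => show k ≤ j + 2 * k by omega) tendsto_id
      exact hT.vb.comp h3
    rwa [map_zero] at h2
  have c8 : ∀ k, fderiv ℝ P (b (k + 1)) (vb (k + 1)) = vb k := by
    intro k
    have hs1 := (hKg (j + 2 * (k + 1)) (by omega)).1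
    have h1 := fderiv_PP e S hFc hs1 1 (fun l hl => by
      have : l = 0 := by omega
      subst this
      exact hs1)
    change fderiv ℝ (PP e S F)^[1] (S (e (g^[m * (j + 2 * (k + 1))] q)))
      (S (Dr e' e g^[m * (j + 2 * (k + 1))] q v)) = S (Dr e' e g^[m * (j + 2 * k)] q v)
    rw [h1]
    change S (Dr e e F^[1] _ (S.symm (S (Dr e' e g^[m * (j + 2 * (k + 1))] q v)))) = _
    rw [ContinuousLinearEquiv.symm_apply_apply]
    have h2 : Dif e e F^[1] (g^[m * (j + 2 * (k + 1))] q) := by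
      have h5 : F^[1] (g^[m * (j + 2 * (k + 1))] q) ∈ e.source := by
        change F (g^[m * (j + 2 * (k + 1))] q) ∈ e.source
        rw [hFg]
        exact (hKg _ (by omega)).1
      rw [hFk] at h5 ⊢
      exact dif_f _ _ _ _ he he hs1 h5
    have h3 : F^[1] ∘ g^[m * (j + 2 * (k + 1))] = g^[m * (j + 2 * k)] := by
      funext y
      change F (g^[m * (j + 2 * (k + 1))] y) = _
      have h1 : m * (j + 2 * (k + 1)) = 2 * m + m * (j + 2 * k) := by ring
      rw [h1, Function.iterate_add_apply, hF, hfgk]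
    have h4 := Dr_comp (hdq' (j + 2 * (k + 1)) (by omega)) h2
    rw [h3] at h4
    rw [h4]
    rfl
  have c9 : fderiv ℝ β (b 0) (vb 0) = v := by exact congrArg (fun L : E 2 →L[ℝ] E 2 => L v) hβG
  have c10 : 0 < (fderiv ℝ β (b 0) ∘L fderiv ℝ α 0).det := by
    rw [hαd]
    exact det_aux S _ _ _ hβG hori
  obtain ⟨x, hx1, hx2, hx3, hx4, hx5⟩ := hSECP P lam lam⁻¹ del rho hBx a b vb ha1 ha2 hb1 hb2
    α α' β 0 v hT.v_ne c1 c2 c3 c4 c5 c6 c7 c8 c9 c10
  -- the orbit segments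
  set uu : ℕ → M := fun N => e.symm (S.symm (x N)) with huu
  have hxt : ∀ N, S.symm (x N) ∈ e.target := fun N => (hball (hx3 N 0 (Nat.zero_le _))).1
  have huS : ∀ N, uu N ∈ e.source := fun N => e.map_target (hxt N)
  have hxu : ∀ N, x N = S (e (uu N)) := fun N => by
    rw [huu]
    simp only
    rw [e.right_inv (hxt N), ContinuousLinearEquiv.apply_symm_apply]
  have hFu : ∀ N, ∀ k ≤ N, F^[k] (uu N) = e.symm (S.symm (P^[k] (x N))) := fun N =>
    inv_iter e S F (closedBall (0 : X) rho) (fun y hy => (hball hy).2.2) (x N) N (hx3 N)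
  have hFuS : ∀ N, ∀ k ≤ N, F^[k] (uu N) ∈ e.source := fun N k hk => by
    rw [hFu N k hk]
    exact e.map_target (hball (hx3 N k hk)).1
  have hPx : ∀ N, P^[N] (x N) = S (e (F^[N] (uu N))) := fun N => by
    rw [hFu N N le_rfl, e.right_inv (hball (hx3 N N le_rfl)).1,
      ContinuousLinearEquiv.apply_symm_apply]
  set z : ℕ → M := fun N => g^[m * i] (uu N) with hz
  have hzu : ∀ N, f^[m * i] (z N) = uu N := fun N => hfgk _ _
  have hit : ∀ N k, f^[m * i + 2 * m * k] (z N) = F^[k] (uu N) := fun N k => by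
    rw [add_comm, Function.iterate_add_apply, hzu, hFk]
  have hitT : ∀ N, f^[m * i + 2 * m * N + m * j] (z N) = f^[m * j] (F^[N] (uu N)) := fun N => by
    rw [add_comm, Function.iterate_add_apply, hit]
  have hzt : Tendsto z atTop (𝓝 q) := by
    rw [ha0] at hx1
    have h1 := (hchart (hgc.iterate (m * i)) hqpS).comp hx1
    rw [hgqp] at h1
    exact h1
  have hzt' : Tendsto (fun N => f^[m * i + 2 * m * N + m * j] (z N)) atTop (𝓝 q) := by
    rw [hb0] at hx2
    have h1 := (hchart (hfc.iterate (m * j)) hqmS).comp hx2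
    rw [hfqm] at h1
    refine h1.congr fun N => ?_
    rw [hitT, hFu N N le_rfl]
    rfl
  have hoff := hC3 z hzt hzt' (fun N k hk => by
    rw [hit, hFu N k hk]
    exact (hball (hx3 N k hk)).2.1)
  -- the derivative
  have hder : ∀ᶠ N in atTop, fderiv ℝ β (P^[N] (x N)) ∘L fderiv ℝ P^[N] (x N) ∘L
      fderiv ℝ α (α' (x N)) =
      fderiv ℝ (e' ∘ f^[m * i + 2 * m * N + m * j] ∘ e'.symm) (e' (z N)) := by
    filter_upwards [hzt.eventually (e'.open_source.mem_nhds hT.hq),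
      hzt'.eventually (e'.open_source.mem_nhds hT.hq)] with N hN1 hN2
    have d1 : Dif e' e f^[m * i] (z N) := dif_f _ _ _ _ he' he hN1 (by rw [hzu]; exact huS N)
    have d2 : Dif e e F^[N] (f^[m * i] (z N)) := by
      rw [hzu]
      have := hFuS N N le_rfl
      rw [hFk] at this ⊢
      exact dif_f _ _ _ _ he he (huS N) this
    have d3 : Dif e e' f^[m * j] ((F^[N] ∘ f^[m * i]) (z N)) := by
      have h1 : (F^[N] ∘ f^[m * i]) (z N) = F^[N] (uu N) := by
        rw [Function.comp_apply, hzu]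
      rw [h1]
      refine dif_f _ _ _ _ he he' (hFuS N N le_rfl) ?_
      rw [← hitT]
      exact hN2
    have d12 : Dif e' e (F^[N] ∘ f^[m * i]) (z N) := by
      have h1 : F^[N] ∘ f^[m * i] = f^[2 * m * N + m * i] := by
        rw [hFk, ← Function.iterate_add]
      have h2 : (F^[N] ∘ f^[m * i]) (z N) ∈ e.source := by
        rw [Function.comp_apply, hzu]
        exact hFuS N N le_rfl
      rw [h1] at h2 ⊢
      exact dif_f _ _ _ _ he' he hN1 h2
    have e1 : fderiv ℝ α (α' (x N)) = (S : E 2 →L[ℝ] X) ∘L Dr e' e f^[m * i] (z N) := by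
      have h1 : α' (x N) = e' (z N) := rfl
      rw [h1, hα, fderiv_left]
    have e2 : fderiv ℝ P^[N] (x N) =
        (S : E 2 →L[ℝ] X) ∘L (Dr e e F^[N] (uu N) ∘L (S.symm : X →L[ℝ] E 2)) := by
      rw [hxu N, hP, fderiv_PP e S hFc (huS N) N (fun k hk => hFuS N k hk.le)]
    have e3 : fderiv ℝ β (P^[N] (x N)) =
        Dr e e' f^[m * j] (F^[N] (uu N)) ∘L (S.symm : X →L[ℝ] E 2) := by
      rw [hPx, hβ, fderiv_right]
    have e4 : f^[m * i + 2 * m * N + m * j] = f^[m * j] ∘ (F^[N] ∘ f^[m * i]) := by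
      rw [hFk, ← Function.iterate_add, ← Function.iterate_add]
      congr 1
      ring
    have e5 : Dr e' e' f^[m * i + 2 * m * N + m * j] (z N) =
        Dr e e' f^[m * j] (F^[N] (uu N)) ∘L (Dr e e F^[N] (uu N) ∘L Dr e' e f^[m * i] (z N)) := by
      have h1 := Dr_comp d12 d3
      have h2 := Dr_comp d1 d2
      rw [Function.comp_apply, hzu] at h1
      rw [hzu] at h2
      rw [e4, h1, h2]
    change _ = Dr e' e' f^[m * i + 2 * m * N + m * j] (z N)
    rw [e5, e1, e2, e3]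
    refine ContinuousLinearMap.ext fun y => ?_
    change Dr e e' f^[m * j] (F^[N] (uu N)) (S.symm (S (Dr e e F^[N] (uu N) (S.symm (S
      (Dr e' e f^[m * i] (z N) y)))))) = Dr e e' f^[m * j] (F^[N] (uu N))
        (Dr e e F^[N] (uu N) (Dr e' e f^[m * i] (z N) y))
    rw [ContinuousLinearEquiv.symm_apply_apply, ContinuousLinearEquiv.symm_apply_apply]
  refine ⟨z, fun N => m * i + 2 * m * N + m * j, C, hμe', hT.hq, heq, hC1, hC2, fun N => ?_, hzt,
    hzt', hoff, hT.v_ne, Rk1_congr hder hx4, ?_⟩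
  · have h1 : 1 ≤ m * i := Nat.mul_pos hT.m_pos (by omega)
    show 1 ≤ m * i + 2 * m * N + m * j
    omega
  · filter_upwards [hder, hx5] with N hN1 hN2
    rw [← hN1]
    exact hN2

end Pool.Agent.Tng
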