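import Pool.Agent.Tng.Defs
import Pool.Agent.Pal.Targets2

/-!
# Homoclinic tangencies: the targets of the jobs TNG-*
-/

set_option autoImplicit false

open Set MeasureTheory Filter Topology Metric
open scoped Manifold ContDiff

namespace Pool.Agent.Tng

open Pool.Agent.Pal

/-! ## Linear algebra -/

/-- A small rotation makes the maps elliptic. -/
def T_TRA : Prop := ∀ (D : ℕ → E 2 →L[ℝ] E 2) (v : E 2), v ≠ 0 → Rk1 D v →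
  (∀ᶠ N in atTop, (D N).det = 1) → ∀ η : ℝ, 0 < η →
  ∀ᶠ N in atTop, ∃ t : ℝ, |t| ≤ η ∧ NoRealEigenvalue (rot t ∘L D N)

/-- Diagonalisation of a saddle. -/
def T_DIAG : Prop := ∀ A : E 2 →L[ℝ] E 2, A.det = 1 →
  (∃ (w : E 2) (c : ℝ), w ≠ 0 ∧ 0 < c ∧ c ≠ 1 ∧ A w = c • w) →
  ∃ (S : E 2 ≃L[ℝ] X) (lam : ℝ), 0 < lam ∧ lam < 1 ∧ ∀ z, S (A z) = dg lam lam⁻¹ (S z)

/-! ## A local area preserving perturbation -/

/-- A small area preserving map with prescribed value `w` and derivative `rot t` at `y`. -/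
def T_JET : Prop := ∀ (σ : ℝ), 0 < σ → ∀ (r : ℕ) (δ : ℝ), 0 < δ →
  ∃ η : ℝ, 0 < η ∧ ∀ (y w : E 2) (t : ℝ), ‖y‖ ≤ η → ‖w‖ ≤ η → |t| ≤ η →
    ∃ L : E 2 → E 2, Mod (closedBall 0 σ) L ∧ Near r δ L ∧ (∀ z, (fderiv ℝ L z).det = 1) ∧
      L y = w ∧ fderiv ℝ L y = rot t

/-! ## Near a saddle in the plane -/

/-- Near the saddle the map is close to the linear map. -/
def T_LIP : Prop := ∀ (P : X → X) (lam mu del rho : ℝ), Box P lam mu del rho →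
  ∀ x ∈ closedBall (0 : X) rho, ∀ y ∈ closedBall (0 : X) rho,
    ‖P x - P y - dg lam mu (x - y)‖ ≤ del * ‖x - y‖

/-- The derivatives of the iterates. -/
def T_ITD : Prop := ∀ (P : X → X) (lam mu del rho : ℝ), Box P lam mu del rho →
  ∀ (N : ℕ) (x : X), Stay P rho N x → ∀ k ≤ N, ContDiffAt ℝ 1 P^[k] x ∧
    0 < (fderiv ℝ P^[k] x).det ∧
    (∀ j, k + j ≤ N → fderiv ℝ P^[k + j] x = fderiv ℝ P^[j] (P^[k] x) ∘L fderiv ℝ P^[k] x) ∧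
    (k < N → ∀ v, ‖fderiv ℝ P^[k + 1] x v - dg lam mu (fderiv ℝ P^[k] x v)‖ ≤
      del * ‖fderiv ℝ P^[k] x v‖)

/-- The cone estimates. -/
def T_CONE : Prop :=
  (∀ (lam mu del : ℝ) (d d' : X), 0 < lam → 0 < del → 0 < mu →
    ‖d' - dg lam mu d‖ ≤ del * ‖d‖ → Cs (lam + del) (mu - del) d d') ∧
  ∀ (κ σ : ℝ), 0 ≤ κ → κ < 1 → 1 < σ → ∀ (d : ℕ → X) (N : ℕ),
    (∀ k < N, Cs κ σ (d k) (d (k + 1))) →
    (|(d 0).1| ≤ |(d 0).2| → ∀ k ≤ N, |(d k).1| ≤ |(d k).2| ∧ σ ^ k * |(d 0).2| ≤ |(d k).2|) ∧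
    (|(d N).2| ≤ |(d N).1| → ∀ k ≤ N, |(d k).2| ≤ |(d k).1| ∧ |(d k).1| ≤ κ ^ k * |(d 0).1|)

/-- Orbits with given first coordinate at the start and second coordinate at the end. -/
def T_BVP : Prop := ∀ (P : X → X) (lam mu del rho : ℝ), Box P lam mu del rho →
  ∀ (N : ℕ) (α β : ℝ), |α| ≤ rho → |β| ≤ rho →
    ∃ x : X, x.1 = α ∧ (P^[N] x).2 = β ∧ Stay P rho N x

/-- These orbits are close to the stable and the unstable manifold. -/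
def T_APP : Prop := ∀ (P : X → X) (lam mu del rho : ℝ), Box P lam mu del rho →
  ∀ (a b x : ℕ → X), (∀ k, a k ∈ closedBall (0 : X) rho) → (∀ k, P (a k) = a (k + 1)) →
    (∀ k, b k ∈ closedBall (0 : X) rho) → (∀ k, P (b (k + 1)) = b k) →
    (∀ N, Stay P rho N (x N)) → (∀ N, (x N).1 = (a 0).1) →
    (∀ N, (P^[N] (x N)).2 = (b 0).2) →
    Tendsto x atTop (𝓝 (a 0)) ∧ ∀ j, Tendsto (fun N => P^[N - j] (x N)) atTop (𝓝 (b j))

/-- The contracted direction. -/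
def T_DIRS : Prop := ∀ (P : X → X) (lam mu del rho : ℝ), Box P lam mu del rho →
  ∀ (a x : ℕ → X) (vp : X), (∀ k, a k ∈ closedBall (0 : X) rho) → (∀ k, P (a k) = a (k + 1)) →
    (∀ N, Stay P rho N (x N)) → Tendsto x atTop (𝓝 (a 0)) → vp ≠ 0 →
    Tendsto (fun k : ℕ => fderiv ℝ P^[k] (a 0) vp) atTop (𝓝 0) →
    vp.1 ≠ 0 ∧ ∃ e : ℕ → X, Tendsto e atTop (𝓝 vp) ∧
      Tendsto (fun N : ℕ => fderiv ℝ P^[N] (x N) (e N)) atTop (𝓝 0)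

/-- The expanded direction. -/
def T_DIRU : Prop := ∀ (P : X → X) (lam mu del rho : ℝ), Box P lam mu del rho →
  ∀ (b x vb : ℕ → X), (∀ k, b k ∈ closedBall (0 : X) rho) → (∀ k, P (b (k + 1)) = b k) →
    (∀ N, Stay P rho N (x N)) → (∀ j, Tendsto (fun N => P^[N - j] (x N)) atTop (𝓝 (b j))) →
    vb 0 ≠ 0 → Tendsto vb atTop (𝓝 0) → (∀ k, fderiv ℝ P (b (k + 1)) (vb (k + 1)) = vb k) →
    ∃ (g : ℕ → X) (c : ℕ → ℝ), Tendsto g atTop (𝓝 (vb 0)) ∧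
      ∀ N, fderiv ℝ P^[N] (x N) (0, 1) = c N • g N

/-- The passage near the saddle, from a section to a section. -/
def T_SECP : Prop := ∀ (P : X → X) (lam mu del rho : ℝ), Box P lam mu del rho →
  ∀ (a b vb : ℕ → X), (∀ k, a k ∈ closedBall (0 : X) rho) → (∀ k, P (a k) = a (k + 1)) →
    (∀ k, b k ∈ closedBall (0 : X) rho) → (∀ k, P (b (k + 1)) = b k) →
  ∀ (α : E 2 → X) (α' β : X → E 2) (y₀ v : E 2), v ≠ 0 →
    ContDiffAt ℝ 1 α y₀ → ContDiffAt ℝ 1 α' (a 0) → α' (a 0) = y₀ →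
    (∀ᶠ x in 𝓝 (a 0), α (α' x) = x) → ContDiffAt ℝ 1 β (b 0) →
    Tendsto (fun k : ℕ => fderiv ℝ P^[k] (a 0) (fderiv ℝ α y₀ v)) atTop (𝓝 0) →
    Tendsto vb atTop (𝓝 0) → (∀ k, fderiv ℝ P (b (k + 1)) (vb (k + 1)) = vb k) →
    fderiv ℝ β (b 0) (vb 0) = v → 0 < (fderiv ℝ β (b 0) ∘L fderiv ℝ α y₀).det →
    ∃ x : ℕ → X, Tendsto x atTop (𝓝 (a 0)) ∧ Tendsto (fun N => P^[N] (x N)) atTop (𝓝 (b 0)) ∧
      (∀ N, Stay P rho N (x N)) ∧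
      Rk1 (fun N => fderiv ℝ β (P^[N] (x N)) ∘L fderiv ℝ P^[N] (x N) ∘L
        fderiv ℝ α (α' (x N))) v ∧
      ∀ᶠ N in atTop, 0 < (fderiv ℝ β (P^[N] (x N)) ∘L fderiv ℝ P^[N] (x N) ∘L
        fderiv ℝ α (α' (x N))).det

/-- Small squares around a saddle. -/
def T_BOX : Prop := ∀ (P : X → X) (lam : ℝ), 0 < lam → lam < 1 → P 0 = 0 → ContDiffAt ℝ 1 P 0 →
  fderiv ℝ P 0 = dg lam lam⁻¹ → ∀ W ∈ 𝓝 (0 : X), ∃ del rho : ℝ, Box P lam lam⁻¹ del rho ∧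
    closedBall (0 : X) rho ⊆ W

/-! ## On the surface -/

/-- The conditions of a homoclinic tangency do not depend on the charts. -/
def T_CHG : Prop := ∀ (M : Type) [TopologicalSpace M] [ChartedSpace (E 2) M]
  [IsManifold 𝓘(ℝ, E 2) ∞ M] (s : ℕ∞) (f g : M → M) (m : ℕ) (p q : M)
  (e e' : OpenPartialHomeomorph M (E 2)) (v : E 2), 1 ≤ s → IsDiffeo 2 s f → IsDiffeo 2 s g →
  (∀ x, g (f x) = x) → (∀ x, f (g x) = x) → Tang f g m p q e e' v →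
  ∀ e₁ ∈ Ch 2 M, ∀ e₀ ∈ Ch 2 M, p ∈ e₁.source → q ∈ e₀.source → ∃ v₀, Tang f g m p q e₁ e₀ v₀

/-- The derivative of a conservative diffeomorphism has determinant `1` or `-1` in charts in which
`μ` is Lebesgue measure. -/
def T_DET : Prop := ∀ (M : Type) [TopologicalSpace M] [T2Space M] [ChartedSpace (E 2) M]
  [IsManifold 𝓘(ℝ, E 2) ∞ M] [MeasurableSpace M] [BorelSpace M] (μ : Measure M) (s : ℕ∞)
  (f g : M → M), 1 ≤ s → IsDiffeo 2 s f → IsDiffeo 2 s g → (∀ x, g (f x) = x) →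
  (∀ x, f (g x) = x) → MeasurePreserving f μ μ →
  ∀ (e e' : OpenPartialHomeomorph M (E 2)) (m : ℕ) (x : M), Uni μ e → Uni μ e' → x ∈ e.source →
    f^[m] x ∈ e'.source → |(fderiv ℝ (e' ∘ f^[m] ∘ e.symm) (e x)).det| = 1

/-- The orbit segments that follow the homoclinic orbit have no intermediate point close to `q`. -/
def T_OFF : Prop := ∀ (M : Type) [MetricSpace M] (f g : M → M) (m : ℕ) (p q : M), Continuous f →
  Continuous g → (∀ x, g (f x) = x) → (∀ x, f (g x) = x) → 1 ≤ m → f^[m] p = p → q ≠ p →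
  Tendsto (fun k : ℕ => f^[m * k] q) atTop (𝓝 p) →
  Tendsto (fun k : ℕ => g^[m * k] q) atTop (𝓝 p) →
  ∃ W ∈ 𝓝 p, ∀ i j : ℕ, ∃ C : Set M, IsClosed C ∧ C ∈ 𝓝 q ∧ ∀ z : ℕ → M,
    Tendsto z atTop (𝓝 q) →
    Tendsto (fun N : ℕ => f^[m * i + 2 * m * N + m * j] (z N)) atTop (𝓝 q) →
    (∀ N, ∀ k ≤ N, f^[m * i + 2 * m * k] (z N) ∈ W) →
    ∀ᶠ N in atTop, ∀ l, 0 < l → l < m * i + 2 * m * N + m * j → f^[l] (z N) ∉ C

/-- From a homoclinic tangency to returns. -/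
def T_SEC : Prop := ∀ (M : Type) [MetricSpace M] [ChartedSpace (E 2) M]
  [IsManifold 𝓘(ℝ, E 2) ∞ M] [MeasurableSpace M] [BorelSpace M] (μ : Measure M) (s : ℕ∞)
  (f g : M → M) (m : ℕ) (p q : M) (e e' : OpenPartialHomeomorph M (E 2)) (v : E 2)
  (S : E 2 ≃L[ℝ] X) (lam : ℝ), 1 ≤ s → IsDiffeo 2 s f →
  IsDiffeo 2 s g → (∀ x, g (f x) = x) → (∀ x, f (g x) = x) →
  Tang f g m p q e e' v → Uni μ e → Uni μ e' → e p = 0 → e' q = 0 →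
  0 < lam → lam < 1 →
  (∀ z, S (fderiv ℝ (e ∘ f^[2 * m] ∘ e.symm) 0 z) = dg lam lam⁻¹ (S z)) →
  ∃ (z : ℕ → M) (T : ℕ → ℕ) (C : Set M), Ret μ f q e' z T C v

/-- Closing a return by a small area preserving perturbation. -/
def T_CLO : Prop := ∀ (M : Type) [MetricSpace M] [ChartedSpace (E 2) M]
  [IsManifold 𝓘(ℝ, E 2) ∞ M] [MeasurableSpace M] [BorelSpace M] (μ : Measure M) (s : ℕ∞) (r : ℕ)
  (f : M → M) (U : Set (M → M)) (q : M) (e : OpenPartialHomeomorph M (E 2)) (z : ℕ → M)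
  (T : ℕ → ℕ) (C : Set M) (v : E 2), 1 ≤ s → IsDiffeo 2 s f → MeasurePreserving f μ μ →
  Rob 2 s r U → f ∈ U → Ret μ f q e z T C v →
  (∀ᶠ N in atTop, (fderiv ℝ (e ∘ f^[T N] ∘ e.symm) (e (z N))).det = 1) →
  ∃ (f₁ : M → M) (N : ℕ), f₁ ∈ U ∧ IsDiffeo 2 s f₁ ∧ MeasurePreserving f₁ μ μ ∧
    f₁^[T N] (z N) = z N ∧ z N ∈ e.source ∧
    NoRealEigenvalue (fderiv ℝ (e ∘ f₁^[T N] ∘ e.symm) (e (z N)))

/-- The perturbation of a conservative diffeomorphism with a homoclinic tangency to one with an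
elliptic periodic point. -/
def T_ELL : Prop := ∀ (M : Type) [MetricSpace M] [ChartedSpace (E 2) M]
  [IsManifold 𝓘(ℝ, E 2) ∞ M] [CompactSpace M] [MeasurableSpace M] [BorelSpace M] (μ : Measure M)
  (s : ℕ∞) (r : ℕ) (f g : M → M) (U : Set (M → M)) (m : ℕ) (p q : M)
  (e e' : OpenPartialHomeomorph M (E 2)) (v : E 2), 1 ≤ s → IsVolume 2 μ → IsDiffeo 2 s f →
  IsDiffeo 2 s g → (∀ x, g (f x) = x) → (∀ x, f (g x) = x) → MeasurePreserving f μ μ →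
  Rob 2 s r U → f ∈ U → Tang f g m p q e e' v →
  ∃ (f₁ : M → M) (k : ℕ) (z : M) (e₁ : OpenPartialHomeomorph M (E 2)), f₁ ∈ U ∧
    IsDiffeo 2 s f₁ ∧ MeasurePreserving f₁ μ μ ∧ 1 ≤ k ∧ f₁^[k] z = z ∧ e₁ ∈ Ch 2 M ∧
    z ∈ e₁.source ∧ NoRealEigenvalue (fderiv ℝ (e₁ ∘ f₁^[k] ∘ e₁.symm) (e₁ z))

end Pool.Agent.Tng
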