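import Pool.Agent.Tng.Targets

/-!
# Homoclinic tangencies: orientable surfaces
-/

set_option autoImplicit false

open Set MeasureTheory Filter Topology Metric
open scoped Manifold ContDiff

namespace Pool.Agent.Tng

open Pool.Agent.Pal

/-- The surface `M` is orientable: it is covered by charts whose transition maps have positive
Jacobians. -/
def Orientable (M : Type) [TopologicalSpace M] [ChartedSpace (E 2) M] : Prop :=
  ∃ O ⊆ Ch 2 M, (∀ x : M, ∃ e ∈ O, x ∈ e.source) ∧ ∀ e ∈ O, ∀ e' ∈ O, ∀ x : M, x ∈ e.source →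
    x ∈ e'.source → 0 < (fderiv ℝ (e' ∘ e.symm) (e x)).det

/-- The orientation condition of `Tang` is always satisfied on an orientable surface. -/
def T_ORI : Prop := ∀ (M : Type) [TopologicalSpace M] [ChartedSpace (E 2) M]
  [IsManifold 𝓘(ℝ, E 2) ∞ M] [ConnectedSpace M] (s : ℕ∞) (f g : M → M) (m : ℕ) (p q : M)
  (e e' : OpenPartialHomeomorph M (E 2)), 1 ≤ s → IsDiffeo 2 s f → IsDiffeo 2 s g →
  (∀ x, g (f x) = x) → (∀ x, f (g x) = x) → Orientable M → e ∈ Ch 2 M → e' ∈ Ch 2 M →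
  p ∈ e.source → q ∈ e'.source → Tendsto (fun k : ℕ => f^[m * k] q) atTop (𝓝 p) →
  Tendsto (fun k : ℕ => g^[m * k] q) atTop (𝓝 p) →
  ∀ K : ℕ, ∃ i ≥ K, ∃ j ≥ K, 0 < (fderiv ℝ (e ∘ f^[m * i] ∘ e'.symm) (e' q)).det *
    (fderiv ℝ (e ∘ g^[m * j] ∘ e'.symm) (e' q)).det

end Pool.Agent.Tng
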